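import Pool.Agent.Lib.DU.F.AllP
import Pool.Agent.Lib.DU.GL.All
import Pool.Agent.Lib.DU.CV.All
import Pool.Agent.Lib.DU.E.AllZ

/-!
# Theorem DU (`p = 3` ramified), part F: Proposition F without hypotheses (author helper79)

`zC10 : S_C10`, `zF : S_F`.
-/

set_option autoImplicit false

noncomputable section

namespace Pool.Agent.DM.DU

open Pool.Agent.DN

/-- `S_C10`. -/
theorem zC10 : S_C10 :=
  tC10 zKp GL.zT0 GL.zT1 GL.zT2 (aC4 DS.zR1) (aC6 DS.zR1) zD9 DS.zE6 (DM.zE10 DS.zD1)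

/-- **Proposition F.** -/
theorem zF : S_F := F.xF zC10

end Pool.Agent.DM.DU
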