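import Pool.Agent.Lib.DU.F.SpecA
import Pool.Agent.Lib.DT.F.Lin3

/-!
# Theorem DU, part F, module Bet: the element `β`, two terms (helper79)
-/

set_option autoImplicit false
set_option linter.unusedSectionVars false

open scoped Pointwise Topology

noncomputable section

namespace Pool.Agent.DM.DU.F

open Pool.Agent.MuZ Pool.Agent.FW NumberField IsDedekindDomain Pool.Agent.DN Pool.Agent.DN.F
open Pool.Agent.DI (io ofC io_inj exists_io io_ofC ofC_io VP MP UP TP ex)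
open Pool.Agent.DI.F (RF red red_one red_mul red_zero red_add red_eq_iff red_eq_zero_iff red_sum
  vp_mul vp_add vp_sub vp_one vp_zero vp_neg vp_natCast vp_integral vp_sum
  mp_vp mp_coe)

variable {n t : ℕ} [Ram3 n t]

/-- The ring `A`. -/
def Bet_A (n t : ℕ) [Ram3 n t] (f : ℕ) : Subring Om where
  carrier := {x | x ∈ Kf n t f f ∧ ∀ Q : Ideal ZZ, Ab3 Q → ∀ τ ∈ GK n t, VP Q (τ x)}
  mul_mem' := by
    rintro x y ⟨hx, hx'⟩ ⟨hy, hy'⟩
    refine ⟨mul_mem hx hy, fun Q hQ τ hτ => ?_⟩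
    rw [map_mul]
    exact vp_mul hQ.1.1 (hx' Q hQ τ hτ) (hy' Q hQ τ hτ)
  one_mem' := by
    refine ⟨one_mem _, fun Q hQ τ _ => ?_⟩
    rw [map_one]
    exact vp_one hQ.1.1
  add_mem' := by
    rintro x y ⟨hx, hx'⟩ ⟨hy, hy'⟩
    refine ⟨add_mem hx hy, fun Q hQ τ hτ => ?_⟩
    rw [map_add]
    exact vp_add hQ.1.1 (hx' Q hQ τ hτ) (hy' Q hQ τ hτ)
  zero_mem' := by
    refine ⟨zero_mem _, fun Q hQ τ _ => ?_⟩
    rw [map_zero]
    exact vp_zero hQ.1.1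
  neg_mem' := by
    rintro x ⟨hx, hx'⟩
    refine ⟨neg_mem hx, fun Q hQ τ hτ => ?_⟩
    rw [map_neg]
    exact vp_neg hQ.1.1 (hx' Q hQ τ hτ)

/-- The residue maps. -/
def Bet_r (n t : ℕ) [Ram3 n t] (f : ℕ) {P : Ideal ZZ} (hP : Ab3 P)
    (τ : Gal(Om/ℚ)) (hτ : τ ∈ GK n t) : Bet_A n t f →+* RF hP.1.1 hP.1.2 where
  toFun x := red hP.1.1 hP.1.2 (τ (x : Om))
  map_one' := by
    change red hP.1.1 hP.1.2 (τ (1 : Om)) = 1
    rw [map_one]
    exact red_one hP.1.1 hP.1.2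
  map_mul' x y := by
    change red hP.1.1 hP.1.2 (τ ((x : Om) * (y : Om))) = _
    rw [map_mul]
    exact red_mul hP.1.1 hP.1.2 (x.2.2 P hP τ hτ) (y.2.2 P hP τ hτ)
  map_zero' := by
    change red hP.1.1 hP.1.2 (τ (0 : Om)) = 0
    rw [map_zero]
    exact red_zero hP.1.1 hP.1.2
  map_add' x y := by
    change red hP.1.1 hP.1.2 (τ ((x : Om) + (y : Om))) = _
    rw [map_add]
    exact red_add hP.1.1 hP.1.2 (x.2.2 P hP τ hτ) (y.2.2 P hP τ hτ)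

/-- The residue map on `O`. -/
def Bet_rO (n t : ℕ) [Ram3 n t] {P : Ideal ZZ} (hP : Ab3 P) : OO n t →+* RF hP.1.1 hP.1.2 where
  toFun v := red hP.1.1 hP.1.2 (toO v)
  map_one' := by
    rw [toO_one]
    exact red_one hP.1.1 hP.1.2
  map_mul' x y := by
    have : P.IsPrime := hP.1.1
    rw [toO_mul]
    exact red_mul hP.1.1 hP.1.2 (toO_VP x) (toO_VP y)
  map_zero' := by
    rw [toO_zero]
    exact red_zero hP.1.1 hP.1.2
  map_add' x y := by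
    have : P.IsPrime := hP.1.1
    rw [toO_add]
    exact red_add hP.1.1 hP.1.2 (toO_VP x) (toO_VP y)

/-- The field `F_3`. -/
def Bet_K0 (n t : ℕ) [Ram3 n t] (hO4 : S_O4) (hKP : S_KP) {P : Ideal ZZ} (hP : Ab3 P) :
    Subfield (RF hP.1.1 hP.1.2) :=
  { (Bet_rO n t hP).range with
    inv_mem' := by
      rintro _ ⟨v, rfl⟩
      have hPp : P.IsPrime := hP.1.1
      obtain ⟨-, -, -, -, -, -, -, -, -, -, -, -, -, c1, -⟩ := hO4 n t
      refine ⟨v, ?_⟩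
      have e : Bet_rO n t hP ((zs v : ℤ) : OO n t) = ((zs v : ℤ) : RF hP.1.1 hP.1.2) :=
        map_intCast _ _
      have h2 : Bet_rO n t hP v = ((zs v : ℤ) : RF hP.1.1 hP.1.2) := by
        rw [← e]
        refine (red_eq_iff hP.1.1 hP.1.2 (toO_VP v) (toO_VP _)).2 ?_
        rw [toO_int]
        exact (hKP n t P hP).2.2.2.2 v
      change Bet_rO n t hP v = (Bet_rO n t hP v)⁻¹
      rw [h2]
      rcases c1 v with h | h | h
      · rw [h, Int.cast_one, inv_one]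
      · rw [h, Int.cast_neg, Int.cast_one, inv_neg, inv_one]
      · rw [h, Int.cast_zero, inv_zero] }

theorem Bet_mem_K0 (hO4 : S_O4) (hKP : S_KP) {P : Ideal ZZ} (hP : Ab3 P) (x : RF hP.1.1 hP.1.2) :
    x ∈ Bet_K0 n t hO4 hKP hP ↔ ∃ v : OO n t, red hP.1.1 hP.1.2 (toO v) = x := Iff.rfl

section sums

variable {f : ℕ} {R : Finset (Ideal (OO n t))} {σ : Ideal (OO n t) → Gal(Om/ℚ)}

/-- `∑ σ b x` is fixed by `τ` on both sides. -/
private theorem Bet_left (hGc : S_Gc) (hf : Fok f) (hFR : FR f R) (hR : IsRC f R)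
    (hσ : IsSig n t f σ) {τ : Gal(Om/ℚ)} (hτ : τ ∈ GK n t) {a : Ideal (OO n t)}
    (ha : Psi τ (3 * f) a) {x : Om} (hx : x ∈ Kf n t f f) :
    ∑ b ∈ R, τ (σ b x) = ∑ b ∈ R, σ b x ∧ ∑ b ∈ R, σ b (τ x) = ∑ b ∈ R, σ b x := by
  obtain ⟨-, -, -, -, g⟩ := hGc n t f hf
  obtain ⟨g1, g2⟩ := g σ hσ f (Or.inl rfl) x hx
  have h1 := sum_mulF (A := Om) (f_pos hf) (Dvd.intro_left 3 rfl) hR hFR (fb_psi ha)
    (fun b => σ b x) g1
  constructor
  · rw [← h1]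
    exact Finset.sum_congr rfl fun b hb => (g2 τ hτ a ha b (hFR b hb)).1
  · rw [← h1]
    exact Finset.sum_congr rfl fun b hb => (g2 τ hτ a ha b (hFR b hb)).2

end sums

/-- **The element `β`.** -/
theorem tBet (hO4 : S_O4) (hE1 : DS.S_E1) (hKf : S_Kf) (hKP : S_KP) (hGc : S_Gc) : S_Bet := by
  classical
  intro n t _ f R hf hFR hR P hP σ hσ κ S hκ hS hS'' b1 hb1 b2 hb2 l1 l2 hl1 hl2 hne
  have hpsi : ∀ τ ∈ GK n t, ∃ a : Ideal (OO n t), Psi τ (3 * f) a := fun τ hτ =>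
    (hE1 n t (3 * f) (three_f hf) (d15 hf)).1 τ hτ
  have hPp : P.IsPrime := hP.1.1
  have h0 : P ≠ ⊥ := hP.1.2
  obtain ⟨k1, -, -, hfix, -, hdist, -⟩ := hKf n t f hf
  obtain ⟨hfd, -, hst, hgal⟩ := k1 f (Or.inl rfl)
  have h3 : (3 : ZZ) ∈ P := (mp_coe hPp 3).1 hP.2
  have hm : ∀ b ∈ R, σ b ∈ GK n t := fun b hb => hσ.mem b (hFR b hb)
  have hvS : ∀ w ∈ S, ∀ τ ∈ GK n t, VP P (τ w) := fun w hw τ hτ => (hS w hw).2 P hP τ hτ
  have hSA : ∀ w ∈ S, w ∈ Bet_A n t f := fun w hw => hS w hw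
  let r : {b // b ∈ R} → Bet_A n t f →+* RF hP.1.1 hP.1.2 :=
    fun b => Bet_r n t f hP (σ b.1) (hm b.1 b.2)
  have hinj : Function.Injective r := by
    intro b b' h
    apply Subtype.ext
    apply hR.uni b.1 b.2 b'.1 b'.2
    refine (hgal _ (hm b.1 b.2) _ (hm b'.1 b'.2) b.1 b'.1
      (hσ.psi _ (hFR _ b.2)) (hσ.psi _ (hFR _ b'.2))).1 ?_
    apply hdist P hP _ (hm b.1 b.2) _ (hm b'.1 b'.2)
    intro x hx hxi
    have hxv : ∀ Q : Ideal ZZ, Q.IsPrime → ∀ τ : Gal(Om/ℚ), VP Q (τ x) := fun Q hQ τ =>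
      vp_integral hQ (hxi.map ((τ : Om ≃ₐ[ℚ] Om).toAlgHom.restrictScalars ℤ))
    have hxR : x ∈ Bet_A n t f := ⟨hx, fun Q hQ τ _ => hxv Q hQ.1.1 τ⟩
    have h4 := RingHom.congr_fun h ⟨x, hxR⟩
    rw [← red_eq_iff hPp h0 (hxv P hPp (σ b.1)) (hxv P hPp (σ b'.1))]
    exact h4
  have hfin : (Set.range fun (x : Bet_A n t f) (i : {b // b ∈ R}) => r i x).Finite := by
    have h4 := DT.F.tResFin3 P hPp h0 h3 (Kf n t f f) hfd
    apply (Set.Finite.pi (fun _ : {b // b ∈ R} => h4)).subset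
    rintro _ ⟨x, rfl⟩ i _
    exact ⟨σ i.1 (x : Om), hst _ (hm _ i.2) _ x.2.1, x.2.2 P hP _ (hm _ i.2), rfl⟩
  have hsum : ∀ x : Om, x ∈ Bet_A n t f → ∀ i0 : RF hP.1.1 hP.1.2,
      i0 = ∑ i : {b // b ∈ R}, red hP.1.1 hP.1.2 (σ i.1 x) →
        i0 = red hP.1.1 hP.1.2 (∑ b ∈ R, σ b x) := by
    intro x hx i0 hi
    rw [hi, red_sum hPp h0 R (fun b => σ b x) fun b hb => hx.2 P hP _ (hm b hb)]
    exact (Finset.sum_coe_sort R fun b => red hP.1.1 hP.1.2 (σ b x))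
  have hval : ∀ x : Bet_A n t f, ∑ i, r i x ∈ Bet_K0 n t hO4 hKP hP := by
    intro x
    have h4 := hsum x x.2 (∑ i, r i x) rfl
    have hv : VP P (∑ b ∈ R, σ b (x : Om)) := vp_sum hPp _ _ fun b hb => x.2.2 P hP _ (hm b hb)
    have hK : (∑ b ∈ R, σ b (x : Om)) ∈ KQ n t := by
      apply hfix
      intro τ hτ
      rw [map_sum]
      obtain ⟨a, ha⟩ := hpsi τ hτ
      exact (Bet_left hGc hf hFR hR hσ hτ ha x.2.1).1
    obtain ⟨v, hv'⟩ := (hKP n t P hP).1 _ hK hv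
    rw [Bet_mem_K0]
    refine ⟨v, ?_⟩
    rw [h4]
    exact ((red_eq_iff hPp h0 hv (toO_VP v)).2 hv').symm
  have hdiag : ∀ c ∈ Bet_K0 n t hO4 hKP hP, ∃ x : Bet_A n t f, ∀ i, r i x = c := by
    intro c hc
    obtain ⟨v, hv⟩ := (Bet_mem_K0 hO4 hKP hP c).1 hc
    have h6 : toO v ∈ Kf n t f f := by
      have hw := (k1 f (Or.inl rfl)).2.1
      rw [toO_apply]
      exact add_mem (intCast_mem _ _) (mul_mem (intCast_mem _ _) hw)
    refine ⟨⟨toO v, h6, fun Q hQ τ hτ => ?_⟩, fun i => ?_⟩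
    · have : Q.IsPrime := hQ.1.1
      rw [GK_toO hτ]
      exact toO_VP v
    · change red hP.1.1 hP.1.2 (σ i.1 (toO v)) = c
      rw [GK_toO (hm i.1 i.2)]
      exact hv
  -- the functional
  let i1 : {b // b ∈ R} := ⟨b1, hb1⟩
  let i2 : {b // b ∈ R} := ⟨b2, hb2⟩
  let lf : {b // b ∈ R} → RF hP.1.1 hP.1.2 := fun i =>
    (if i = i1 then red hPp h0 l1 else 0) + (if i = i2 then red hPp h0 l2 else 0)
  have hlf : ∀ g : {b // b ∈ R} → RF hP.1.1 hP.1.2,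
      ∑ i, lf i * g i = red hPp h0 l1 * g i1 + red hPp h0 l2 * g i2 := by
    intro g
    simp only [lf, add_mul, Finset.sum_add_distrib, ite_mul, zero_mul, Finset.sum_ite_eq',
      Finset.mem_univ, if_true]
  obtain ⟨x, hx1, hx⟩ := DR.F.tLinG (Bet_K0 n t hO4 hKP hP) r hinj hfin hdiag hval
    (fun i => red hP.1.1 hP.1.2 (κ i.1)) lf {w | (w : Om) ∈ S} (by
      rw [hlf]
      intro h
      apply hne
      have e1 := red_mul hPp h0 hl1 (hκ b1 hb1)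
      have e2 := red_mul hPp h0 hl2 (hκ b2 hb2)
      have v1 := vp_mul hPp hl1 (hκ b1 hb1)
      have v2 := vp_mul hPp hl2 (hκ b2 hb2)
      rw [← red_eq_zero_iff hPp h0 (vp_add hPp v1 v2), red_add hPp h0 v1 v2, e1, e2]
      exact h) (by
      intro w hw
      have hw' : (w : Om) ∈ S := hw
      have h4 := (red_eq_zero_iff hPp h0 (mp_vp (hS'' _ hw'))).2 (hS'' _ hw')
      rw [red_sum hPp h0 R _ fun b hb =>
        vp_mul hPp (hκ b hb) (hvS _ hw' _ (hm b hb))] at h4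
      rw [← h4, ← Finset.sum_coe_sort R fun b => red hPp h0 (κ b * σ b (w : Om))]
      apply Finset.sum_congr rfl
      intro b _
      exact (red_mul hPp h0 (hκ b.1 b.2) (hvS _ hw' _ (hm b.1 b.2))).symm)
  refine ⟨x, x.2.1, ?_, x.2.2, ?_⟩
  · intro h
    apply hx1
    rw [hlf]
    have w1 := x.2.2 P hP _ (hm b1 hb1)
    have w2 := x.2.2 P hP _ (hm b2 hb2)
    have e1 := red_mul hPp h0 hl1 w1
    have e2 := red_mul hPp h0 hl2 w2
    have v1 := vp_mul hPp hl1 w1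
    have v2 := vp_mul hPp hl2 w2
    rw [← red_eq_zero_iff hPp h0 (vp_add hPp v1 v2), red_add hPp h0 v1 v2, e1, e2] at h
    exact h
  · intro w hw
    have h4 := hx ⟨w, hSA w hw⟩ hw
    have hv : ∀ b ∈ R, VP P (σ b ((x : Om) * w)) := by
      intro b hb
      rw [map_mul]
      exact vp_mul hPp (x.2.2 P hP _ (hm b hb)) (hvS w hw _ (hm b hb))
    rw [← red_eq_zero_iff hPp h0 (vp_sum hPp _ _ hv), red_sum hPp h0 R _ hv, ← h4,
      ← Finset.sum_coe_sort R fun b => red hPp h0 (σ b ((x : Om) * w))]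
    apply Finset.sum_congr rfl
    intro b _
    rw [map_mul]
    exact red_mul hPp h0 (x.2.2 P hP _ (hm b.1 b.2)) (hvS w hw _ (hm b.1 b.2))

end Pool.Agent.DM.DU.F
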