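import Pool.Agent.Lib.DU.F.SpecL

/-!
# Theorem DU, part F, module `CoL`: the coefficients are in `Kf n t f (3 * f)`
-/

set_option autoImplicit false

open scoped Pointwise Topology

noncomputable section

namespace Pool.Agent.DM.DU.F

open Pool.Agent.MuZ Pool.Agent.FW NumberField IsDedekindDomain Pool.Agent.DN Pool.Agent.DN.F
open Pool.Agent.DI (io ofC io_inj exists_io io_ofC ofC_io VP MP UP TP ex)

/-- The quotients `fr ⊤ / fr b` depend only on the class. -/
private theorem CoL_quot {A A' x y u v : ℂ} (hA : A ≠ 0) (hA' : A' ≠ 0) (hy : y ≠ 0) (hv : v ≠ 0)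
    (h1 : A * x = A' * u) (h2 : A * y = A' * v) : x / y = u / v := by
  rw [div_eq_div_iff hy hv]
  apply mul_left_cancel₀ (mul_ne_zero hA hA')
  linear_combination (A' * v) * h1 - (A' * u) * h2

/-- Elements of `KQ` are in `Kf`. -/
theorem KQ_kf {n t f N : ℕ} {x : Om} (hx : x ∈ KQ n t) : x ∈ Kf n t f N := by
  intro τ hτ a _ _
  exact (IntermediateField.mem_fixingSubgroup_iff (KQ n t) τ).1 hτ x hx

theorem tCoL (hKf : S_Kf) (hE10 : S_E10) (hR1 : S_R1) (hHm : S_Hm) (hAl : S_Al) : S_CoL := by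
  intro n t _ f m R hm hR σ hσ N0 β hβ
  have h2f : 0 < 3 * f := three_f hm.toFok
  obtain ⟨-, -, hst, -⟩ := (hKf n t f hm.toFok).1 (3 * f) (Or.inr rfl)
  have h1 : ∀ b : Ideal (OO n t), FB f b → rO b ⊤ ∈ Kf n t f (3 * f) := by
    intro b hb
    intro τ hτ a hpsi hray
    have ha : FB f a := fb_psi hpsi
    have htop : FB f (⊤ : Ideal (OO n t)) := fb_top f
    have hGa := fb_g30 hm.toFok ha
    have hGb := fb_g30 hm.toFok hb
    have h2 := ((hE10 n t τ (3 * f) a h2f (d60 hm.toFok) hpsi).2.1 b hGb).2.2.2.2 ⊤ g30_top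
    obtain ⟨α, α', hα, hα', hα1, hα1', hab⟩ := ray_norm hray
    have h3 := (hHm n t f m (a * b) hm (fb_mul ha hb) α hα hα1).2.1
    have h4 := (hHm n t f m b hm hb α' hα' hα1').2.1
    have h5 := (hHm n t f m a hm ha α hα hα1).2.1
    have h6 := (hHm n t f m ⊤ hm htop α' hα' hα1').2.1
    have e1 : sp α * (a * b) = sp α' * b := by
      rw [← mul_assoc, hab, Ideal.mul_top]
    rw [e1, h4] at h3
    rw [hab, h6] at h5
    have h7 := fr_ne hR1 (g30_mul hGa hGb)
    have h8 := fr_ne hR1 hGb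
    rw [h2, Ideal.mul_top]
    unfold rO
    rw [CoL_quot (toC_ne hα) (toC_ne hα') h7 h8 h5.symm h3.symm]
  refine ⟨h1, fun j => ?_⟩
  unfold aF
  refine mul_mem (natCast_mem _ _) (sum_mem fun b hb => ?_)
  have hfb := rc_fb hR hb
  exact mul_mem (mul_mem (hst _ (hσ.mem b hfb) β hβ) (h1 b hfb)) (KQ_kf (hAl n t f m b hm hfb j).1)

end Pool.Agent.DM.DU.F
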