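import Pool.Agent.Lib.DU.F.F2b

/-!
# Theorem DU, part F: `S_F2` (helper79)

Adapted from `DR/F/F2.lean` (helper12), `DM/F/F1.lean`.
-/

set_option autoImplicit false
set_option linter.unusedSectionVars false

open scoped Pointwise Topology MatrixGroups
open Filter

noncomputable section

namespace Pool.Agent.DM.DU.F

open Pool.Agent.MuZ Pool.Agent.FW NumberField IsDedekindDomain Pool.Agent.DN Pool.Agent.DN.F
open Pool.Agent.DI (io ofC io_inj exists_io io_ofC ofC_io VP MP UP TP ex)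

private theorem F2_neg (b d : ℤ) : -((3 : ℚ) * (b : ℚ) / d) = 3 * ((-b : ℤ) : ℚ) / d := by
  push_cast
  ring

/-- The matrix `(a 3b; c/3 d)`. -/
private theorem F2_g0 {M : ℕ} {a b c d : ℤ} (h : G0 (27 * M) a b c d)
    (hd : (27 * M : ℤ) ∣ d - 1) : ∃ c' : ℤ, G0 M a (3 * b) c' d ∧ (M : ℤ) ∣ d - 1 := by
  obtain ⟨h1, e, he⟩ := h
  refine ⟨9 * (M * e), ⟨?_, ⟨9 * e, by ring⟩⟩, dvd_trans ⟨27, by ring⟩ hd⟩
  rw [← h1, he]
  ring

theorem tF2 (hE1 : DS.S_E1) (hE7 : DS.S_E7) (hCj : DS.S_Cj) (hCj2 : DM.S_Cj) (hKf : S_Kf)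
    (hKp : S_Kp) (hKP : S_KP) (hGc : S_Gc) (hYE : S_YE) (hKap : S_Kap) (hSm : S_Sm)
    (hBet : S_Bet) (hPb : S_Pb) (hLead : S_Lead) : S_F2 := by
  intro n t _ f M k e m R R2 hm hmt hFR hR hLv hFR2 hR2 hLv2 χ hχ hN P hP hk hTy σ hσ s hs0 c hc hyp
  have hPp : P.IsPrime := hP.1.1
  have hf := hm.toFok
  obtain ⟨k1, hkfull, -, -, -, -, -, k9, -⟩ := hKf n t f hf
  obtain ⟨hcc, -⟩ := k9 c hc
  obtain ⟨g1, -, g3, g4, -⟩ := hGc n t f hf
  have htop : FB f (⊤ : Ideal (OO n t)) := fb_top f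
  -- the numbers `w_g`
  have hden : ∀ b d : ℤ, (27 * M : ℤ) ∣ d - 1 → ((3 : ℚ) * (b : ℚ) / d).den.Coprime M := by
    intro b d hd
    have h := den_cop (b := 3 * b) hd ⟨27, by ring⟩
    push_cast at h
    exact h
  have h0 : (0 : ℚ).den.Coprime M := by
    rw [Rat.den_zero]
    exact Nat.coprime_one_left M
  let S : Set Om := {w | ∃ a b c' d : ℤ, G0 (27 * M) a b c' d ∧ (27 * M : ℤ) ∣ d - 1 ∧
    w = wg f k s m b d}
  have hS : ∀ w ∈ S, w ∈ Kf n t f f ∧ ∀ Q : Ideal ZZ, Ab3 Q → ∀ τ ∈ GK n t, VP Q (τ w) := by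
    rintro w ⟨a, b, c', d, -, hd, rfl⟩
    have e1 := hYE n t f M k m R hm hFR hLv hk _ (hden b d hd)
    have e2 := hYE n t f M k m R hm hFR hLv hk _ (hden (-b) d hd)
    have e3 := hYE n t f M k m R hm hFR hLv hk _ h0
    rw [← F2_neg] at e2
    unfold wg
    refine ⟨sub_mem (sub_mem e1.1 e3.1) (mul_mem (intCast_mem (Kf n t f f) s)
      (sub_mem e2.1 e3.1)), fun Q hQ τ hτ => ?_⟩
    have hQp : Q.IsPrime := hQ.1.1
    rw [map_sub, map_sub, map_mul, map_intCast, map_sub]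
    exact DI.VP.sub (DI.VP.sub (e1.2.1 Q hQ τ hτ) (e3.2.1 Q hQ τ hτ))
      (DI.VP.mul (DI.VP.int s) (DI.VP.sub (e2.2.1 Q hQ τ hτ) (e3.2.1 Q hQ τ hτ)))
  have hS'' : ∀ w ∈ S, MP P (∑ b ∈ R, kpp k χ b * σ b w) := by
    rintro w ⟨a, b, c', d, hG, hd, rfl⟩
    rw [hSm n t f M k e m R hm hFR hR hLv χ hχ hk σ hσ s hs0 a b c' d hG hd]
    obtain ⟨c'', h3, h4⟩ := F2_g0 hG hd
    have h5 := hyp a (3 * b) c'' d h3 h4
    push_cast at h5
    exact h5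
  -- the class of the leading coefficient
  obtain ⟨b1, hb1, hb1r, hb1u⟩ := exists_b1 (three_f hf) (fb_pn (fm_fb hm)) hR2
  have hfb1 := hFR2 b1 hb1
  obtain ⟨β, hβK, hβV, hβS, Q, hQ, hQn⟩ := F2_key hE1 hE7 hCj hCj2 hKf hGc hKap hBet hf hFR hR hχ
    hN hP hk hTy hσ hc s S hS hS'' hfb1
  have hQp : Q.IsPrime := hQ.1.1
  obtain ⟨N0, hN0, hper⟩ := hPb n t f M k m R R2 hm hFR hR hLv hFR2 hR2 hLv2 hk P hP σ hσ β hβK hβV
  have h3K : (3 : Om) ∈ Kf n t f (3 * f) := by exact_mod_cast natCast_mem (Kf n t f (3 * f)) 3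
  have hbK : bet n t k β ∈ Kf n t f (3 * f) :=
    div_mem (mul_mem (pow_mem g3 k) (hkfull hβK)) h3K
  have hw0 : w4 ^ k ≠ 0 := pow_ne_zero k w4_ne
  have hbet : ∀ b : Ideal (OO n t), FB f b → 3 * σ b (bet n t k β) = kp b ^ k * σ b β := by
    intro b hb
    have e1 := (g1 (σ b) (hσ.mem b hb) b (hσ.psi b hb) ⊤ htop).1
    rw [Ideal.mul_top] at e1
    unfold bet
    rw [map_div₀, map_mul, map_pow, e1, map_ofNat]
    ring
  obtain ⟨-, -, -, l4, l5⟩ := hLead n t f m R2 hm hFR2 hR2 σ hσ N0 (bet n t k β) hbK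
  obtain ⟨b1', hb1', hb1r', u, hu1, hu2⟩ := l5 hmt hN0
  obtain rfl : b1' = b1 := hb1u b1' hb1' hb1r'
  -- integrality
  have hA : ∀ Q' : Ideal ZZ, Ab3 Q' → ∀ j : ℕ,
      VP Q' (aF f m R2 σ N0 (bet n t k β) j / w4 ^ k) := by
    intro Q' hQ' j
    have hQp' : Q'.IsPrime := hQ'.1.1
    refine l4 Q' hQ' (w4 ^ k) hw0 (fun b hb => ?_) j
    have e1 : 3 * σ b (bet n t k β) / w4 ^ k = (kp b / w4) ^ k * σ b β := by
      rw [hbet b (hFR2 b hb), div_pow]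
      ring
    rw [e1]
    exact ((hKp.2 n t Q' hQ' b (fb_g30 hf (hFR2 b hb))).1.1.pow k).mul
      (hβV Q' hQ' _ (hσ.mem b (hFR2 b hb)))
  -- the conjugate of a number divisible by `w4 ^ k`
  have hcx : ∀ x : Om, (∀ Q' : Ideal ZZ, Ab3 Q' → VP Q' (x / w4 ^ k)) →
      ∀ Q' : Ideal ZZ, Ab3 Q' → VP Q' (c x / w4 ^ k) := by
    intro x hx Q' hQ'
    have hQp' : Q'.IsPrime := hQ'.1.1
    obtain ⟨v0, vU⟩ := F2_w4 (P := Q') c
    have hcQp : (c • Q').IsPrime := (ab3_smul c hQ').1.1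
    have h1 := F2_vp hcc (hx _ (ab3_smul c hQ'))
    have h2 := h1.mul (vU.1.pow k)
    have e1 : c (x / w4 ^ k) * (c w4 / w4) ^ k = c x / w4 ^ k := by
      have hv0 : c w4 ^ k ≠ 0 := pow_ne_zero k v0
      rw [map_div₀, map_pow, div_pow]
      field_simp
    rw [e1] at h2
    exact h2
  refine ⟨N0, bet n t k β, Q, hQ, hbK, fun j => ?_, ?_, ?_⟩
  · unfold cF
    rw [sub_div, mul_div_assoc]
    exact DI.VP.sub (hA Q hQ j) (DI.VP.mul (DI.VP.int s) (hcx _ (fun Q' hQ' => hA Q' hQ' j) Q hQ))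
  · -- the leading coefficient
    obtain ⟨Z, hZ⟩ : ∃ Z, Z = F2Z k σ b1' β := ⟨_, rfl⟩
    rw [← hZ] at hQn
    have ha1 : aF f m R2 σ N0 (bet n t k β) 1 = u * Z := by
      rw [hu1, hbet b1' hfb1, hZ]
      unfold F2Z
      ring
    have hZV : ∀ Q' : Ideal ZZ, Ab3 Q' → VP Q' (Z / w4 ^ k) := by
      intro Q' hQ'
      have hQp' : Q'.IsPrime := hQ'.1.1
      obtain ⟨hu, -⟩ := hu2 Q' hQ'
      have h1 := hA Q' hQ' 1
      rw [ha1] at h1
      have h2 := hu.inv.1.mul h1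
      have e1 : u⁻¹ * (u * Z / w4 ^ k) = Z / w4 ^ k := by
        have := hu.ne_zero
        field_simp
      rwa [e1] at h2
    have hcZV := hcx Z hZV Q hQ
    obtain ⟨huU, hucj⟩ := hu2 Q hQ
    have e : cF f s m R2 σ c N0 (bet n t k β) 1 / w4 ^ k =
        u * ((Z - s * c Z) / w4 ^ k) - s * ((c u - u) * (c Z / w4 ^ k)) := by
      unfold cF
      rw [ha1, map_mul]
      ring
    have hm1 : MP Q (s * ((c u - u) * (c Z / w4 ^ k))) :=
      DI.MP.mul_left (DI.VP.int s) (DI.MP.mul_right (hucj c hc) hcZV)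
    have hUZ : UP Q ((Z - s * c Z) / w4 ^ k) := by
      refine ⟨?_, hQn⟩
      rw [sub_div, mul_div_assoc]
      exact (hZV Q hQ).sub ((DI.VP.int s).mul hcZV)
    rw [e]
    refine DI.UP.congr (huU.mul hUZ) ?_
    rw [sub_sub_cancel_left]
    exact hm1.neg
  · intro a b c' d h1 h2
    obtain ⟨α, hα1, hα2⟩ := hper a b c' d h1 h2
    obtain ⟨α', hα'1, hα'2⟩ := hper a (-b) (-c') d (g0_inv h1) h2
    refine ⟨α, α', ?_, fun z hz => ⟨hα2 z hz, ?_⟩⟩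
    · rw [← (hKP n t P hP).2.1, toO_sub, toO_mul, toO_int, ← hα1, ← hα'1]
      have e1 : (N0 : Om) * perA f k m R σ β b d - s * ((N0 : Om) * perA f k m R σ β (-b) d) =
          (N0 : Om) * ∑ b' ∈ R, σ b' (β * wg f k s m b d) := by
        unfold perA
        rw [mul_left_comm (s : Om), ← mul_sub, Finset.mul_sum, ← Finset.sum_sub_distrib]
        congr 1
        refine Finset.sum_congr rfl fun b' _ => ?_
        have e2 : (s : Om) = σ b' (s : Om) := by rw [map_intCast]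
        rw [e2, ← map_mul, ← map_sub, ← F2_neg]
        unfold wg
        congr 1
        ring
      rw [e1]
      refine DI.MP.mul_left (DI.VP.nat N0) ?_
      exact hβS _ ⟨a, b, c', d, h1, h2, rfl⟩
    · have h3 := hα'2 z hz
      rw [Int.cast_neg, Int.cast_neg, ← sub_eq_add_neg] at h3
      exact h3

end Pool.Agent.DM.DU.F
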