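import Pool.Agent.Lib.DU.F.Tan
import Pool.Agent.Lib.DN.F.FHm

/-!
# Theorem DU, part F: the contradiction (`S_FH`) from the generic form `DU.F4.fh`
-/

set_option autoImplicit false

open scoped Pointwise

noncomputable section

namespace Pool.Agent.DM.DU.F

open Pool.Agent.MuZ Pool.Agent.FW NumberField IsDedekindDomain Pool.Agent.DN Pool.Agent.DN.F
open Pool.Agent.DI (io ofC io_inj exists_io io_ofC ofC_io VP MP UP TP ex)
open _root_.DI.F4
open Pool.Agent.DN.FHm (VPv)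

/-- **S_FH.** -/
theorem tFH (hL6 : S_L6) (hX : S_XOm) (hR2 : S_R2) (hD10 : S_D10) (hKf : S_Kf) (hLead : S_Lead) :
    S_FH := by
  intro n t _ f k m R hm hR hRC P hP hk σ hσ c hc s N0 β hβ hV hu1 T W ψ Q1 Q2 hTW hψ hQ2 hQ K' hK'
    hQ1k hQ2k vQ1 vQ2
  have hPp : P.IsPrime := hP.1.1
  obtain ⟨-, t1, t2, t3⟩ := tanT hL6 hX n t
  obtain ⟨hcU, -⟩ := hR2 n t P hP (⊤ : Ideal (OO n t)) g30_top
  obtain ⟨-, hx1, -⟩ := hD10 n t P hP (⊤ : Ideal (OO n t)) g30_top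
  obtain ⟨l1, l2, -⟩ := hLead n t f m R hm hR hRC σ hσ N0 β hβ
  obtain ⟨kf, -⟩ := (hKf n t f hm.toFok).1 (3 * f) (Or.inr rfl)
  obtain ⟨x, hx⟩ : ∃ x, x = xO (⊤ : Ideal (OO n t)) (T3 n t) := ⟨_, rfl⟩
  obtain ⟨g, hg⟩ : ∃ g, g = (1 - 8 * cO (⊤ : Ideal (OO n t))) / 4 := ⟨_, rfl⟩
  obtain ⟨a, ha⟩ : ∃ a, a = cO (⊤ : Ideal (OO n t)) ^ 2 := ⟨_, rfl⟩
  obtain ⟨nu, hnu⟩ : ∃ nu, nu = nuT n t + lamT n t * (g / 3) := ⟨_, rfl⟩
  rw [← hx, ← hg] at t1
  rw [← hx, ← hg, ← ha, ← hnu] at t2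
  rw [← hx, ← hg, ← hnu] at t3
  rw [← hx] at hx1
  have haU : UP P a := by
    rw [ha]
    exact hcU.pow 2
  have hx0 : x ≠ 0 := by
    rintro rfl
    apply hx1.ne_zero
    ring
  have h4a : a4O n t = a - g ^ 2 / 3 := by
    unfold a4O
    rw [ha, hg]
    ring
  have h6a : a6O n t = 2 * g ^ 3 / 27 - a * g / 3 := by
    unfold a6O
    rw [ha, hg]
    ring
  -- the number `q`
  obtain ⟨q, hq⟩ : ∃ q, q = nu / x := ⟨_, rfl⟩
  have hq2 : q ^ 2 = x := by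
    rw [hq, div_pow, t3]
    field_simp
  have hq3 : q ^ 3 = nu := by
    have e : q ^ 3 = q ^ 2 * q := by ring
    rw [e, hq2, hq]
    field_simp
  have hq0 : q ≠ 0 := by
    rintro rfl
    rw [zero_pow (by norm_num)] at hq2
    exact hx0 hq2.symm
  have hqU : UP P (q * w4) := by
    refine DI.UP.of_pow (n := 4) (by norm_num) ?_
    have e : (q * w4) ^ 4 = 3 * x ^ 2 := by
      rw [mul_pow, w4_pow, ← hq2]
      ring
    rw [e]
    exact hx1
  have e1 : g = lamT n t ^ 2 - 3 * q ^ 2 := by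
    rw [hq2]
    linear_combination -t1
  have e2 : a = q ^ 3 * (2 * lamT n t + 3 * q) := by
    have e : q ^ 3 * (2 * lamT n t + 3 * q) = 2 * lamT n t * nu + 3 * x ^ 2 := by
      rw [← hq3, ← hq2]
      ring
    rw [e]
    linear_combination -t2
  -- the field of coefficients
  let S0 : Set Om := {w4, q, g, a}
  have : FiniteDimensional ℚ (IntermediateField.adjoin ℚ S0) :=
    IntermediateField.finiteDimensional_adjoin fun x _ => (Algebra.IsAlgebraic.isAlgebraic x).isIntegral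
  let K1 : IntermediateField ℚ Om :=
    K' ⊔ (Kf n t f (3 * f) ⊔ ((Kf n t f (3 * f)).map (c : Om →ₐ[ℚ] Om) ⊔ IntermediateField.adjoin ℚ S0))
  have : FiniteDimensional ℚ K1 := inferInstance
  have hK'1 : K' ≤ K1 := le_sup_left
  have hK2 : Kf n t f (3 * f) ≤ K1 := le_sup_left.trans le_sup_right
  have hK3 : (Kf n t f (3 * f)).map (c : Om →ₐ[ℚ] Om) ≤ K1 :=
    (le_sup_left.trans le_sup_right).trans le_sup_right
  have hK4 : IntermediateField.adjoin ℚ S0 ≤ K1 :=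
    (le_sup_right.trans le_sup_right).trans le_sup_right
  have hS0 : ∀ x ∈ S0, x ∈ K1 := fun x hx => hK4 (IntermediateField.subset_adjoin ℚ S0 hx)
  have h3V : (3 : Om)⁻¹ ∉ VPv P := by
    intro h1
    have h3 : VP P (3 : Om)⁻¹ := h1
    have h4 := DI.MP.mul_left h3 hP.2
    rw [inv_mul_cancel₀ three_ne_zero] at h4
    exact DI.MP.one_not h4
  obtain ⟨ϖ, hϖ⟩ := _root_.DT.F4.disV Om (VPv P) K1 3 (by norm_num) (by exact_mod_cast h3V)
  have hcu : ∀ j, PowerSeries.coeff j (uF f s m R σ c N0 β) = cF f s m R σ c N0 β j := fun j => by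
    unfold uF
    rw [PowerSeries.coeff_mk]
  have hu1' : UP P (PowerSeries.coeff 1 (uF f s m R σ c N0 β) / w4 ^ k) := by
    rw [hcu]
    exact hu1
  have hTW' := _root_.DU.F4.TWr.of h4a h6a hTW
  refine _root_.DU.F4.fh (V := VPv P) (S := K1.toSubfield) hϖ h3V (c := w4) (g := g) (a := a)
    (lam := lamT n t) (q := q) (k := k) hk w4_pow
    (hS0 _ (by simp [S0])) (hS0 _ (by simp [S0])) haU.1 haU.ne_zero haU.inv.1 (hS0 _ (by simp [S0]))
    hqU.1 hq0 hqU.inv.1 (hS0 _ (by simp [S0])) e1 e2 (u := uF f s m R σ c N0 β)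
    (T := T - PowerSeries.C (g / 3) * W) (W := W) (ψ := ψ) (Q1 := Q1)
    (Q2 := Q2) ?_ ?_ ?_ ?_ hu1'.inv.1 hTW' ?_ hQ2 hQ (fun j => hK'1 (hQ1k j))
    (fun j => hK'1 (hQ2k j)) vQ1 vQ2
  · intro j
    rw [hcu]
    exact hV j
  · intro j
    rw [hcu]
    unfold cF
    exact sub_mem (hK2 (l1 j)) (mul_mem (intCast_mem _ _) (hK3 ⟨_, l1 j, rfl⟩))
  · rw [hcu]
    unfold cF
    rw [l2, map_zero, mul_zero, sub_zero]
  · intro h
    have h1 := hu1'.ne_zero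
    rw [h, zero_div] at h1
    exact h1 rfl
  · rw [hψ, hq3, hnu, map_add, map_mul]
    ring

end Pool.Agent.DM.DU.F
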