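import Pool.Agent.Lib.DU.F.SpecA

/-!
# Theorem DU, part F, module `Gc`: the Galois action on the numbers `kp` and on the quotients of the framings
-/

set_option autoImplicit false

open scoped Pointwise

noncomputable section

namespace Pool.Agent.DM.DU.F

open Pool.Agent.MuZ Pool.Agent.FW NumberField IsDedekindDomain Pool.Agent.DN Pool.Agent.DN.F
open Pool.Agent.DI (io ofC io_inj exists_io io_ofC ofC_io VP MP UP TP ex)

private theorem Gc_third {n t : ℕ} [SqN n t] (f : ℕ) (b : Ideal (OO n t)) :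
    ((3 * f : ℕ) : ℂ) * T3 n t ∈ Lam b := by
  have e : ((3 * f : ℕ) : ℂ) * T3 n t = toC ((f : OO n t) * sD n t) := by
    unfold T3
    rw [toC_mul, toC_nat]
    push_cast
    ring
  rw [e]
  have h5 : toC ((f : OO n t) * sD n t) ∈ Lam (⊤ : Ideal (OO n t)) := lam_top.2 ⟨_, rfl⟩
  exact lam_anti le_top h5

private theorem Gc_kp {n t : ℕ} [SqN n t] (hE10 : S_E10) {f : ℕ} (hf : Fok f) {τ : Gal(Om/ℚ)}
    {a b : Ideal (OO n t)} (hτ : τ ∈ GK n t) (h : Psi τ (3 * f) a) (hb : G30 b) :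
    τ (kp b) = kp (a * b) := by
  unfold kp
  have h1 := (((hE10 n t τ (3 * f) a (three_f hf) (d60 hf) h).2.1 b hb).2.2.2.1 _ (Gc_third f b)).2
  rw [map_div₀, map_one, map_mul, GK_toO hτ, h1]

theorem tGc (hE1 : DS.S_E1) (hE7 : DS.S_E7) (hE10 : S_E10) (hB7 : S_B7) (hB1 : S_B1) (hR1 : S_R1)
    (hD2 : S_D2) (hKf : S_Kf) : S_Gc := by
  intro n t _ f hf
  have h3f : 0 < 3 * f := three_f hf
  have hf0 : 0 < f := f_pos hf
  have h15 : 15 ∣ 3 * f := d15 hf
  obtain ⟨-, -, e3, -, -⟩ := hE1 n t (3 * f) h3f h15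
  have gtop : G30 (⊤ : Ideal (OO n t)) := g30_top
  have hB : ∀ b b' : Ideal (OO n t), FB f b → FB f b' → Ray (3 * f) b b' → kp b = kp b' := by
    intro b b' hb _ hr
    obtain ⟨τ, hg, hτ⟩ := hE7 n t (3 * f) b h3f h15 hb.ne hb.prm
    have h1 := Gc_kp hE10 hf hg hτ gtop
    have h2 := Gc_kp hE10 hf hg (e3 τ b b' hτ hr) gtop
    rw [Ideal.mul_top] at h1 h2
    rw [← h1, h2]
  refine ⟨fun τ hτ a ha b hb => ⟨Gc_kp hE10 hf hτ ha (fb_g30 hf hb), fun b' hb' => ?_⟩, hB, ?_, ?_, ?_⟩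
  · exact ((hE10 n t τ (3 * f) a h3f (d60 hf) ha).2.1 b (fb_g30 hf hb)).2.2.2.2 b' (fb_g30 hf hb')
  · intro τ hτ a ha hr
    have h1 := Gc_kp hE10 hf hτ ha gtop
    rw [Ideal.mul_top] at h1
    rw [h1]
    exact hB a ⊤ (fb_psi ha) (fb_top f) hr
  · intro b hb
    have gb : G30 b := fb_g30 hf hb
    have p2 : ∀ {c : Ideal (OO n t)}, G30 c → PrI c 2 := fun hc => Eb.pri_dvd hc.cop (by norm_num)
    have hfr0 : ∀ c : Ideal (OO n t), G30 c → fr c ≠ 0 := fun c hc => (hB1 n t c hc.ne (p2 hc)).1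
    have hfr : ∀ c c' : Ideal (OO n t), G30 c → G30 c' → io (rO c c') = fr c' / fr c := by
      intro c c' hc hc'
      obtain ⟨-, -, -, r4⟩ := (hR1 n t).1 c hc
      exact (r4 c' hc').1
    have h4 : ∀ α : OO n t, (f : OO n t) ∣ α - 1 → (4 : OO n t) ∣ α - 1 := by
      intro α hd
      refine dvd_trans ?_ hd
      obtain ⟨j, hj⟩ := hf.dvd
      exact ⟨5 * j, by rw [hj]; push_cast; ring⟩
    have hhom : ∀ (α : OO n t) (c : Ideal (OO n t)), α ≠ 0 → (f : OO n t) ∣ α - 1 → G30 c →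
        fr (sp α * c) = toC α * fr c := by
      intro α c h1 h2 hc
      exact ((hB7 n t c hc.ne (p2 hc)).1 α h1 (h4 α h2)).1
    refine ⟨?_, ?_, ?_, ?_, ?_⟩
    · intro τ _ a ha hr
      have h1 := ((hE10 n t τ (3 * f) a h3f (d60 hf) ha).2.1 ⊤ gtop).2.2.2.2 b gb
      have ga : G30 a := fb_g30 hf (fb_psi ha)
      have gab : G30 (a * b) := g30_mul ga gb
      rw [Ideal.mul_top] at h1
      rw [h1]
      apply io_inj
      rw [hfr a (a * b) ga gab, hfr ⊤ b gtop gb]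
      obtain ⟨α, α', n1, n2, d1, d2, he⟩ := ray_norm hr
      have e1 : toC α * fr a = toC α' * fr (⊤ : Ideal (OO n t)) := by
        rw [← hhom α a n1 d1 ga, ← hhom α' ⊤ n2 d2 gtop, he]
      have e2 : toC α * fr (a * b) = toC α' * fr b := by
        rw [← hhom α (a * b) n1 d1 gab, ← hhom α' b n2 d2 gb, ← mul_assoc, he, Ideal.mul_top]
      have c1 : toC α ≠ 0 := fun h => n1 (toC_inj (by rw [h, toC_zero]))
      have c2 : toC α' ≠ 0 := fun h => n2 (toC_inj (by rw [h, toC_zero]))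
      have f1 := hfr0 a ga
      have f2 := hfr0 (⊤ : Ideal (OO n t)) gtop
      rw [div_eq_div_iff f1 f2]
      apply mul_left_cancel₀ (mul_ne_zero c1 c2)
      linear_combination toC α' * fr (⊤ : Ideal (OO n t)) * e2 - toC α' * fr b * e1
    · apply io_inj
      rw [hfr b b gb gb, div_self (hfr0 b gb), map_one]
    · intro a ha Q hQ
      obtain ⟨-, -, -, -, -, -, h7⟩ := hD2 n t Q hQ a (fb_g30 hf ha)
      exact h7 b hb.ne gb.cop
    · intro b' b'' hb' hb''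
      have h1 := hfr b b' gb (fb_g30 hf hb')
      have h2 := hfr0 b gb
      have h3 := hfr b' b'' (fb_g30 hf hb') (fb_g30 hf hb'')
      have h4 := hfr0 b' (fb_g30 hf hb')
      have h5 := hfr b b'' gb (fb_g30 hf hb'')
      apply io_inj
      rw [map_mul, h1, h3, h5]
      field_simp
    · intro α hα hd
      unfold rO
      rw [hhom α b hα hd gb, mul_div_assoc, div_self (hfr0 b gb), mul_one, ← io_toO, ofC_io]
  · intro σ hσ N hN x hx
    obtain ⟨hK, -⟩ := hKf n t f hf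
    obtain ⟨-, -, -, hiff⟩ := hK N hN
    have hN0 : 0 < N := by
      rcases hN with rfl | rfl
      · exact hf0
      · exact h3f
    refine ⟨fun b b' hb hb' hr => ?_, fun τ hτ a ha b hb => ⟨?_, ?_⟩⟩
    · exact (hiff (σ b) (hσ.mem b hb) (σ b') (hσ.mem b' hb') b b' (hσ.psi b hb)
        (hσ.psi b' hb')).2 hr x hx
    · have hab : FB f (a * b) := fb_mul (fb_psi ha) hb
      exact (hiff (τ * σ b) (mul_mem hτ (hσ.mem b hb)) (σ (a * b)) (hσ.mem _ hab) (a * b) (a * b)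
        (Eb.psi_mul ha (hσ.psi b hb))
        (hσ.psi _ hab)).2 (ray_refl hN0 _) x hx
    · have hab : FB f (a * b) := fb_mul (fb_psi ha) hb
      have h1 : Psi (σ b * τ) (3 * f) (a * b) := by
        rw [mul_comm a b]
        exact Eb.psi_mul (hσ.psi b hb) ha
      exact (hiff (σ b * τ) (mul_mem (hσ.mem b hb) hτ) (σ (a * b)) (hσ.mem _ hab) (a * b) (a * b)
        h1 (hσ.psi _ hab)).2 (ray_refl hN0 _) x hx

end Pool.Agent.DM.DU.F
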