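import Pool.Agent.Lib.DU.F.SpecA

/-!
# Theorem DU, part F, module KP: the field `K` at the primes above `3` (helper79)

Adapted from `DM/F/KP.lean`, `DR/F/KP.lean`.
-/

set_option autoImplicit false

open scoped Pointwise

noncomputable section

namespace Pool.Agent.DM.DU.F

open Pool.Agent.MuZ Pool.Agent.FW NumberField IsDedekindDomain Pool.Agent.DN Pool.Agent.DN.F
open Pool.Agent.DI (io ofC io_inj exists_io io_ofC ofC_io VP MP UP TP ex)

variable {n t : ℕ} {P : Ideal ZZ}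

/-- elements of `KQ` are `a + b w` -/
private theorem KP_form [SqN n t] (x : Om) (hx : x ∈ KQ n t) :
    ∃ a b : ℚ, x = (a : Om) + (b : Om) * wO n t := by
  have hint : IsIntegral ℚ (wO n t) := (Algebra.IsAlgebraic.isAlgebraic (wO n t)).isIntegral
  have h1 : x ∈ Algebra.adjoin ℚ {wO n t} := by
    rw [← IntermediateField.adjoin_simple_toSubalgebra_of_isAlgebraic hint.isAlgebraic]
    exact hx
  clear hx
  induction h1 using Algebra.adjoin_induction with
  | mem y hy =>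
      rw [Set.mem_singleton_iff] at hy
      exact ⟨0, 1, by rw [hy]; simp⟩
  | algebraMap r => exact ⟨r, 0, by simp⟩
  | add y z hy hz ihy ihz =>
      obtain ⟨a, b, h⟩ := ihy
      obtain ⟨a', b', h'⟩ := ihz
      refine ⟨a + a', b + b', ?_⟩
      rw [h, h']
      push_cast
      ring
  | mul y z hy hz ihy ihz =>
      obtain ⟨a, b, h⟩ := ihy
      obtain ⟨a', b', h'⟩ := ihz
      refine ⟨a * a' - n * (b * b'), a * b' + b * a' + t * (b * b'), ?_⟩
      rw [h, h']
      push_cast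
      linear_combination ((b : Om) * b') * wO_sq (n := n) (t := t)

private theorem KP_den [SqN n t] (x : Om) (hx : x ∈ KQ n t) :
    ∃ (N : ℕ) (v : OO n t), 0 < N ∧ x * (N : Om) = toO v := by
  obtain ⟨a, b, h⟩ := KP_form x hx
  refine ⟨a.den * b.den, ⟨a.num * b.den, b.num * a.den⟩, Nat.mul_pos a.pos b.pos, ?_⟩
  have ha : (a : Om) * (a.den : Om) = (a.num : Om) := by
    have h1 := Rat.mul_den_eq_num a
    exact_mod_cast congrArg (fun r : ℚ => (r : Om)) h1
  have hb : (b : Om) * (b.den : Om) = (b.num : Om) := by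
    have h1 := Rat.mul_den_eq_num b
    exact_mod_cast congrArg (fun r : ℚ => (r : Om)) h1
  rw [toO_apply, h]
  push_cast
  linear_combination (b.den : Om) * ha + (a.den : Om) * wO n t * hb

theorem KP_toO3 [SqN n t] : toO (3 : OO n t) = 3 := by
  have h := toO_nat (n := n) (t := t) 3
  exact_mod_cast h

private theorem KP_odd [P.IsPrime] (h2 : MP P 3) {m : ℤ} (h : ¬ (3 : ℤ) ∣ m) :
    ¬ MP P (m : Om) := by
  intro hm
  have h1 : IsCoprime (3 : ℤ) m := (Prime.coprime_iff_not_dvd Int.prime_three).2 h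
  obtain ⟨a, b, hab⟩ := h1
  have e : (1 : Om) = (a : Om) * 3 + (b : Om) * m := by
    exact_mod_cast congrArg (Int.cast : ℤ → Om) hab.symm
  apply DI.MP.one_not (P := P)
  rw [e]
  exact DI.MP.add (DI.MP.mul_left (DI.VP.int a) h2) (DI.MP.mul_left (DI.VP.int b) hm)

theorem sD_mem : sD n t ∈ pp n t := Ideal.subset_span (by simp)

theorem three_mem : (3 : OO n t) ∈ pp n t := Ideal.subset_span (by simp)

/-- The elements of `pp` are in `P`. -/
private theorem KP_mp (hO4 : S_O4) [Ram3 n t] (hP : Ab3 P) {v : OO n t} (h : v ∈ pp n t) :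
    MP P (toO v) := by
  have hPp : P.IsPrime := hP.1.1
  obtain ⟨-, -, h4, -⟩ := hO4 n t
  have h5 : v * v ∈ pp n t * pp n t := Ideal.mul_mem_mul h h
  rw [h4, Ideal.mem_span_singleton] at h5
  obtain ⟨u, hu⟩ := h5
  refine DI.MP.of_pow (n := 2) ?_
  rw [pow_two, ← toO_mul, hu, toO_mul, KP_toO3]
  exact DI.MP.mul_right hP.2 (toO_VP _)

private theorem KP_up [SqN n t] (hP : Ab3 P) {v : OO n t} (h : ¬ (3 : ℤ) ∣ Nm v) :
    UP P (toO v) := by
  have hPp : P.IsPrime := hP.1.1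
  refine ⟨toO_VP v, fun h1 => ?_⟩
  apply KP_odd hP.2 h
  rw [← toO_int (n := n) (t := t), ← mul_cjO, toO_mul]
  exact DI.MP.mul_right h1 (toO_VP _)

private theorem KP_cop (hO4 : S_O4) [Ram3 n t] (v : OO n t) : Cop v 3 ↔ v ∉ pp n t := by
  obtain ⟨-, -, -, -, -, -, -, -, h, -⟩ := hO4 n t
  exact h v

private theorem KP_nm (hO4 : S_O4) [Ram3 n t] (v : OO n t) : Cop v 3 ↔ ¬ (3 : ℤ) ∣ Nm v := by
  obtain ⟨-, -, -, -, -, -, -, -, -, h, -⟩ := hO4 n t
  exact h v

private theorem KP_iff (hO4 : S_O4) [Ram3 n t] (hP : Ab3 P) (v : OO n t) :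
    MP P (toO v) ↔ v ∈ pp n t := by
  constructor
  · intro h
    by_contra hn
    exact (KP_up hP ((KP_nm hO4 v).1 ((KP_cop hO4 v).2 hn))).2 h
  · exact KP_mp hO4 hP

/-- `x / 3 ^ (j + 1)` in `V_P` implies `x` in `M_P` -/
private theorem KP_mp2 [P.IsPrime] (h2 : MP P 3) {x : Om} {j : ℕ} (h : VP P (x / 3 ^ (j + 1))) :
    MP P x := by
  have e : x = 3 * (3 ^ j * (x / 3 ^ (j + 1))) := by
    field_simp
    ring
  rw [e]
  exact DI.MP.mul_right h2 ((h2.vp.pow j).mul h)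

/-- `toO v / 3` in `V_P` implies `3 ∣ v`. -/
private theorem KP_half (hO4 : S_O4) [Ram3 n t] (hP : Ab3 P) {v : OO n t}
    (h : VP P (toO v / 3)) : (3 : OO n t) ∣ v := by
  have hPp : P.IsPrime := hP.1.1
  obtain ⟨-, -, hpp, -, hsq, -, -, ⟨D', hD', hD3⟩, -⟩ := hO4 n t
  have h1 : v ∈ pp n t := by
    refine (KP_iff hO4 hP v).1 (KP_mp2 (j := 0) hP.2 ?_)
    rw [zero_add, pow_one]
    exact h
  obtain ⟨x, y, hxy⟩ := Ideal.mem_span_pair.1 h1
  -- `v = x 3 + y sD`
  have h30 : (3 : Om) ≠ 0 := three_ne_zero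
  have h2 : VP P (toO y * toO (sD n t) / 3) := by
    have e : toO y * toO (sD n t) / 3 = toO v / 3 - toO x := by
      rw [← hxy, toO_add, toO_mul, toO_mul, KP_toO3]
      field_simp
      ring
    rw [e]
    exact h.sub (toO_VP _)
  have hD'P : UP P (toO ((D' : ℕ) : OO n t)) := by
    rw [toO_nat]
    refine nat_UP hP ?_
    intro h3
    have := Nat.dvd_gcd h3 (dvd_refl 3)
    rw [hD3] at this
    norm_num at this
  have h3 : toO (sD n t) * toO (sD n t) = -(3 * toO ((D' : ℕ) : OO n t)) := by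
    rw [← toO_mul, hsq, hD', toO_neg]
    push_cast
    rw [toO_mul, KP_toO3]
  have h4 : MP P (toO y) := by
    have h5 : toO y * toO ((D' : ℕ) : OO n t) =
        -(toO y * toO (sD n t) / 3 * toO (sD n t)) := by
      have e : toO y * toO (sD n t) / 3 * toO (sD n t) =
          toO y * (toO (sD n t) * toO (sD n t)) / 3 := by ring
      rw [e, h3]
      field_simp
    have h6 : MP P (toO y * toO ((D' : ℕ) : OO n t)) := by
      rw [h5]
      exact (DI.MP.mul_left h2 (KP_mp hO4 hP sD_mem)).neg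
    rcases DI.MP.mul_cases (toO_VP _) (toO_VP _) h6 with h7 | h7
    · exact h7
    · exact absurd h7 hD'P.2
  have h5 : y ∈ pp n t := (KP_iff hO4 hP y).1 h4
  have h6 : y * sD n t ∈ pp n t * pp n t := Ideal.mul_mem_mul h5 sD_mem
  rw [hpp, Ideal.mem_span_singleton] at h6
  rw [← hxy]
  exact dvd_add (Dvd.intro_left _ rfl) h6

private theorem KP_two (hO4 : S_O4) [Ram3 n t] (hP : Ab3 P) (j : ℕ) : ∀ v : OO n t,
    VP P (toO v / 3 ^ j) → ∃ s : OO n t, v = 3 ^ j * s := by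
  have hPp : P.IsPrime := hP.1.1
  induction j with
  | zero =>
    intro v _
    exact ⟨v, by rw [pow_zero, one_mul]⟩
  | succ j ih =>
    intro v hv
    have h0 : VP P (toO v / 3) := by
      have e : toO v / 3 = 3 ^ j * (toO v / 3 ^ (j + 1)) := by
        rw [pow_succ]
        field_simp
      rw [e]
      exact (hP.2.vp.pow j).mul hv
    obtain ⟨u, rfl⟩ := KP_half hO4 hP h0
    have e : toO u / 3 ^ j = toO (3 * u) / 3 ^ (j + 1) := by
      rw [toO_mul, KP_toO3, pow_succ]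
      field_simp
    obtain ⟨s, rfl⟩ := ih u (by rwa [e])
    exact ⟨s, by ring⟩

private theorem KP_nx (hO4 : S_O4) [Ram3 n t] (hP : Ab3 P) (x : Om) (hx : x ∈ KQ n t)
    (hv : VP P x) : ∃ N : ℕ, ¬ 3 ∣ N ∧ ∃ v : OO n t, (N : Om) * x = toO v := by
  have hPp : P.IsPrime := hP.1.1
  obtain ⟨N, v, hN, h⟩ := KP_den x hx
  obtain ⟨j, m, hm, hj⟩ := Nat.exists_eq_pow_mul_and_not_dvd hN.ne' 3 (by norm_num)
  have h2 : (3 : Om) ^ j ≠ 0 := pow_ne_zero j three_ne_zero
  have h3 : (m : Om) * x = toO v / 3 ^ j := by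
    rw [eq_div_iff h2, ← h, hj]
    push_cast
    ring
  obtain ⟨s, hs⟩ := KP_two hO4 hP j v (h3 ▸ (DI.VP.nat m).mul hv)
  refine ⟨m, hm, s, ?_⟩
  · rw [h3, hs, toO_mul, toO_pow, KP_toO3, mul_div_cancel_left₀ _ h2]

theorem tKP (hO4 : S_O4) : S_KP := by
  intro n t _ P hP
  have hPp : P.IsPrime := hP.1.1
  refine ⟨?_, KP_iff hO4 hP, KP_nx hO4 hP, fun v hv => KP_up hP ((KP_nm hO4 v).1 hv), ?_⟩
  · intro x hx hv
    obtain ⟨N, hN, v, h⟩ := KP_nx hO4 hP x hx hv
    -- `a N + b 3 = 1`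
    have h1 : IsCoprime (N : ℤ) 3 := by
      have h2 : Nat.Coprime N 3 := ((Nat.Prime.coprime_iff_not_dvd Nat.prime_three).2 hN).symm
      exact_mod_cast Nat.isCoprime_iff_coprime.2 h2
    obtain ⟨a, b, hab⟩ := h1
    have hab' : (a : Om) * N + b * 3 = 1 := by exact_mod_cast congrArg (Int.cast : ℤ → Om) hab
    refine ⟨(a : OO n t) * v, ?_⟩
    have e : x - toO ((a : OO n t) * v) = ((b : Om) * x) * 3 := by
      rw [toO_mul, toO_int, ← h]
      linear_combination (-x) * hab'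
    rw [e]
    exact DI.MP.mul_left ((DI.VP.int b).mul hv) hP.2
  · intro v
    obtain ⟨-, -, -, -, -, -, -, -, -, -, -, h, -⟩ := hO4 n t
    have h1 := KP_mp hO4 hP (h v)
    rw [toO_sub, toO_int] at h1
    exact h1

end Pool.Agent.DM.DU.F
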