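import Pool.Agent.Lib.DU.F.SpecA

/-!
# Theorem DU, part F, module Kap: the numbers `kpp` (helper79)
-/

set_option autoImplicit false

open scoped Pointwise

noncomputable section

namespace Pool.Agent.DM.DU.F

open Pool.Agent.MuZ Pool.Agent.FW NumberField IsDedekindDomain Pool.Agent.DN Pool.Agent.DN.F
open Pool.Agent.DI (io ofC io_inj exists_io io_ofC ofC_io VP MP UP TP ex)

theorem mp_powsub {P : Ideal ZZ} (hP : P.IsPrime) {x y : Om} (hx : VP P x) (hy : VP P y)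
    (h : MP P (x - y)) (k : ℕ) : MP P (x ^ k - y ^ k) := by
  induction k with
  | zero =>
    rw [pow_zero, pow_zero, sub_self]
    exact DI.MP.zero
  | succ k ih =>
    have e : x ^ (k + 1) - y ^ (k + 1) = (x ^ k - y ^ k) * x + y ^ k * (x - y) := by ring
    rw [e]
    exact DI.MP.add (DI.MP.mul_right ih hx) (DI.MP.mul_left (DI.VP.pow hy k) h)

theorem chi_up {n t : ℕ} {f : ℕ} {χ : Ideal (OO n t) → Om} (hχ : IsChi (3 * f) χ)
    {P : Ideal ZZ} (hP : P.IsPrime) {b : Ideal (OO n t)} (hb : FB f b) : UP P (χ b) := by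
  obtain ⟨j, hj, h⟩ := hχ.cop
  have hj0 : 0 < j := by
    rcases Nat.eq_zero_or_pos j with rfl | h1
    · norm_num at hj
    · exact h1
  apply DI.UP.of_pow hj0
  rw [h b hb.ne hb.prm]
  exact DI.UP.one

/-- `zs α = ± 1` for `α` prime to `3`. -/
theorem zs_pm (hO4 : S_O4) {n t : ℕ} [Ram3 n t] {α : OO n t} (h : Cop α 3) :
    zs α = 1 ∨ zs α = -1 := by
  obtain ⟨-, -, -, -, -, -, -, -, h9, -, -, -, h13, h14, -⟩ := hO4 n t
  rcases h14 α with h1 | h1 | h1
  · exact Or.inl h1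
  · exact Or.inr h1
  · exact absurd ((h13 α).1 h1) ((h9 α).1 h)

theorem f4_dvd {n t f : ℕ} (hf : Fok f) {α : OO n t} (hd : (f : OO n t) ∣ α - 1) :
    (4 : OO n t) ∣ α - 1 := by
  refine dvd_trans ?_ hd
  obtain ⟨j, hj⟩ := hf.dvd
  exact ⟨5 * j, by rw [hj]; push_cast; ring⟩

theorem tKap (hO4 : S_O4) (hKp : S_Kp) (hKP : S_KP) (hOd : S_Od) (hGc : S_Gc) : S_Kap := by
  intro n t _ f k hf χ hχ P hP hk hTy
  have hPr : P.IsPrime := hP.1.1
  obtain ⟨-, -, -, hr, -⟩ := hGc n t f hf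
  have htop : FB f (⊤ : Ideal (OO n t)) := fb_top f
  have hr1 : ∀ b : Ideal (OO n t), FB f b → UP P (rO ⊤ b) := by
    intro b hb
    have h := (hr b hb).2.2.1 ⊤ htop P hP
    rwa [Ideal.mul_top] at h
  have hX : ∀ b : Ideal (OO n t), FB f b → UP P (kp b / w4) := fun b hb =>
    (hKp.2 n t P hP b (fb_g30 hf hb)).1
  have h1 : ∀ b : Ideal (OO n t), FB f b → UP P (χ b) ∧ UP P (rO ⊤ b) ∧ UP P (kp b / w4) ∧
      UP P (kpp k χ b) := by
    intro b hb
    refine ⟨chi_up hχ hPr hb, hr1 b hb, hX b hb, ?_⟩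
    unfold kpp
    exact DI.UP.mul (DI.UP.mul (chi_up hχ hPr hb) (hr1 b hb)) (DI.UP.inv (DI.UP.pow (hX b hb) k))
  refine ⟨h1, ?_⟩
  have key : ∀ (b : Ideal (OO n t)) (α : OO n t), FB f b → α ≠ 0 → Cop α 3 → (f : OO n t) ∣ α - 1 →
      MP P (kpp k χ (sp α * b) - kpp k χ b) := by
    intro b α hb h0 hα2 hα
    have hc3 : Cop α (3 * f) := cop_of hα hα2
    have ha : FB f (sp α) := fb_sp hf hc3
    have hab : FB f (sp α * b) := fb_mul ha hb
    have h30 : Cop α 30 := cop_dvd hc3 (d30 hf)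
    have hrO : rO ⊤ (sp α * b) = rO ⊤ b * toO α := by
      rw [← (hr ⊤ htop).2.2.2.1 b (sp α * b) hb hab, (hr b hb).2.2.2.2 α h0 hα]
    have hkp : kp (sp α * b) = zs α * kp b :=
      (hKp.1 n t b (fb_g30 hf hb) α (f4_dvd hf hα) h30).2
    have hz : ((zs α : ℤ) : Om) * ((zs α : ℤ) : Om) = 1 := by
      rcases zs_pm hO4 hα2 with h | h
      · rw [h]
        norm_num
      · rw [h]
        norm_num
    have hz0 : ((zs α : ℤ) : Om) ≠ 0 := by
      intro h
      rw [h, zero_mul] at hz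
      exact zero_ne_one hz
    have h4 := hTy α hα hα2
    have h5 : MP P (toO α - zs α) := (hKP n t P hP).2.2.2.2 α
    have hvz : VP P ((zs α : ℤ) : Om) := DI.VP.int _
    have h6 : MP P (toO α * zs α - 1) := by
      have e : toO α * zs α - 1 = (toO α - zs α) * zs α := by
        linear_combination hz
      rw [e]
      exact DI.MP.mul_right h5 hvz
    have h7 := mp_powsub hPr ((toO_VP (P := P) α).mul hvz) DI.VP.one h6 k
    rw [one_pow] at h7
    have e : kpp k χ (sp α * b) - kpp k χ b =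
        ((χ (sp α) - toO α ^ (k - 1)) * (toO α * (zs α : Om) ^ k) +
          ((toO α * zs α) ^ k - 1)) * kpp k χ b := by
      have e3 : toO α ^ (k - 1) * toO α = toO α ^ k := by
        rw [← pow_succ]
        congr 1
        rcases hk with rfl | rfl <;> norm_num
      have e4 : (((zs α : ℤ) : Om) ^ k)⁻¹ = ((zs α : ℤ) : Om) ^ k := by
        exact inv_eq_of_mul_eq_one_left (by rw [← mul_pow, hz, one_pow])
      have e5 : ((kp (sp α * b) / w4) ^ k)⁻¹ = ((zs α : ℤ) : Om) ^ k * ((kp b / w4) ^ k)⁻¹ := by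
        rw [hkp, mul_div_assoc, mul_pow, mul_inv, e4]
      unfold kpp
      rw [e5, hrO, hχ.mul, mul_pow, sub_mul, ← mul_assoc (toO α ^ (k - 1)), e3]
      ring
    rw [e]
    refine DI.MP.mul_right (DI.MP.add (DI.MP.mul_right h4 ?_) h7) (h1 b hb).2.2.2.1
    exact (toO_VP α).mul (hvz.pow k)
  intro b b' hb hb' hR
  obtain ⟨α, α', g1, g2, g3, g4, g5, g6, g7⟩ := hOd n t f hf b b' hb hb' hR
  have k1 := key b α hb g1 g3 g5
  have k2 := key b' α' hb' g2 g4 g6
  rw [g7] at k1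
  have e : kpp k χ b - kpp k χ b' = (kpp k χ (sp α' * b') - kpp k χ b') -
      (kpp k χ (sp α' * b') - kpp k χ b) := by ring
  rw [e]
  exact DI.MP.sub k2 k1

end Pool.Agent.DM.DU.F
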