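import Pool.Agent.Lib.DU.F.KP
import Pool.Agent.Lib.DI.B.A12
import Pool.Agent.Lib.MuZ.Inst

/-!
# Theorem DU, part F, module `Kf`: Galois theory of the ray class fields modulo `f` and modulo `3 f` (as fields of the level
`3 f`)
-/

set_option autoImplicit false

open scoped Pointwise Topology MatrixGroups
open Filter

noncomputable section

namespace Pool.Agent.DM.DU.F

open Pool.Agent.MuZ Pool.Agent.FW NumberField IsDedekindDomain Pool.Agent.DN Pool.Agent.DN.F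
open Pool.Agent.DI (io ofC io_inj exists_io io_ofC ofC_io VP MP UP TP ex)

/-- `FixI` depends only on the ideals prime to the level. -/
private theorem Kf_eq {n t : ℕ} (N L : ℕ) :
    FixI L (fun a : Ideal (OO n t) => Ray N a ⊤) =
      FixI L (fun a : Ideal (OO n t) => Ray N a ⊤ ∧ a ≠ ⊥ ∧ PrI a L) := by
  ext x
  constructor
  · intro hx τ hτ a ha h
    exact hx τ hτ a ha h.1
  · intro hx τ hτ a ha h
    exact hx τ hτ a ha ⟨h, ha.ne, Eb.psi_pri ha⟩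

/-- Galois theory of one ray class field. -/
private theorem Kf_one (hE1 : DS.S_E1) (hE8 : DS.S_E8) {n t : ℕ} [Ram3 n t] {N L : ℕ} (hL : 0 < L)
    (h15 : 15 ∣ L) (hNL : N ∣ L) :
    FiniteDimensional ℚ (FixI L (fun a : Ideal (OO n t) => Ray N a ⊤)) ∧
      wO n t ∈ FixI L (fun a : Ideal (OO n t) => Ray N a ⊤) ∧
      KQ n t ≤ FixI L (fun a : Ideal (OO n t) => Ray N a ⊤) ∧
      (∀ τ ∈ GK n t, ∀ x ∈ FixI L (fun a : Ideal (OO n t) => Ray N a ⊤),
        τ x ∈ FixI L (fun a : Ideal (OO n t) => Ray N a ⊤)) ∧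
      ∀ τ ∈ GK n t, ∀ τ' ∈ GK n t, ∀ a a' : Ideal (OO n t), Psi τ L a → Psi τ' L a' →
        ((∀ x ∈ FixI L (fun a : Ideal (OO n t) => Ray N a ⊤), τ x = τ' x) ↔ Ray N a a') := by
  have hN : 0 < N := Nat.pos_of_dvd_of_pos hNL hL
  obtain ⟨H, hH⟩ : ∃ H : Ideal (OO n t) → Prop, H = fun a => Ray N a ⊤ ∧ a ≠ ⊥ ∧ PrI a L := ⟨_, rfl⟩
  have eK : FixI L (fun a : Ideal (OO n t) => Ray N a ⊤) = FixI L H := by
    rw [hH]
    exact Kf_eq N L
  have hHr : ∀ a a' : Ideal (OO n t), H a → Ray L a a' → H a' := by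
    intro a a' h h'
    rw [hH] at h ⊢
    obtain ⟨h1, h2, h3⟩ := h
    have h4 := pn_ray hL h' (⟨h2, h3⟩ : PN L a)
    exact ⟨ray_trans hN (ray_symm hN (ray_dvd hL hNL h')) h1, h4.ne, h4.cop⟩
  have hHt : H ⊤ := by
    rw [hH]
    exact ⟨ray_refl hN ⊤, Eb.ne_top, Eb.pri_top _⟩
  have hHc : ∀ a, H a → a ≠ ⊥ ∧ PrI a L := by
    intro a h
    rw [hH] at h
    exact h.2
  have hHm : ∀ a a', H a → H a' → H (a * a') := by
    intro a a' h h'
    rw [hH] at h h' ⊢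
    have h1 := ray_mul hN h.1 h'.1
    rw [Ideal.mul_top] at h1
    exact ⟨h1, Eb.ne_mul h.2.1 h'.2.1, Eb.pri_mul h.2.2 h'.2.2⟩
  obtain ⟨hfd, hle, hfix⟩ := hE8 n t L H hL h15 hHt hHc hHr hHm
  rw [eK]
  obtain ⟨hE, hU, -, -, -⟩ := hE1 n t L hL h15
  refine ⟨hfd, hle (IntermediateField.mem_adjoin_simple_self ℚ (wO n t)), hle, ?_, ?_⟩
  · intro τ hτ x hx σ hσ a ha hHa
    obtain ⟨u, hu⟩ := hE τ hτ
    obtain ⟨u', hu'⟩ := hE τ⁻¹ (inv_mem hτ)
    have e1 := Eb.psi_mul hu' hu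
    rw [inv_mul_cancel] at e1
    have e2 : Ray L (u' * u) ⊤ := hU 1 _ _ e1 (Eb.psi_top L)
    have e3 : Ray L ((u' * u) * a) (⊤ * a) := ray_mul hL e2 (ray_refl hL a)
    rw [Ideal.top_mul] at e3
    have e4 : Ray L a (u' * (a * u)) := by
      have e : u' * (a * u) = u' * u * a := by ring
      rw [e]
      exact ray_symm hL e3
    have h4 : H (u' * (a * u)) := hHr _ _ hHa e4
    have h5 := hx (τ⁻¹ * (σ * τ)) (mul_mem (inv_mem hτ) (mul_mem hσ hτ)) _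
      (Eb.psi_mul hu' (Eb.psi_mul ha hu)) h4
    have h6 := congrArg τ h5
    rwa [← AlgEquiv.mul_apply, mul_inv_cancel_left, AlgEquiv.mul_apply] at h6
  intro τ hτ τ' hτ' a a' ha ha'
  have hρ : τ⁻¹ * τ' ∈ GK n t := mul_mem (inv_mem hτ) hτ'
  obtain ⟨s, hs⟩ := hE _ hρ
  have h2 := Eb.psi_mul ha hs
  rw [mul_inv_cancel_left] at h2
  have h3 : Ray L (a * s) a' := hU τ' _ _ h2 ha'
  have h3' : Ray N (a * s) a' := ray_dvd hL hNL h3
  have h4 : (∀ x ∈ FixI L H, τ x = τ' x) ↔ Ray N s ⊤ := by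
    have h4' : (∀ x ∈ FixI L H, (τ⁻¹ * τ') x = x) ↔ Ray N s ⊤ := by
      rw [hfix _ hρ s hs, hH]
      exact ⟨fun h => h.1, fun h => ⟨h, hs.ne, Eb.psi_pri hs⟩⟩
    rw [← h4']
    constructor
    · intro h x hx
      have h5 := h x hx
      rw [AlgEquiv.mul_apply, ← h5, ← AlgEquiv.mul_apply, inv_mul_cancel]
      rfl
    · intro h x hx
      have h5 := h x hx
      have h6 : τ' x = (τ * (τ⁻¹ * τ')) x := by rw [mul_inv_cancel_left]
      rw [h6, AlgEquiv.mul_apply, h5]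
  rw [h4]
  constructor
  · intro h
    have h5 : Ray N (a * s) (a * ⊤) := ray_mul hN (ray_refl hN a) h
    rw [Ideal.mul_top] at h5
    exact ray_trans hN (ray_symm hN h5) h3'
  · intro h
    have h5 : Ray N (a * s) (a * ⊤) := by
      rw [Ideal.mul_top]
      exact ray_trans hN h3' (ray_symm hN h)
    exact ray_cancel' hN (pn_dvd (pn_psi ha) hNL) h5

/-- The inertia group at `P` is not contained in `GK`. -/
theorem Kf_in (hO4 : S_O4) (hKP : S_KP) (hIne : FW.S_Ine) {n t : ℕ} [Ram3 n t] {c : Gal(Om/ℚ)}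
    (hc : IsCj c) {P : Ideal ZZ} (hP : Ab3 P) : ∃ τ ∈ P.inertia Gal(Om/ℚ), τ ∉ GK n t := by
  have hPp : P.IsPrime := hP.1.1
  have hcw : c (wO n t) = t - wO n t := cj_wO hc
  obtain ⟨-, -, -, -, -, -, -, -, -, -, -, h12, -, -, -, -, h17, -⟩ := hO4 n t
  obtain ⟨-, k2, k3, -⟩ := hKP n t P hP
  have hfd : FiniteDimensional ℚ (KQ n t) := by
    unfold KQ
    exact IntermediateField.adjoin.finiteDimensional
      (Algebra.IsAlgebraic.isAlgebraic (wO n t)).isIntegral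
  have hst : ∀ x ∈ KQ n t, c x ∈ KQ n t := by
    intro x hx
    have h1 : (KQ n t).map (c : Om →ₐ[ℚ] Om) ≤ KQ n t := by
      unfold KQ
      rw [IntermediateField.adjoin_map, IntermediateField.adjoin_le_iff]
      rintro _ ⟨y, hy, rfl⟩
      rw [Set.mem_singleton_iff] at hy
      rw [hy]
      change c (wO n t) ∈ _
      rw [hcw]
      exact sub_mem (natCast_mem _ t) (IntermediateField.mem_adjoin_simple_self ℚ (wO n t))
    exact h1 ⟨x, hx, rfl⟩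
  obtain ⟨s, hs, -, hsx⟩ := hIne ⊥ (KQ n t) hfd bot_le P hPp hP.1.2 c (by
    rw [IntermediateField.fixingSubgroup_bot]
    exact Subgroup.mem_top c) hst (by
    intro y hy
    obtain ⟨N, hN, v, hv⟩ := k3 (y : Om) hy (DI.VP.integral y.2)
    have h1 : (N : Om) * (c (y : Om) - (y : Om)) = -toO (v - cjO v) := by
      have h2 := congrArg c hv
      rw [map_mul, map_natCast, cj_toO hc] at h2
      rw [toO_sub, mul_sub, hv, h2]
      ring
    have h2 : MP P ((N : Om) * (c (y : Om) - (y : Om))) := by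
      rw [h1]
      refine DI.MP.neg ((k2 _).2 ?_)
      have e1 := h12 v
      have e2 := h12 (cjO v)
      rw [h17 v] at e2
      have e : v - cjO v = (v - (zs v : OO n t)) - (cjO v - (zs v : OO n t)) := by ring
      rw [e]
      exact sub_mem e1 e2
    have h3 : UP P ((N : ℕ) : Om) := nat_UP hP hN
    have h5 := DI.MP.mul_left h3.inv.1 h2
    rw [inv_mul_cancel_left₀ h3.ne_zero] at h5
    exact (DI.MP.coe_iff (c • y - y)).1 h5)
  refine ⟨s, hs, fun h => ?_⟩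
  have h1 := hsx (wO n t) (IntermediateField.mem_adjoin_simple_self ℚ (wO n t))
  rw [mem_GK_iff.1 h, hcw] at h1
  have h4 : sD n t ≠ 0 := by
    intro h5
    have h6 := congrArg QuadraticAlgebra.im h5
    rw [QuadraticAlgebra.im_zero] at h6
    have h7 : (2 : ℤ) = 0 := h6
    norm_num at h7
  refine toO_ne h4 ?_
  rw [toO_apply]
  change ((-(t : ℤ) : ℤ) : Om) + ((2 : ℤ) : Om) * wO n t = 0
  push_cast
  linear_combination h1

theorem tKf (hO4 : S_O4) (hKP : S_KP) (hE1 : DS.S_E1) (hE4a : S_E4a) (hE7 : DS.S_E7)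
    (hE8 : DS.S_E8) (hCj : DS.S_Cj) (hIne : FW.S_Ine) : S_Kf := by
  intro n t _ f hfo
  have hf : 0 < f := hfo.pos
  have h3f : 0 < 3 * f := three_f hfo
  have h15 : 15 ∣ 3 * f := d15 hfo
  have hd1 : f ∣ 3 * f := Dvd.intro_left _ rfl
  have k1 := Kf_one hE1 hE8 (n := n) (t := t) (N := f) h3f h15 hd1
  have k3 := Kf_one hE1 hE8 (n := n) (t := t) (N := 3 * f) h3f h15 dvd_rfl
  have hfd : FiniteDimensional ℚ (Kf n t f f) := k1.1
  have hle : KQ n t ≤ Kf n t f f := k1.2.2.1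
  have hnor : ∀ τ : Gal(Om/ℚ), ∀ x ∈ Kf n t f f, τ x ∈ Kf n t f f := by
    obtain ⟨c, -, hc⟩ := hCj
    intro τ x hx
    unfold Kf at hx ⊢
    rw [Kf_eq] at hx ⊢
    refine (hc n t).2.2 (3 * f) _ h3f h15 ?_ ?_ τ x hx
    · intro a a' h h'
      have h4 := pn_ray h3f h' (⟨h.2.1, h.2.2⟩ : PN (3 * f) a)
      exact ⟨ray_trans hf (ray_symm hf (ray_dvd h3f hd1 h')) h.1, h4.ne, h4.cop⟩
    · intro a h
      have h1 := ray_cj h.1
      rw [cjI_top] at h1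
      have h2 := pn_cj (⟨h.2.1, h.2.2⟩ : PN (3 * f) a)
      exact ⟨h1, h2.ne, h2.cop⟩
  have hinr : ∀ P : Ideal ZZ, Ab3 P → ∀ τ ∈ GK n t, τ ∈ P.inertia Gal(Om/ℚ) →
      ∀ x ∈ Kf n t f f, τ x = x := by
    intro P hP τ hG hτ x hx
    obtain ⟨h4, -⟩ := hE4a n t P hP τ hτ hG
    obtain ⟨a, ha⟩ := (hE1 n t (3 * f) h3f h15).1 τ hG
    exact hx τ hG a ha (h4 (3 * f) f a h3f h15 hd1 hfo.cop ha)
  obtain ⟨c0, hc0⟩ : ∃ c : Gal(Om/ℚ), IsCj c := by
    obtain ⟨c, hc⟩ := Pool.Agent.DI.tA1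
    exact ⟨c, hc⟩
  refine ⟨?_, ?_, ?_, ?_, hinr, ?_, ⟨c0, hc0⟩, ?_, fun P hP => Kf_in hO4 hKP hIne hc0 hP⟩
  · rintro N (rfl | rfl)
    · exact ⟨k1.1, k1.2.1, k1.2.2.2⟩
    · exact ⟨k3.1, k3.2.1, k3.2.2.2⟩
  · -- the inclusion
    intro x hx τ hτ a ha hr
    exact hx τ hτ a ha (ray_dvd h3f hd1 hr)
  · -- representatives
    choose! σ hσ using fun (b : Ideal (OO n t)) (hb : FB f b) => hE7 n t (3 * f) b h3f h15 hb.ne hb.prm
    exact ⟨σ, fun b hb => (hσ b hb).1, fun b hb => (hσ b hb).2⟩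
  · -- the fixed field
    intro x hx
    have h2 : x ∈ IntermediateField.fixedField (KQ n t).fixingSubgroup := by
      rintro ⟨τ, hτ⟩
      exact hx τ hτ
    rwa [InfiniteGalois.fixedField_fixingSubgroup] at h2
  · -- reduction is injective
    intro P hP τ hτ τ' hτ' h x hx
    have hP' := ab3_smul τ'⁻¹ hP
    have hp : P.IsPrime := hP.1.1
    have hp' : (τ'⁻¹ • P).IsPrime := hP'.1.1
    have hρ : τ'⁻¹ * τ ∈ GK n t := mul_mem (inv_mem hτ') hτ
    obtain ⟨s, hs, hsK, hsx⟩ := hIne (KQ n t) (Kf n t f f) hfd hle (τ'⁻¹ • P) hP'.1.1 hP'.1.2 _ hρ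
      (hnor _) (by
      intro y hy
      have h3 := (DI.MP.smul (P := P) τ'⁻¹ (x := τ (y : Om) - τ' (y : Om))).2 (h _ hy y.2)
      have h4 : τ'⁻¹ (τ (y : Om) - τ' (y : Om)) = (((τ'⁻¹ * τ) • y - y : ZZ) : Om) := by
        rw [map_sub, ← AlgEquiv.mul_apply, ← AlgEquiv.mul_apply, inv_mul_cancel]
        rfl
      rw [h4] at h3
      exact (DI.MP.coe_iff _).1 h3)
    have h5 : (τ'⁻¹ * τ) x = x := by
      rw [← hsx x hx]
      exact hinr _ hP' s hsK hs x hx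
    have h6 : τ x = (τ' * (τ'⁻¹ * τ)) x := by rw [mul_inv_cancel_left]
    rw [h6, AlgEquiv.mul_apply, h5]
  · intro c hc
    refine ⟨?_, cj_wO hc⟩
    apply AlgEquiv.ext
    intro x
    rw [AlgEquiv.mul_apply, cj_cj hc]
    rfl

end Pool.Agent.DM.DU.F
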