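import Pool.Agent.Lib.DU.F.SpecA

/-!
# Theorem DU, part F, module Od: classes modulo `f` of ideals prime to `3 f` (helper79)

Adapted from `DR/F/Od.lean`.
-/

set_option autoImplicit false

open scoped Pointwise

noncomputable section

namespace Pool.Agent.DM.DU.F

open Pool.Agent.MuZ Pool.Agent.FW NumberField IsDedekindDomain Pool.Agent.DN Pool.Agent.DN.F

variable {n t : ℕ}

private theorem Od_pow {i j : ℕ} {A B : ℕ} (hA : ¬ 3 ∣ A) (h : 3 ^ i * A = 3 ^ j * B) : j ≤ i := by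
  by_contra h1
  push Not at h1
  obtain ⟨k, rfl⟩ : ∃ k, j = i + 1 + k := ⟨j - i - 1, by omega⟩
  have h2 : 3 ^ i * A = 3 ^ i * (3 * 3 ^ k * B) := by
    rw [h]
    ring
  have h3 := Nat.eq_of_mul_eq_mul_left (pow_pos (by norm_num) i) h2
  exact hA ⟨3 ^ k * B, by rw [h3]; ring⟩

private theorem Od_odd [SqN n t] {a : Ideal (OO n t)} (h : PrI a 3) : ¬ 3 ∣ NI a := by
  intro h5
  have h3 := ((aO6 n t).2.2.1 3 a (by norm_num)).1 h
  have h6 := Nat.dvd_gcd h5 (dvd_refl 3)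
  rw [h3] at h6
  norm_num at h6

private theorem Od_NIpow [SqN n t] (a : Ideal (OO n t)) (j : ℕ) : NI (a ^ j) = NI a ^ j := by
  induction j with
  | zero => rw [pow_zero, pow_zero, Ideal.one_eq_top, NI_top]
  | succ j ih => rw [pow_succ, pow_succ, NI_mul, ih]

/-- The exact power of `3`. -/
private theorem Od_key (hO4 : S_O4) [Ram3 n t] {x : OO n t} {j : ℕ} {b b' e : Ideal (OO n t)}
    (hx : x ≠ 0) (hb : PrI b 3) (hb' : PrI b' 3) (he : PrI e 3)
    (h : sp (3 ^ j) * e * b = sp x * b') : ∃ γ : OO n t, x = 3 ^ j * γ ∧ Cop γ 3 := by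
  obtain ⟨-, h3, h4, -, -, -, -, -, -, -, -, -, -, -, -, -, -, -, h16⟩ := hO4 n t
  obtain ⟨k, a', ha', ha2, hsx⟩ := h16 (sp x) (Eb.ne_sp hx)
  have h5 : sp ((3 : OO n t) ^ j) = pp n t ^ (2 * j) := by
    rw [pow_mul, pow_two, h4, Ideal.span_singleton_pow]
  have hN : 3 ^ (2 * j) * (NI e * NI b) = 3 ^ k * (NI a' * NI b') := by
    have h6 := congrArg NI h
    rw [hsx, h5, NI_mul, NI_mul, NI_mul, NI_mul, Od_NIpow, Od_NIpow, h3] at h6
    rw [← mul_assoc, ← mul_assoc]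
    exact h6
  have hodd : ∀ c c' : Ideal (OO n t), PrI c 3 → PrI c' 3 → ¬ 3 ∣ NI c * NI c' := by
    intro c c' hc hc' h6
    rcases Nat.prime_three.dvd_mul.1 h6 with h7 | h7
    · exact Od_odd hc h7
    · exact Od_odd hc' h7
  have hk : k = 2 * j := le_antisymm (Od_pow (hodd e b he hb) hN) (Od_pow (hodd a' b' ha2 hb') hN.symm)
  rw [hk, ← h5] at hsx
  have h7 : x ∈ sp ((3 : OO n t) ^ j) * a' := by
    rw [← hsx]
    exact Ideal.mem_span_singleton_self x
  obtain ⟨γ, -, hγ⟩ := Ideal.mem_span_singleton_mul.1 h7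
  refine ⟨γ, hγ.symm, ?_⟩
  have h20 : (3 : OO n t) ^ j ≠ 0 := by
    intro h8
    rw [h8, zero_mul] at hγ
    exact hx hγ.symm
  have h8 : sp γ = a' := by
    have h9 : sp ((3 : OO n t) ^ j) * sp γ = sp ((3 : OO n t) ^ j) * a' := by
      rw [← sp_mul, hγ, hsx]
    exact (Ideal.span_singleton_mul_right_inj h20).1 h9
  refine ((aO6 n t).2.2.2.1 3 γ (by norm_num)).1 ?_
  rw [h8]
  exact ha2

/-- **Od.** -/
theorem tOd (hO4 : S_O4) : S_Od := by
  intro n t _ f hf b b' hb hb' hr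
  have hf1 : 1 < f := by
    have := f20 hf
    omega
  obtain ⟨β, β', hβ, hβ', h1, h1', e⟩ := ray_norm hr
  -- multiply by the conjugate of `β`
  obtain ⟨j, m, hm, hj⟩ := Nat.exists_eq_pow_mul_and_not_dvd
    (show (Nm β).toNat ≠ 0 by have := Nm_pos hβ; omega) 3 (by norm_num)
  have hNm : (Nm β : ℤ) = 3 ^ j * m := by
    have h2 : ((Nm β).toNat : ℤ) = Nm β := Int.toNat_of_nonneg (Nm_pos hβ).le
    rw [← h2, hj]
    push_cast
    ring
  have hβc : β * cjO β = 3 ^ j * (m : OO n t) := by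
    rw [mul_cjO, hNm]
    push_cast
    ring
  have hcj0 : cjO β ≠ 0 := by
    intro h
    rw [h, mul_zero] at hβc
    have h2 := mul_cjO β
    rw [h, mul_zero] at h2
    have h3 : (Nm β : ℤ) = 0 := by exact_mod_cast h2.symm
    exact (Nm_pos hβ).ne' h3
  have hx0 : β' * cjO β ≠ 0 := mul_ne_zero hβ' hcj0
  have hm2 : PrI (sp (m : OO n t)) 3 := by
    refine ((aO6 n t).2.2.2.1 3 _ (by norm_num)).2 ?_
    unfold Cop
    rw [Nm_nat]
    refine IsCoprime.pow_left ?_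
    have h2 : Nat.Coprime m 3 := ((Nat.Prime.coprime_iff_not_dvd Nat.prime_three).2 hm).symm
    exact_mod_cast Nat.isCoprime_iff_coprime.2 h2
  have e1 : sp ((3 : OO n t) ^ j) * sp (m : OO n t) * b = sp (β' * cjO β) * b' := by
    rw [← sp_mul, ← hβc, sp_mul, sp_mul, mul_right_comm, e, mul_right_comm]
  obtain ⟨γ', hγ', hcγ'⟩ := Od_key hO4 hx0 (fb_three hb).cop (fb_three hb').cop hm2 e1
  have h20 : (3 : OO n t) ^ j ≠ 0 := by
    intro h
    rw [h, zero_mul] at hγ'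
    exact hx0 hγ'
  have hγ0' : γ' ≠ 0 := by
    rintro rfl
    rw [mul_zero] at hγ'
    exact hx0 hγ'
  have hm0 : (m : OO n t) ≠ 0 := by
    intro h
    rw [h, mul_zero] at hβc
    exact mul_ne_zero hβ hcj0 hβc
  have e2 : sp (m : OO n t) * b = sp γ' * b' := by
    rw [hγ', sp_mul, mul_assoc, mul_assoc] at e1
    exact (Ideal.span_singleton_mul_right_inj h20).1 e1
  -- modulo `f`
  have hcf1 : (f : OO n t) ∣ cjO β - 1 := by
    obtain ⟨u, hu⟩ := h1
    refine ⟨cjO u, ?_⟩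
    have h2 : cjO (β - 1) = cjO ((f : OO n t) * u) := by rw [hu]
    rw [cjO_sub, cjO_one, cjO_mul, cjO_nat] at h2
    exact h2
  have h3 : (f : OO n t) ∣ 3 ^ j * (m : OO n t) - 1 := by
    rw [← hβc]
    have h4 : β * cjO β - 1 = (β - 1) * cjO β + (cjO β - 1) := by ring
    rw [h4]
    exact dvd_add (h1.mul_right _) hcf1
  have h3' : (f : OO n t) ∣ 3 ^ j * γ' - 1 := by
    rw [← hγ']
    have h4 : β' * cjO β - 1 = (β' - 1) * cjO β + (cjO β - 1) := by ring
    rw [h4]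
    exact dvd_add (h1'.mul_right _) hcf1
  have hcop : IsCoprime (f : OO n t) ((3 : OO n t) ^ j) := by
    have h2 : IsCoprime (f : ℤ) ((3 : ℤ) ^ j) := by
      refine IsCoprime.pow_right ?_
      rw [Int.isCoprime_iff_gcd_eq_one]
      have h3 : Nat.Coprime f 3 := hf.cop
      exact_mod_cast h3
    have h3 := h2.map (Int.castRingHom (OO n t))
    simpa using h3
  have hd : (f : OO n t) ∣ (m : OO n t) - γ' := by
    have h2 : (f : OO n t) ∣ 3 ^ j * ((m : OO n t) - γ') := by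
      have e2 : 3 ^ j * ((m : OO n t) - γ') = (3 ^ j * (m : OO n t) - 1) - (3 ^ j * γ' - 1) := by ring
      rw [e2]
      exact dvd_sub h3 h3'
    exact hcop.dvd_of_dvd_mul_left h2
  have hcf : Cop (m : OO n t) f := by
    have h2 : Cop (3 ^ j * (m : OO n t)) f := by
      refine cop_congr (a := 1) ?_ (cop_one f)
      have e2 : (1 : OO n t) - 3 ^ j * (m : OO n t) = -(3 ^ j * (m : OO n t) - 1) := by ring
      rw [e2]
      exact (dvd_neg).2 h3
    unfold Cop at h2 ⊢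
    rw [Nm_mul] at h2
    exact h2.of_mul_left_right
  have hc2 : Cop (m : OO n t) 3 := ((aO6 n t).2.2.2.1 3 _ (by norm_num)).1 hm2
  have hc : Cop (m : OO n t) (3 * f) := by
    unfold Cop at hcf hc2 ⊢
    push_cast
    exact IsCoprime.mul_right (by exact_mod_cast hc2) hcf
  obtain ⟨δ, hδ, hδ'⟩ := cop_inv hc
  have hδ0 : δ ≠ 0 := by
    rintro rfl
    unfold Cop at hδ
    rw [Nm_zero] at hδ
    have h9 := isCoprime_zero_left.1 hδ
    rw [Int.isUnit_iff] at h9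
    omega
  have hδ2 : Cop δ 3 := cop_dvd hδ (Dvd.intro _ rfl)
  have hfd : (f : OO n t) ∣ δ * (m : OO n t) - 1 := by
    have h2 : (f : OO n t) ∣ ((3 * f : ℕ) : OO n t) := by
      push_cast
      exact Dvd.intro_left _ rfl
    rw [mul_comm δ (m : OO n t)]
    exact h2.trans hδ'
  refine ⟨δ * (m : OO n t), δ * γ', mul_ne_zero hδ0 hm0, mul_ne_zero hδ0 hγ0', cop_mul hδ2 hc2,
    cop_mul hδ2 hcγ', hfd, ?_, ?_⟩
  · have e3 : δ * γ' - 1 = (δ * (m : OO n t) - 1) - ((m : OO n t) - γ') * δ := by ring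
    rw [e3]
    exact dvd_sub hfd (hd.mul_right δ)
  · rw [sp_mul, sp_mul, mul_assoc, mul_assoc, e2]

end Pool.Agent.DM.DU.F
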