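import Pool.Agent.Lib.DU.F.SpecG

/-!
# Theorem DU, part F, module `PsG`: the function `Ψ = G(C/3)`, `C(z) = A(z) - s conj A(- conj z)`
-/

set_option autoImplicit false
set_option linter.unusedSectionVars false

open scoped Pointwise Topology MatrixGroups
open Filter

noncomputable section

namespace Pool.Agent.DM.DU.F

open Pool.Agent.MuZ Pool.Agent.FW NumberField IsDedekindDomain Pool.Agent.DN Pool.Agent.DN.F
open Pool.Agent.DI (io ofC io_inj exists_io io_ofC ofC_io VP MP UP TP ex)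

namespace PsGAux

theorem an_conj {f : ℂ → ℂ} {x : ℂ} (hf : AnalyticAt ℂ f ((starRingEnd ℂ) x)) :
    AnalyticAt ℂ (fun z => (starRingEnd ℂ) (f ((starRingEnd ℂ) z))) x := by
  rw [Complex.analyticAt_iff_eventually_differentiableAt] at hf ⊢
  have hc : Tendsto (fun z : ℂ => (starRingEnd ℂ) z) (𝓝 x) (𝓝 ((starRingEnd ℂ) x)) :=
    Complex.continuous_conj.tendsto x
  filter_upwards [hc.eventually hf] with z hz
  have h := hz.conj_conj
  rw [Complex.conj_conj] at h
  exact h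

theorem im_nc (z : ℂ) : (-(starRingEnd ℂ) z).im = z.im := by simp

/-- `A` is analytic. -/
theorem an (hC7 : S_C7) {n t : ℕ} [Ram3 n t] {f : ℕ} {m : Ideal (OO n t)}
    {R : Finset (Ideal (OO n t))} (hm : FM f m) (hR : FR f R) (σ : Ideal (OO n t) → Gal(Om/ℚ)) (N0 : ℕ)
    (β : Om) (z : ℂ) (hz : 0 < z.im) : AnalyticAt ℂ (AF f m R σ N0 β) z := by
  have hopen : {z : ℂ | 0 < z.im} ∈ 𝓝 z :=
    (isOpen_lt continuous_const Complex.continuous_im).mem_nhds hz
  have h1 : ∀ b ∈ R, AnalyticAt ℂ (fun z => io (σ b β) * ThM (3 * f) m b z) z := fun b hb =>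
    analyticAt_const.mul ((hC7 n t f m b hm (hR b hb)).1.analyticAt hopen)
  have h2 : AnalyticAt ℂ (fun z => ∑ b ∈ R, io (σ b β) * ThM (3 * f) m b z) z :=
    Finset.analyticAt_fun_sum R h1
  exact analyticAt_const.mul h2

/-- `C` is analytic. -/
theorem anC (hC7 : S_C7) {n t : ℕ} [Ram3 n t] {f : ℕ} (s : ℤ) {m : Ideal (OO n t)}
    {R : Finset (Ideal (OO n t))} (hm : FM f m) (hR : FR f R) (σ : Ideal (OO n t) → Gal(Om/ℚ)) (N0 : ℕ)
    (β : Om) (z : ℂ) (hz : 0 < z.im) : AnalyticAt ℂ (CF f s m R σ N0 β) z := by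
  have h1 : AnalyticAt ℂ (AF f m R σ N0 β) (-(starRingEnd ℂ) z) :=
    an hC7 hm hR σ N0 β _ (by rw [im_nc]; exact hz)
  have h2 : AnalyticAt ℂ (fun u => AF f m R σ N0 β (-u)) ((starRingEnd ℂ) z) :=
    AnalyticAt.comp (f := fun u : ℂ => -u) (g := AF f m R σ N0 β) h1 (by fun_prop)
  exact (an hC7 hm hR σ N0 β z hz).sub (analyticAt_const.mul (an_conj h2))

theorem ex_div (z M : ℂ) : ex (z / M) = Complex.exp (2 * Real.pi * Complex.I * z / M) := by
  unfold ex
  congr 1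
  ring

theorem conj_ex (z : ℂ) : (starRingEnd ℂ) (ex z) = ex (-(starRingEnd ℂ) z) := by
  unfold ex
  rw [← Complex.exp_conj]
  congr 1
  simp only [map_mul, Complex.conj_I, Complex.conj_ofReal, map_ofNat]
  ring

/-- `δ/3` is a period if `δ` is in `pp`. -/
theorem pp_per (hO4 : S_O4) (hL6 : S_L6) {n t : ℕ} [Ram3 n t] {G : ℂ → ℂ}
    (hG : Gt3.IsG3 n t (T3 n t) G) {δ : OO n t} (hδ : δ ∈ pp n t) (v : ℂ) :
    G (v + toC δ / 3) = G v := by
  obtain ⟨-, -, hp2, -⟩ := hO4 n t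
  obtain ⟨-, -, -, h4, -⟩ := hL6 n t ⊤ Eb.ne_top (Eb.pri_top 3)
  have hL : toC δ / 3 ∈ Lam (pp n t * (⊤ : Ideal (OO n t))) := by
    rw [Ideal.mul_top]
    intro u hu
    have h5 : u * δ ∈ pp n t * pp n t := Ideal.mul_mem_mul hu hδ
    rw [hp2, Ideal.mem_span_singleton] at h5
    obtain ⟨w, hw⟩ := h5
    refine ⟨w, ?_⟩
    have h3 : toC (3 : OO n t) = 3 := by
      have h2 : (3 : OO n t) = ((3 : ℕ) : OO n t) := by norm_cast
      rw [h2, toC_nat]
      norm_num
    have h6 : toC u * toC δ = 3 * toC w := by rw [← toC_mul, hw, toC_mul, h3]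
    linear_combination h6 / 3
  rcases h4 _ hL with h | h | h
  · obtain ⟨w, hw⟩ := lam_top.1 h
    rw [hw, hG.per]
  · obtain ⟨w, hw⟩ := lam_top.1 h
    have e : v + toC δ / 3 = (v + toC w) + T3 n t := by
      rw [← hw]
      ring
    rw [e, hG.third, hG.per]
  · obtain ⟨w, hw⟩ := lam_top.1 h
    have e : v + toC w = (v + toC δ / 3) + T3 n t := by
      rw [← hw]
      ring
    have h7 := hG.third (v + toC δ / 3)
    rw [← e, hG.per] at h7
    exact h7.symm

/-- `α - s conj α'` is in `pp`. -/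
theorem trace_mod (hO4 : S_O4) {n t : ℕ} [Ram3 n t] {s : ℤ} {α α' : OO n t}
    (h : α - s * α' ∈ pp n t) : α - s * cjO α' ∈ pp n t := by
  obtain ⟨-, -, -, -, -, -, -, -, -, -, -, h12, -, -, -, -, h17, -⟩ := hO4 n t
  have h1 : cjO α' - α' ∈ pp n t := by
    have h2 := h12 (cjO α')
    have h3 := h12 α'
    rw [h17] at h2
    have h4 := sub_mem h2 h3
    have e : cjO α' - (zs α' : OO n t) - (α' - (zs α' : OO n t)) = cjO α' - α' := by ring
    rwa [e] at h4
  have e : α - s * cjO α' = (α - s * α') - s * (cjO α' - α') := by ring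
  rw [e]
  exact sub_mem h (Ideal.mul_mem_left _ _ h1)

end PsGAux

open PsGAux in
theorem tPsG (hO4 : S_O4) (hL6 : S_L6) (hC7 : S_C7) (hCus : S_Cus) : S_PsG := by
  intro n t _ f M m R hm hR hlv σ s hs N0 β G hG
  refine ⟨fun z hz => ?_, fun z z' hz hz' α α' hpar h1 h2 => ?_, fun γ => ?_⟩
  · have g1 : AnalyticAt ℂ (fun z => CF f s m R σ N0 β z / 3) z :=
      (anC hC7 s hm hR σ N0 β z hz).div_const
    exact (hG.mer _).comp_analyticAt g1
  · have hx := trace_mod hO4 hpar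
    have hC : CF f s m R σ N0 β z' = CF f s m R σ N0 β z + toC (α - (s : OO n t) * cjO α') := by
      unfold CF
      rw [h1, h2, map_add, conj_toC, toC_sub, toC_mul, toC_int]
      ring
    unfold PsF
    rw [hC, add_div, pp_per hO4 hL6 hG hx]
  · have hdet : γ 0 0 * γ 1 1 - γ 0 1 * γ 1 0 = 1 := by
      have h := γ.det_coe
      rw [Matrix.det_fin_two] at h
      exact h
    obtain ⟨al, hal, hal2⟩ := hCus n t f M m R hm hR hlv σ N0 β (γ 0 0) (γ 0 1) (γ 1 0) (γ 1 1) hdet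
    obtain ⟨al', hal', hal2'⟩ := hCus n t f M m R hm hR hlv σ N0 β (γ 0 0) (-(γ 0 1)) (-(γ 1 0)) (γ 1 1)
      (by rw [neg_mul_neg]; exact hdet)
    refine ⟨fun u => G ((al u - s * (starRingEnd ℂ) (al' ((starRingEnd ℂ) u))) / 3), 0, ?_,
      fun z hz => ?_⟩
    · have g2 : AnalyticAt ℂ al' ((starRingEnd ℂ) 0) := by
        rw [map_zero]
        exact hal'
      exact (hG.mer _).comp_analyticAt ((hal.sub (analyticAt_const.mul (an_conj g2))).div_const)
    · have hz' : 0 < (z : ℂ).im := hz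
      have hγ : ((γ • z : UpperHalfPlane) : ℂ) =
          ((γ 0 0 : ℤ) * (z : ℂ) + (γ 0 1 : ℤ)) / ((γ 1 0 : ℤ) * (z : ℂ) + (γ 1 1 : ℤ)) := by
        rw [UpperHalfPlane.specialLinearGroup_apply]
        simp
      have hγ' : -(starRingEnd ℂ) ((γ • z : UpperHalfPlane) : ℂ) =
          ((γ 0 0 : ℤ) * (-(starRingEnd ℂ) (z : ℂ)) + (-(γ 0 1) : ℤ)) /
            ((-(γ 1 0) : ℤ) * (-(starRingEnd ℂ) (z : ℂ)) + (γ 1 1 : ℤ)) := by
        rw [hγ]
        simp only [map_div₀, map_add, map_mul, map_intCast]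
        push_cast
        rw [← neg_div]
        congr 1 <;> ring
      have h9 : (starRingEnd ℂ) (ex ((z : ℂ) / (27 * M : ℕ))) =
          ex (-(starRingEnd ℂ) (z : ℂ) / (27 * M : ℕ)) := by
        rw [conj_ex]
        congr 1
        simp only [map_div₀, map_natCast]
        ring
      unfold PsF CF
      rw [hγ', hγ, hal2 _ hz', hal2' _ (by rw [im_nc]; exact hz'), ← h9, ex_div]

end Pool.Agent.DM.DU.F
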