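import Pool.Agent.Lib.DU.F.SpecA

/-!
# Theorem DU, part F, module Sm: the sums with `χ` (helper79)
-/

set_option autoImplicit false

open scoped Pointwise

noncomputable section

namespace Pool.Agent.DM.DU.F

open Pool.Agent.MuZ Pool.Agent.FW NumberField IsDedekindDomain Pool.Agent.DN Pool.Agent.DN.F
open Pool.Agent.DI (io ofC io_inj exists_io io_ofC ofC_io VP MP UP TP ex)

theorem tSm (hKp : S_Kp) (hYE : S_YE) : S_Sm := by
  intro n t _ f M k e m R hm hFR hRC hlv χ hχ hk σ hσ s hs0 a b c d hG hd27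
  have hf := hm.toFok
  have hd : (M : ℤ) ∣ d - 1 := dvd_trans ⟨27, by ring⟩ hd27
  -- the three arguments
  have d1 : ((3 * b : ℚ) / d).den.Coprime M := by
    have h := den_cop (b := 3 * b) hd (dvd_refl _)
    push_cast at h
    exact h
  have d2 : (-((3 * b : ℚ) / d)).den.Coprime M := by
    rw [Rat.neg_den]
    exact d1
  have d0 : (0 : ℚ).den.Coprime M := by
    rw [Rat.den_zero]
    exact Nat.coprime_one_left M
  obtain ⟨-, -, s1, t1⟩ := hYE n t f M k m R hm hFR hlv hk _ d1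
  obtain ⟨-, -, s2, t2⟩ := hYE n t f M k m R hm hFR hlv hk _ d2
  obtain ⟨-, -, s0, t0⟩ := hYE n t f M k m R hm hFR hlv hk _ d0
  have hse : ((-1 : Om)) ^ e = -(s : Om) := by
    rw [hs0]
    push_cast
    ring
  unfold xs
  rw [hse, neg_zero]
  unfold xw
  rw [Finset.mul_sum, Finset.mul_sum, Finset.mul_sum, Finset.mul_sum, ← Finset.sum_add_distrib,
    Finset.mul_sum, ← Finset.sum_add_distrib, ← Finset.sum_sub_distrib]
  refine Finset.sum_congr rfl fun b' hb' => ?_
  have hb := hFR b' hb'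
  have hne : kp b' ≠ 0 := (hKp.1 n t b' (fb_g30 hf hb) 1 (by rw [sub_self]; exact dvd_zero _)
    (cop_one 30)).1
  have hs := hσ.mem b' hb
  have hp := hσ.psi b' hb
  have hw := w4_ne
  unfold wg kpp
  rw [map_sub, map_sub, map_mul, map_intCast, map_sub, s1 _ hs b' hp, s2 _ hs b' hp,
    s0 _ hs b' hp, t1 b' hb', t2 b' hb', t0 b' hb', div_pow]
  have hk0 : kp b' ^ k ≠ 0 := pow_ne_zero _ hne
  have hw0 : w4 ^ k ≠ 0 := pow_ne_zero _ hw
  generalize kp b' ^ k = X at *
  generalize w4 ^ k = Y at *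
  field_simp
  ring

end Pool.Agent.DM.DU.F
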