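import Pool.Agent.Lib.DU.F.SpecL

/-!
# Theorem DU, part F, module `V1b`: the set `vN (3 f) c 1`, second part
-/

set_option autoImplicit false

open scoped Pointwise Topology
open Filter

noncomputable section

namespace Pool.Agent.DM.DU.F

open Pool.Agent.MuZ Pool.Agent.FW NumberField IsDedekindDomain Pool.Agent.DN Pool.Agent.DN.F
open Pool.Agent.DI (io ofC io_inj exists_io io_ofC ofC_io VP MP UP TP ex)

theorem tV1b (hC7 : S_C7) (hV1a : S_V1a) : S_V1b := by
  intro n t _ f m b hm hb
  have hv := hV1a n t f m b hm hb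
  have h7 := (hC7 n t f m b hm hb).2.1 1
  have hN3 : 3 ≤ 3 * f := by
    have h1 := f20 hm.toFok
    omega
  generalize 3 * f = N at hv h7 hN3 ⊢
  have hf0 : (N : ℂ) ≠ 0 := by
    have : N ≠ 0 := by omega
    exact_mod_cast this
  have hfR : (N : ℝ) ≠ 0 := by
    have : N ≠ 0 := by omega
    exact_mod_cast this
  refine ⟨fun h => ?_, fun h => ?_⟩
  · obtain ⟨v, hv'⟩ := Finset.nonempty_iff_ne_empty.2 h
    obtain ⟨x, hx0, hx, hfx, -⟩ := hv v hv'
    refine ray_of (α := 1) (α' := x) one_ne_zero hx0 ?_ hfx ?_
    · rw [sub_self]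
      exact dvd_zero _
    · rw [sp_one, Ideal.top_mul, Ideal.mul_top, hx]
  · obtain ⟨α, α', hα, hα', h1, h2, h3⟩ := ray_norm h
    rw [Ideal.mul_top] at h3
    have h4 : α' ∈ sp α * (m * b) := by
      rw [h3]
      exact Ideal.mem_span_singleton_self α'
    obtain ⟨x, hxm, hx⟩ := Ideal.mem_span_singleton_mul.1 h4
    have hx0 : x ≠ 0 := by
      rintro rfl
      rw [mul_zero] at hx
      exact hα' hx.symm
    have hmb : m * b = sp x := by
      apply sp_cancel hα
      rw [h3, ← hx, sp_mul]
    have hfx : (N : OO n t) ∣ x - 1 := by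
      have e : x - 1 = (α' - 1) - (α - 1) * x := by
        rw [← hx]
        ring
      rw [e]
      exact dvd_sub h2 (h1.mul_right _)
    have hxC : toC x ≠ 0 := toC_ne hx0
    have hfx' := hfx
    obtain ⟨s, hs⟩ := hfx
    have hs' : toC x = 1 + N * toC s := by
      have e : x = 1 + (N : OO n t) * s := by
        rw [← hs]
        ring
      conv_lhs => rw [e]
      rw [toC_add, toC_one, toC_mul, toC_nat]
    have hNI : ((NI (m * b) : ℕ) : ℝ) = ‖toC x‖ ^ 2 := by
      rw [← Nm_norm, hmb]
      have := NI_sp x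
      rw [← this]
      simp
    have hmem : 1 / (N * toC x) ∈ vN N (m * b) 1 := by
      rw [h7]
      constructor
      · have e : m * b = sp x * ⊤ := by rw [Ideal.mul_top, hmb]
        rw [e, lam_sp, lam_top]
        refine ⟨-s, ?_⟩
        rw [toC_neg]
        have e2 : toC x * (1 / (N * toC x) - 1 / N) = (1 - toC x) / N := by
          field_simp
        rw [e2, hs']
        field_simp
        ring
      · rw [hNI, norm_div, norm_mul, norm_one, Complex.norm_natCast]
        have h5 : ‖toC x‖ ≠ 0 := norm_ne_zero_iff.2 hxC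
        field_simp
        simp
    have huni : ∀ v ∈ vN N (m * b) 1, v = 1 / (N * toC x) := by
      intro v hv'
      obtain ⟨x', hx'0, hx', hfx'', rfl⟩ := hv v hv'
      have h5 : x' ∈ sp x := by
        rw [← hmb, hx']
        exact Ideal.mem_span_singleton_self x'
      obtain ⟨y, hy⟩ := Ideal.mem_span_singleton'.1 h5
      have h6 : Nm x' = Nm x := by
        rw [← NI_sp x', ← NI_sp x, ← hx', hmb]
      have h8 : Nm y = 1 := by
        rw [← hy, Nm_mul] at h6
        have h8 := (Nm_pos hx0).ne'
        have h9 : (Nm y - 1) * Nm x = 0 := by linear_combination h6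
        rcases mul_eq_zero.1 h9 with h10 | h10
        · linarith
        · exact absurd h10 h8
      have h9 : (N : OO n t) ∣ y - 1 := by
        have e : y - 1 = (x' - 1) - y * (x - 1) := by
          rw [← hy]
          ring
        rw [e]
        exact dvd_sub hfx'' (hfx'.mul_left _)
      have h10 : y = 1 := (aO10 n t).2.1 N y hN3 h8 h9
      rw [h10, one_mul] at hy
      rw [hy]
    refine ⟨x, hx0, hmb, ⟨s, hs⟩, ?_, ?_⟩
    · apply Finset.eq_singleton_iff_unique_mem.2
      exact ⟨hmem, huni⟩
    · intro hmt hL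
      have h5 : b ≤ m * b := by
        intro y hy
        obtain ⟨u, hu⟩ := hL y hy
        rw [hmb, Ideal.mem_span_singleton']
        refine ⟨y + N * u, ?_⟩
        apply toC_inj
        rw [toC_mul, toC_add, toC_mul, toC_nat, ← hu]
        field_simp
        ring
      have h6 : m * b = b := le_antisymm Ideal.mul_le_right h5
      apply hmt
      apply mul_cancel hb.ne
      rw [h6, Ideal.top_mul]

end Pool.Agent.DM.DU.F
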