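import Pool.Agent.Lib.DU.F.SpecA

/-!
# Theorem DU, part F, module `YE`: the numbers `yE`
-/

set_option autoImplicit false

open scoped Pointwise

noncomputable section

namespace Pool.Agent.DM.DU.F

open Pool.Agent.MuZ Pool.Agent.FW NumberField IsDedekindDomain Pool.Agent.DN Pool.Agent.DN.F
open Pool.Agent.DI (io ofC io_inj exists_io io_ofC ofC_io VP MP UP TP ex)

private theorem YE_den {r : ℚ} {j : ℕ} (hj : ¬ 3 ∣ j) (h : r.den.Coprime j) : (r / 3).den.Coprime j := by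
  have h1 : (r / 3).den ∣ r.den * 3 := by
    have h2 := Rat.mul_den_dvd r (1 / 3)
    have e : (1 / 3 : ℚ).den = 3 := by norm_num
    have e2 : r * (1 / 3) = r / 3 := by ring
    rw [e, e2] at h2
    exact h2
  exact Nat.Coprime.coprime_dvd_left h1 (Nat.coprime_mul_iff_left.2
    ⟨h, (Nat.Prime.coprime_iff_not_dvd Nat.prime_three).2 hj⟩)

private theorem YE_act (hC8 : S_C8) (hTm : S_TmF) (hGc : S_Gc) {n t : ℕ} [Ram3 n t] {f k : ℕ}
    {m : Ideal (OO n t)} (hm : FM f m) {r : ℚ} (hr : (r / 3).den.Coprime (NI m)) {τ : Gal(Om/ℚ)}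
    (hτ : τ ∈ GK n t) {a b : Ideal (OO n t)} (ha : Psi τ (3 * f) a) (hb : FB f b) :
    τ (yE f k m b r) = yE f k m (a * b) r := by
  obtain ⟨g1, -⟩ := hGc n t f hm.toFok
  obtain ⟨t1, -⟩ := hTm n t f hm.toFok
  unfold yE
  rw [map_mul, map_div₀, map_one, map_ofNat, map_sum]
  refine congrArg (fun x => 1 / 3 * x) (Finset.sum_congr rfl fun α hα => ?_)
  have hs : FB f (sp α * b) := fb_mul (fb_sp hm.toFok (t1 α hα).2.2.2) hb
  rw [map_mul, map_pow, (g1 τ hτ a ha _ hs).1, hC8 n t f m _ hm hs (r / 3) hr τ hτ a ha,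
    mul_left_comm]

theorem tYE (hC6 : S_C6) (hC8 : S_C8) (hC10 : S_C10) (hTm : S_TmF) (hGc : S_Gc) : S_YE := by
  intro n t _ f M k m R hm hR hlv hk r hr
  have h3f : 0 < 3 * f := three_f hm.toFok
  have hf0 : 0 < f := f_pos hm.toFok
  have hNm : ¬ 3 ∣ NI m := NI_three (fb_three (fm_fb hm))
  have hr' : (r / 3).den.Coprime (NI m) :=
    YE_den hNm (Nat.Coprime.coprime_dvd_right (lv_m hlv) hr)
  obtain ⟨g1, g2, -⟩ := hGc n t f hm.toFok
  obtain ⟨t1, t2, -⟩ := hTm n t f hm.toFok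
  have hact : ∀ τ ∈ GK n t, ∀ a : Ideal (OO n t), Psi τ (3 * f) a →
      τ (yE f k m ⊤ r) = yE f k m a r := by
    intro τ hτ a ha
    have h1 := YE_act hC8 hTm hGc (k := k) hm hr' hτ ha (fb_top f)
    rw [Ideal.mul_top] at h1
    exact h1
  have hcl : ∀ b : Ideal (OO n t), FB f b → Ray f b ⊤ → yE f k m b r = yE f k m ⊤ r := by
    intro b hb hray
    have h1 := (t2 Om (fun c => kp c ^ k * etaM (3 * f) m c (r / 3)) fun c c' hc hc' hcc => by
      simp only [g2 c c' hc hc' hcc, ((hC6 n t f m c hm hc).1 c' hc' hcc).2 (r / 3)]).2 b ⊤ hb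
        (fb_top f) hray
    unfold yE
    exact congrArg (fun x => 1 / 3 * x) h1
  refine ⟨?_, ?_, hact, ?_⟩
  · intro τ hτ a ha hray
    rw [hact τ hτ a ha]
    exact hcl a (fb_psi ha) hray
  · intro Q hQ τ _
    have hQ' : Ab3 (τ⁻¹ • Q) := ab3_smul τ⁻¹ hQ
    have h1 := ((hC10 n t f M m ⊤ hm (fb_top f) (lv_top hlv) k hk r hr).2 (τ⁻¹ • Q) hQ').2.1
    have h2 := (DI.VP.smul (P := τ⁻¹ • Q) τ (x := yE f k m ⊤ r)).2 h1
    rwa [smul_inv_smul] at h2
  · intro b hb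
    exact (hC10 n t f M m b hm (hR b hb) (lv_one hlv hb) k hk r hr).1

end Pool.Agent.DM.DU.F
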