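import Pool.Agent.Lib.DU.F.Hm
import Pool.Agent.Lib.DU.F.Al
import Pool.Agent.Lib.DU.F.CoL
import Pool.Agent.Lib.DU.F.Has
import Pool.Agent.Lib.DU.F.V1a
import Pool.Agent.Lib.DU.F.V1b
import Pool.Agent.Lib.DU.F.Lead
import Pool.Agent.Lib.DU.F.Cus
import Pool.Agent.Lib.DU.F.PsG
import Pool.Agent.Lib.DU.F.PsE
import Pool.Agent.Lib.DU.F.FHm
import Pool.Agent.Lib.DU.F.KP
import Pool.Agent.Lib.DU.F.Od
import Pool.Agent.Lib.DU.F.TmF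
import Pool.Agent.Lib.DU.F.Gc
import Pool.Agent.Lib.DU.F.YE
import Pool.Agent.Lib.DU.F.Kap
import Pool.Agent.Lib.DU.F.Sm
import Pool.Agent.Lib.DU.F.Bet
import Pool.Agent.Lib.DU.F.Pa
import Pool.Agent.Lib.DU.F.Pb
import Pool.Agent.Lib.DU.F.F2
import Pool.Agent.Lib.DU.F.Kf
import Pool.Agent.Lib.DU.F.Asm
import Pool.Agent.Lib.DU.O.L6
import Pool.Agent.Lib.DU.E.AllZ
import Pool.Agent.Lib.DU.C.All
import Pool.Agent.Lib.DU.CV.C8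
import Pool.Agent.Lib.DM.B.All
import Pool.Agent.Lib.DM.E.All
import Pool.Agent.Lib.DS.E.AllZ
import Pool.Agent.Lib.FW.G.Ine

/-!
# Theorem DU (`p = 3` ramified), part F: Proposition F (`S_F`) from `S_C10` only (author helper79)

`xKf : S_Kf`, `xLead : S_Lead`, `xPsi : S_Psi`, `xFH : S_FH` without hypotheses; `xF2 (hC10 : S_C10) : S_F2`,
`xF (hC10 : S_C10) : S_F`.
-/

set_option autoImplicit false

noncomputable section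

namespace Pool.Agent.DM.DU.F

open Pool.Agent.DN

/-- `S_Kf`. -/
theorem xKf : S_Kf :=
  tKf zO4 (tKP zO4) DS.zE1 zE4a DS.zE7 DS.zE8 DS.zCj Pool.Agent.FW.tIne

theorem xC2 : S_C2 := aC2 DS.zR1
theorem xC3 : S_C3 := aC3 DS.zR1
theorem xC6 : S_C6 := aC6 DS.zR1
theorem xC7 : S_C7 := aC7 DS.zR1

/-- `S_Lead`. -/
theorem xLead : S_Lead :=
  have hHm : S_Hm := tHm aB7 xC7
  have hAl : S_Al := tAl xC7
  tLead zR1 zD2 xC7 (tCoL xKf (DM.zE10 DS.zD1) zR1 hHm hAl) (tHas zR1 xC7 hAl)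
    (tV1b xC7 (tV1a xC7))

/-- `S_Psi`. -/
theorem xPsi : S_Psi :=
  sPsi zL6 aBC (tPsG zO4 zL6 xC7 (tCus xC3)) (tPsE zL6 aBC xKf xLead aB1 aB7 zR1)

/-- `S_FH`. -/
theorem xFH : S_FH := tFH zL6 zXOm zR2 zD10 xKf xLead

theorem xC8 : S_C8 := sC8 (aC4 DS.zR1) xC6 DS.zE1 DS.zE6 (DM.zE10 DS.zD1)

/-- `S_F2`. -/
theorem xF2 (hC10 : S_C10) : S_F2 :=
  have hKP : S_KP := tKP zO4
  have hOd : S_Od := tOd zO4
  have hTm : S_TmF := tTmF hOd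
  have hGc : S_Gc := tGc DS.zE1 DS.zE7 (DM.zE10 DS.zD1) aB7 aB1 zR1 zD2 xKf
  have hYE : S_YE := tYE xC6 xC8 hC10 hTm hGc
  have hPa : S_Pa := tPa xC2 xC6 DS.zE1 xKf hTm hGc hYE
  tF2 DS.zE1 DS.zE7 DS.zCj DM.zCj xKf zKp hKP hGc hYE (tKap zO4 zKp hKP hOd hGc) (tSm zKp hYE)
    (tBet zO4 DS.zE1 xKf hKP hGc) (tPb hKP hPa) xLead

/-- **Proposition F**, from `S_C10`. -/
theorem xF (hC10 : S_C10) : S_F := tAsm xKf (xF2 hC10) xPsi xFH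

end Pool.Agent.DM.DU.F
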