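import Pool.Agent.Lib.DU.IfaceF
import Pool.Agent.Lib.DM.F.SpecL

/-!
# Theorem DU, part F: elementary lemmas (author helper79)

The lemmas of `DM/F/Base.lean`, `DM/F/SpecL.lean` which are stated for `[SqN n t]` are exported to the namespace
`Pool.Agent.DM.DU.F`. Here: the levels `IsLv` (of `DU/IfaceC.lean`), `w4`.
-/

set_option autoImplicit false
set_option linter.unusedSectionVars false

open scoped Pointwise Topology
open Filter

noncomputable section

namespace Pool.Agent.DM.DU.F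

open Pool.Agent.MuZ Pool.Agent.FW NumberField IsDedekindDomain Pool.Agent.DN Pool.Agent.DN.F
open Pool.Agent.DI (io ofC io_inj exists_io io_ofC ofC_io VP MP UP TP ex)

export Pool.Agent.DM.F (three_f f_pos f20 d15 d60 d30 fb_pn pn_fb fb_top fb_mul fb_of_mul fb_cj fb_psi
  fb_ray fb_three fb_f fb_of fb_30 fb_g30 fb_g15 g30_top g30_mul fm_fb fm_cj NI_three fb_sp cop_of
  ray_f rc_fb rc_fr sum_repF sum_mulF sum_mulP ab3_smul nat_UP two_UP fr_ne rO_io rO_ne rO_mul)

section lv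

variable {n t : ℕ}

theorem lv_three {f M : ℕ} {m : Ideal (OO n t)} {R : Finset (Ideal (OO n t))} (h : IsLv f m R M) :
    ¬ 3 ∣ M := by
  have := h.one
  omega

theorem lv_one {f M : ℕ} {m : Ideal (OO n t)} {R : Finset (Ideal (OO n t))} (h : IsLv f m R M)
    {b : Ideal (OO n t)} (hb : b ∈ R) : IsLv f m {b} M := by
  refine ⟨h.pos, h.one, dvd_trans ?_ h.dvd⟩
  unfold lev
  rw [Finset.prod_singleton]
  exact mul_dvd_mul_left _ (pow_dvd_pow_of_dvd (mul_dvd_mul_left _ (Finset.dvd_prod_of_mem _ hb)) 3)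

theorem lv_top [SqN n t] {f M : ℕ} {m : Ideal (OO n t)} {R : Finset (Ideal (OO n t))}
    (h : IsLv f m R M) : IsLv f m {(⊤ : Ideal (OO n t))} M := by
  refine ⟨h.pos, h.one, dvd_trans ?_ h.dvd⟩
  unfold lev
  rw [Finset.prod_singleton, NI_top, mul_one]
  exact mul_dvd_mul_left _ (pow_dvd_pow_of_dvd (Dvd.intro _ rfl) 3)

theorem lv_m {f M : ℕ} {m : Ideal (OO n t)} {R : Finset (Ideal (OO n t))} (h : IsLv f m R M) :
    NI m ∣ M := by
  refine dvd_trans ?_ h.dvd
  unfold lev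
  refine Dvd.dvd.mul_left ?_ _
  exact dvd_trans (Dvd.intro _ rfl) (dvd_pow_self _ (by norm_num))

end lv

/-- `w4 ^ 4 = 3`. -/
theorem w4_pow : w4 ^ 4 = 3 := by
  have h : ∃ y : Om, y ^ 4 = 3 := IsAlgClosed.exists_pow_nat_eq (3 : Om) (by norm_num)
  unfold w4
  rw [dif_pos h]
  exact h.choose_spec

theorem w4_ne : w4 ≠ 0 := by
  intro h
  have := w4_pow
  rw [h] at this
  norm_num at this

theorem w4_mp {P : Ideal ZZ} [P.IsPrime] (h3 : MP P 3) : MP P w4 := by
  refine DI.MP.of_pow (n := 4) ?_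
  rw [w4_pow]
  exact h3

end Pool.Agent.DM.DU.F
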