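import Pool.Agent.Lib.DU.F.KP

/-!
# Theorem DU, part F, module `F2a`: lemmas for `S_F2` (roots of unity of order prime to `3`, complex conjugation) (helper79)
-/

set_option autoImplicit false
set_option linter.unusedSectionVars false

open scoped Pointwise

noncomputable section

namespace Pool.Agent.DM.DU.F

open Pool.Agent.MuZ Pool.Agent.FW NumberField IsDedekindDomain Pool.Agent.DN Pool.Agent.DN.F
open Pool.Agent.DI (io ofC io_inj exists_io io_ofC ofC_io VP MP UP TP ex)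

/-- Roots of unity of order prime to `3` are different modulo the primes above `3`. -/
theorem F2_root {P : Ideal ZZ} (hP : Ab3 P) {x y : Om} {j : ℕ} (hj : j.Coprime 3) (hx : x ^ j = 1)
    (hy : y ^ j = 1) (h : MP P (x - y)) : x = y := by
  have hPp : P.IsPrime := hP.1.1
  have hj0 : 0 < j := by
    rcases Nat.eq_zero_or_pos j with rfl | h1
    · norm_num at hj
    · exact h1
  have uy : UP P y := DI.UP.of_pow hj0 (by rw [hy]; exact DI.UP.one)
  have ux : UP P x := DI.UP.of_pow hj0 (by rw [hx]; exact DI.UP.one)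
  have y0 := uy.ne_zero
  by_contra hne
  obtain ⟨z, hz⟩ : ∃ z, z = x * y⁻¹ := ⟨_, rfl⟩
  have vz : VP P z := by
    rw [hz]
    exact ux.1.mul uy.inv.1
  have mz : MP P (z - 1) := by
    have e : z - 1 = (x - y) * y⁻¹ := by
      rw [hz]
      field_simp
    rw [e]
    exact DI.MP.mul_right h uy.inv.1
  have z1 : z - 1 ≠ 0 := by
    intro h1
    apply hne
    have h2 : x * y⁻¹ = 1 := by
      rw [← hz]
      exact sub_eq_zero.1 h1
    field_simp at h2
    exact h2
  have zj : z ^ j = 1 := by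
    rw [hz, mul_pow, inv_pow, hx, hy]
    norm_num
  have hpow : ∀ i : ℕ, MP P (z ^ i - 1) := by
    intro i
    induction i with
    | zero =>
      rw [pow_zero, sub_self]
      exact DI.MP.zero
    | succ i ih =>
      have e : z ^ (i + 1) - 1 = (z ^ i - 1) * z + (z - 1) := by ring
      rw [e]
      exact DI.MP.add (DI.MP.mul_right ih vz) mz
  have h0 : ∑ i ∈ Finset.range j, z ^ i = 0 := by
    have h1 := geom_sum_mul z j
    rw [zj, sub_self] at h1
    exact (mul_eq_zero.1 h1).resolve_right z1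
  have h2 : MP P (∑ i ∈ Finset.range j, (z ^ i - 1)) := DI.MP.sum _ _ fun i _ => hpow i
  rw [Finset.sum_sub_distrib, h0, zero_sub] at h2
  have h3 : MP P ((j : ℕ) : Om) := by
    have h4 := DI.MP.neg h2
    rw [neg_neg] at h4
    simpa using h4
  have h4 : ¬ 3 ∣ j := (Nat.Prime.coprime_iff_not_dvd Nat.prime_three).1 hj.symm
  exact (nat_UP hP h4).2 h3

theorem F2_cc {c : Gal(Om/ℚ)} (hcc : c * c = 1) (x : Om) : c (c x) = x :=
  congrArg (fun g : Gal(Om/ℚ) => g x) hcc

theorem F2_vp {c : Gal(Om/ℚ)} (hcc : c * c = 1) {Q : Ideal ZZ} [Q.IsPrime] {x : Om}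
    (h : VP (c • Q) x) : VP Q (c x) := by
  have h2 := (DI.VP.smul (P := c • Q) c (x := x)).2 h
  rwa [smul_smul, hcc, one_smul] at h2

/-- `τ w4 / w4` is a fourth root of unity. -/
theorem F2_w4 (τ : Gal(Om/ℚ)) {P : Ideal ZZ} [P.IsPrime] : τ w4 ≠ 0 ∧ UP P (τ w4 / w4) := by
  have h0 : τ w4 ≠ 0 := fun h => w4_ne ((map_eq_zero τ).1 h)
  refine ⟨h0, DI.UP.of_pow (n := 4) (by norm_num) ?_⟩
  have h1 : τ w4 ^ 4 = 3 := by rw [← map_pow, w4_pow, map_ofNat]
  rw [div_pow, w4_pow, h1, div_self (by norm_num)]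
  exact DI.UP.one

/-- complex conjugation: the action on `Psi`, on the framing. -/
theorem F2_cj (hCj : DS.S_Cj) (hCj2 : DM.S_Cj) {c : Gal(Om/ℚ)} (hc : IsCj c) (hcc : c * c = 1)
    {n t : ℕ} [SqN n t] :
    (∀ τ ∈ GK n t, c * τ * c ∈ GK n t ∧ ∀ (N : ℕ) (a : Ideal (OO n t)), 0 < N → Psi τ N a →
      Psi (c * τ * c) N (cjI a)) ∧
    (∀ g : Gal(Om/ℚ), g ∉ GK n t → g⁻¹ * c ∈ GK n t) ∧
    ∀ b b' : Ideal (OO n t), G30 b → G30 b' → c (rO b b') = rO (cjI b) (cjI b') := by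
  have hci : c⁻¹ = c := inv_eq_of_mul_eq_one_left hcc
  have huniq : ∀ c' : Gal(Om/ℚ), (∀ x : Om, io (c' x) = (starRingEnd ℂ) (io x)) → c' = c := by
    intro c' h
    apply AlgEquiv.ext
    intro x
    apply io_inj
    rw [h, hc]
  obtain ⟨c1, h1, h2⟩ := hCj
  obtain rfl := huniq c1 h1
  obtain ⟨c2, h3, h4⟩ := hCj2
  obtain rfl := huniq c2 h3
  obtain ⟨a1, a2, -⟩ := h2 n t
  refine ⟨fun τ hτ => ?_, fun g hg => ?_, fun b b' hb hb' => ?_⟩
  · have h5 := a1 τ hτ
    rw [hci] at h5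
    exact h5
  · rcases a2 g with h5 | h5
    · exact absurd h5 hg
    · have h6 := inv_mem h5
      rw [mul_inv_rev, hci] at h6
      exact h6
  · exact ((h4 n t).2.1 b hb).2.2.2.2 b' hb'

end Pool.Agent.DM.DU.F
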