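import Pool.Agent.Lib.DU.F.F2a

/-!
# Theorem DU, part F, module `F2b`: the leading coefficient (if `χ` is not invariant under conjugation) (helper79)

Adapted from `DR/F/F2b.lean` (helper12).
-/

set_option autoImplicit false
set_option linter.unusedSectionVars false

open scoped Pointwise

noncomputable section

namespace Pool.Agent.DM.DU.F

open Pool.Agent.MuZ Pool.Agent.FW NumberField IsDedekindDomain Pool.Agent.DN Pool.Agent.DN.F
open Pool.Agent.DI (io ofC io_inj exists_io io_ofC ofC_io VP MP UP TP ex)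

/-- `Z_b(β) = κ(b)^k (fr(1)/fr(b)) σ_b(β)`. -/
def F2Z {n t : ℕ} (k : ℕ) (σ : Ideal (OO n t) → Gal(Om/ℚ)) (b : Ideal (OO n t)) (β : Om) : Om :=
  kp b ^ k * (rO b ⊤ * σ b β)

/-- **The main step.** -/
theorem F2_key (hE1 : DS.S_E1) (hE7 : DS.S_E7) (hCj : DS.S_Cj) (hCj2 : DM.S_Cj) (hKf : S_Kf)
    (hGc : S_Gc) (hKap : S_Kap) (hBet : S_Bet) {n t : ℕ} [Ram3 n t] {f k : ℕ}
    {R : Finset (Ideal (OO n t))} (hf : Fok f) (hFR : FR f R) (hR : IsRC f R)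
    {χ : Ideal (OO n t) → Om} (hχ : IsChi (3 * f) χ) (hN : Ncj χ) {P : Ideal ZZ} (hP : Ab3 P)
    (hk : k = 1 ∨ k = 2) (hTy : Ty P f χ (k - 1)) {σ : Ideal (OO n t) → Gal(Om/ℚ)}
    (hσ : IsSig n t f σ) {c : Gal(Om/ℚ)} (hc : IsCj c) (s : ℤ) (S : Set Om)
    (hS : ∀ w ∈ S, w ∈ Kf n t f f ∧ ∀ Q : Ideal ZZ, Ab3 Q → ∀ τ ∈ GK n t, VP Q (τ w))
    (hS'' : ∀ w ∈ S, MP P (∑ b ∈ R, kpp k χ b * σ b w)) {b1 : Ideal (OO n t)} (hb1 : FB f b1) :
    ∃ β ∈ Kf n t f f, (∀ Q : Ideal ZZ, Ab3 Q → ∀ τ ∈ GK n t, VP Q (τ β)) ∧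
      (∀ w ∈ S, MP P (∑ b ∈ R, σ b (β * w))) ∧ ∃ Q : Ideal ZZ, Ab3 Q ∧
        ¬ MP Q ((F2Z k σ b1 β - s * c (F2Z k σ b1 β)) / w4 ^ k) := by
  classical
  have hPp : P.IsPrime := hP.1.1
  have h3f : 0 < 3 * f := three_f hf
  have h15 : 15 ∣ 3 * f := d15 hf
  obtain ⟨-, -, -, -, -, -, -, k9, k10⟩ := hKf n t f hf
  obtain ⟨hcc, -⟩ := k9 c hc
  obtain ⟨τ0, hτ0, hτ0K⟩ := k10 P hP
  obtain ⟨g1, -, -, g4, g5⟩ := hGc n t f hf
  obtain ⟨p1, p2⟩ := hKap n t f k hf χ hχ P hP hk hTy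
  obtain ⟨j1, j2, j3⟩ := F2_cj hCj hCj2 hc hcc (n := n) (t := t)
  have htop : FB f (⊤ : Ideal (OO n t)) := fb_top f
  have hfbm : ∀ a b : Ideal (OO n t), FB f a → FB f b → FB f (a * b) := fun a b h h' => fb_mul h h'
  have hw0 : w4 ^ k ≠ 0 := pow_ne_zero k w4_ne
  -- `g = τ0⁻¹ c`
  obtain ⟨g, hg⟩ : ∃ g : Gal(Om/ℚ), g = τ0⁻¹ * c := ⟨_, rfl⟩
  have hgK : g ∈ GK n t := by
    rw [hg]
    exact j2 τ0 hτ0K
  have hcg : ∀ x : Om, c x = τ0 (g x) := by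
    intro x
    rw [hg, ← AlgEquiv.mul_apply, mul_inv_cancel_left]
  obtain ⟨k0, hk0⟩ := (hE1 n t (3 * f) h3f h15).1 g hgK
  have hfk0 : FB f k0 := fb_psi hk0
  -- the action of `c` on the framing
  have hcr : ∀ b b' : Ideal (OO n t), FB f b → FB f b' → c (rO b b') = rO (cjI b) (cjI b') :=
    fun b b' hb hb' => j3 b b' (fb_g30 hf hb) (fb_g30 hf hb')
  have hcjt : cjI (⊤ : Ideal (OO n t)) = ⊤ := cjI_top
  have hcjf : ∀ b : Ideal (OO n t), FB f b → FB f (cjI b) := fun b hb => fb_cj hb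
  obtain ⟨ι, hι⟩ : ∃ ι : Om, ι = τ0 w4 / w4 := ⟨_, rfl⟩
  have hιU : UP P ι := by
    rw [hι]
    exact (F2_w4 τ0).2
  by_contra hcon
  push Not at hcon
  -- the congruence for one class `e'`
  have main : ∀ e' : Ideal (OO n t), FB f e' →
      MP P (χ e' - s * ι ^ k * (χ k0 * rO ⊤ k0) * χ (cjI e')) := by
    intro e' he'
    have he'' : FB f (cjI e') := hcjf e' he'
    obtain ⟨u, huK, hu⟩ := hE7 n t (3 * f) e' h3f h15 he'.ne he'.prm
    -- `u' = c u c`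
    obtain ⟨hu'K, hu''⟩ := j1 u huK
    have hu' : Psi (c * u * c) (3 * f) (cjI e') := hu'' (3 * f) e' h3f hu
    have hgu : Psi (g * (c * u * c)) (3 * f) (k0 * cjI e') := Eb.psi_mul hk0 hu'
    have hguK : g * (c * u * c) ∈ GK n t := mul_mem hgK hu'K
    have hf1 : FB f (e' * b1) := hfbm _ _ he' hb1
    have hf2 : FB f (k0 * cjI e' * b1) := hfbm _ _ (hfbm _ _ hfk0 he'') hb1
    have hf3 : FB f (k0 * cjI e') := hfbm _ _ hfk0 he''
    obtain ⟨i1, hi1, hr1⟩ := hR.ex _ hf1.ne (fb_f hf1).cop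
    obtain ⟨i2, hi2, hr2⟩ := hR.ex _ hf2.ne (fb_f hf2).cop
    -- the coefficients
    have hl1 : UP P (rO (e' * b1) e') := by
      have h1 := (p1 (e' * b1) hf1).2.1
      have h2 := (p1 e' he').2.1
      have h3 := (g4 ⊤ htop).2.2.2.1 (e' * b1) e' hf1 he'
      have h4 : rO (e' * b1) e' = rO ⊤ e' * (rO ⊤ (e' * b1))⁻¹ := by
        rw [← h3]
        have := h1.ne_zero
        field_simp
      rw [h4]
      exact h2.mul h1.inv
    have hl2 : UP P (rO (k0 * cjI e' * b1) (k0 * cjI e')) := by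
      have h1 := (p1 _ hf2).2.1
      have h2 := (p1 _ hf3).2.1
      have h3 := (g4 ⊤ htop).2.2.2.1 _ _ hf2 hf3
      have h4 : rO (k0 * cjI e' * b1) (k0 * cjI e') =
          rO ⊤ (k0 * cjI e') * (rO ⊤ (k0 * cjI e' * b1))⁻¹ := by
        rw [← h3]
        have := h1.ne_zero
        field_simp
      rw [h4]
      exact h2.mul h1.inv
    have hx1 : UP P ((kp (e' * b1) / w4) ^ k) := (p1 _ hf1).2.2.1.pow k
    have hx2 : UP P ((kp (k0 * cjI e' * b1) / w4) ^ k) := (p1 _ hf2).2.2.1.pow k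
    obtain ⟨l1, hl1e⟩ : ∃ l1 : Om, l1 = (kp (e' * b1) / w4) ^ k * rO (e' * b1) e' := ⟨_, rfl⟩
    obtain ⟨l2, hl2e⟩ : ∃ l2 : Om, l2 = -(s * ι ^ k * ((kp (k0 * cjI e' * b1) / w4) ^ k *
      rO (k0 * cjI e' * b1) (k0 * cjI e'))) := ⟨_, rfl⟩
    have hv1 : VP P l1 := by
      rw [hl1e]
      exact hx1.1.mul hl1.1
    have hv2' : VP P ((s : Om) * ι ^ k) := (DI.VP.int s).mul (hιU.1.pow k)
    have hv2 : VP P l2 := by
      rw [hl2e]
      exact (hv2'.mul (hx2.1.mul hl2.1)).neg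
    have hkR : ∀ b ∈ R, VP P (kpp k χ b) := fun b hb => (p1 b (hFR b hb)).2.2.2.1
    -- the functional vanishes at `κ`
    have hvan : MP P (l1 * kpp k χ i1 + l2 * kpp k χ i2) := by
      by_contra hne
      obtain ⟨β, hβK, hβ1, hβ2, hβ3⟩ := hBet n t f R hf hFR hR P hP σ hσ
        (kpp k χ) S hkR hS hS'' i1 hi1 i2 hi2 l1 l2 hv1 hv2 hne
      have hQ : Ab3 (u⁻¹ • P) := ab3_smul u⁻¹ hP
      have h1 := hcon β hβK hβ2 hβ3 (u⁻¹ • P) hQ
      have h2 := (DI.MP.smul (P := u⁻¹ • P) u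
        (x := (F2Z k σ b1 β - s * c (F2Z k σ b1 β)) / w4 ^ k)).2 h1
      rw [smul_inv_smul, map_div₀, map_sub, map_mul, map_intCast, map_pow] at h2
      obtain ⟨s1, s2⟩ := g5 σ hσ f (Or.inl rfl) β hβK
      -- the two terms
      have t1 : u (F2Z k σ b1 β) = kp (e' * b1) ^ k * (rO (e' * b1) e' * σ i1 β) := by
        obtain ⟨a0, a1⟩ := g1 u huK e' hu b1 hb1
        have a2 := a1 ⊤ htop
        rw [Ideal.mul_top] at a2
        unfold F2Z
        rw [map_mul, map_mul, map_pow, a0, a2, (s2 u huK e' hu b1 hb1).1,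
          s1 _ _ hf1 (hFR i1 hi1) hr1]
      obtain ⟨Z2, hZ2⟩ : ∃ Z2 : Om, Z2 = kp (k0 * cjI e' * b1) ^ k *
        (rO (k0 * cjI e' * b1) (k0 * cjI e') * σ i2 β) := ⟨_, rfl⟩
      have t2 : u (c (F2Z k σ b1 β)) = τ0 Z2 := by
        obtain ⟨a0, a1⟩ := g1 _ hguK _ hgu b1 hb1
        have a2 := a1 ⊤ htop
        rw [Ideal.mul_top] at a2
        have a3 : u (c (F2Z k σ b1 β)) = c ((c * u * c) (F2Z k σ b1 β)) := by
          rw [AlgEquiv.mul_apply, AlgEquiv.mul_apply, F2_cc hcc]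
        rw [a3, hcg, ← AlgEquiv.mul_apply g, hZ2]
        unfold F2Z
        rw [map_mul (g * (c * u * c)), map_mul (g * (c * u * c)), map_pow (g * (c * u * c)), a0,
          a2, (s2 _ hguK _ hgu b1 hb1).1, s1 _ _ hf2 (hFR i2 hi2) hr2]
      have hvZ : VP P (Z2 / w4 ^ k) := by
        have e : Z2 / w4 ^ k = (kp (k0 * cjI e' * b1) / w4) ^ k *
            (rO (k0 * cjI e' * b1) (k0 * cjI e') * σ i2 β) := by
          rw [hZ2, div_pow]
          ring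
        rw [e]
        exact hx2.1.mul (hl2.1.mul (hβ2 P hP _ (hσ.mem i2 (hFR i2 hi2))))
      have h3 := DI.VP.inertia hτ0 hvZ
      obtain ⟨u0, uU⟩ := F2_w4 (P := P) u
      have h4 := DI.MP.mul_right h2 (uU.1.pow k)
      apply hβ1
      have hu0 : u w4 ^ k ≠ 0 := pow_ne_zero k u0
      have ht0 : τ0 w4 ^ k ≠ 0 := pow_ne_zero k (F2_w4 (P := P) τ0).1
      have e : l1 * σ i1 β + l2 * σ i2 β =
          (u (F2Z k σ b1 β) - s * u (c (F2Z k σ b1 β))) / u w4 ^ k * (u w4 / w4) ^ k +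
          s * ι ^ k * (τ0 (Z2 / w4 ^ k) - Z2 / w4 ^ k) := by
        have e1 : (u (F2Z k σ b1 β) - s * u (c (F2Z k σ b1 β))) / u w4 ^ k * (u w4 / w4) ^ k =
            u (F2Z k σ b1 β) / w4 ^ k - s * u (c (F2Z k σ b1 β)) / w4 ^ k := by
          rw [div_pow]
          field_simp
        have e2 : ι ^ k * τ0 (Z2 / w4 ^ k) = τ0 Z2 / w4 ^ k := by
          rw [hι, map_div₀, map_pow, div_pow]
          field_simp
        have e3 : l1 * σ i1 β = u (F2Z k σ b1 β) / w4 ^ k := by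
          rw [hl1e, t1, div_pow]
          ring
        have e4 : l2 * σ i2 β = -(s * ι ^ k * (Z2 / w4 ^ k)) := by
          rw [hl2e, hZ2, div_pow]
          ring
        rw [e1, e3, e4, t2, mul_sub, mul_assoc (s : Om) (ι ^ k) (τ0 (Z2 / w4 ^ k)), e2]
        ring
      rw [e]
      exact DI.MP.add h4 (DI.MP.mul_left hv2' h3)
    -- replace the representatives
    have hd1 := p2 _ _ hf1 (hFR i1 hi1) hr1
    have hd2 := p2 _ _ hf2 (hFR i2 hi2) hr2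
    have hvan2 : MP P (l1 * kpp k χ (e' * b1) + l2 * kpp k χ (k0 * cjI e' * b1)) := by
      have e : l1 * kpp k χ (e' * b1) + l2 * kpp k χ (k0 * cjI e' * b1) =
          (l1 * kpp k χ i1 + l2 * kpp k χ i2) +
          (l1 * (kpp k χ (e' * b1) - kpp k χ i1) +
            l2 * (kpp k χ (k0 * cjI e' * b1) - kpp k χ i2)) := by ring
      rw [e]
      exact DI.MP.add hvan (DI.MP.add (DI.MP.mul_left hv1 hd1) (DI.MP.mul_left hv2 hd2))
    -- the quotients of the framings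
    have q1 := (g4 ⊤ htop).2.2.2.1 (e' * b1) e' hf1 he'
    have q2 := (g4 ⊤ htop).2.2.2.1 _ _ hf2 hf3
    have q3 := (g4 ⊤ htop).2.2.2.1 k0 (k0 * cjI e') hfk0 hf3
    have q4 : rO k0 (k0 * cjI e') = τ0⁻¹ (rO ⊤ e') := by
      have a1 := (g1 g hgK k0 hk0 ⊤ htop).2 (cjI e') he''
      rw [Ideal.mul_top] at a1
      have a2 := hcr ⊤ e' htop he'
      rw [hcjt] at a2
      rw [← a1, ← a2, hg, AlgEquiv.mul_apply, F2_cc hcc]
    have hre := (p1 e' he').2.1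
    have q5 : MP P (rO k0 (k0 * cjI e') - rO ⊤ e') := by
      rw [q4]
      exact DI.VP.inertia (inv_mem hτ0) hre.1
    have hz1 := hx1.ne_zero
    have hz2 := hx2.ne_zero
    have e : l1 * kpp k χ (e' * b1) + l2 * kpp k χ (k0 * cjI e' * b1) =
        χ b1 * rO ⊤ e' * (χ e' - s * ι ^ k * (χ k0 * rO ⊤ k0) * χ (cjI e')) -
          χ b1 * (s * ι ^ k * (χ k0 * rO ⊤ k0) * χ (cjI e')) *
            (rO k0 (k0 * cjI e') - rO ⊤ e') := by
      have m1 : l1 * kpp k χ (e' * b1) = χ e' * χ b1 * rO ⊤ e' := by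
        rw [hl1e, ← q1, ← hχ.mul]
        unfold kpp
        field_simp
      have m2 : l2 * kpp k χ (k0 * cjI e' * b1) = -(s * ι ^ k *
          (χ k0 * χ (cjI e') * χ b1 * (rO ⊤ k0 * rO k0 (k0 * cjI e')))) := by
        rw [hl2e, q3, ← q2, ← hχ.mul, ← hχ.mul]
        unfold kpp
        field_simp
      rw [m1, m2]
      ring
    rw [e] at hvan2
    have hv3 : MP P (χ b1 * rO ⊤ e' * (χ e' - s * ι ^ k * (χ k0 * rO ⊤ k0) * χ (cjI e'))) := by
      have h1 := DI.MP.add hvan2 (DI.MP.mul_left ((p1 b1 hb1).1.1.mul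
        ((hv2'.mul ((p1 k0 hfk0).1.1.mul (p1 k0 hfk0).2.1.1)).mul (p1 _ he'').1.1)) q5)
      rwa [sub_add_cancel] at h1
    have hub : UP P (χ b1 * rO ⊤ e') := (p1 b1 hb1).1.mul hre
    have h4 := DI.MP.mul_left hub.inv.1 hv3
    rwa [inv_mul_cancel_left₀ hub.ne_zero] at h4
  -- `e' = 1`
  obtain ⟨j, hj, hord⟩ := hχ.cop
  have hχt : χ ⊤ = 1 := by
    have h4 : χ ⊤ = χ ⊤ * χ ⊤ := by
      rw [← hχ.mul, Ideal.mul_top]
    exact (mul_eq_left₀ (p1 ⊤ htop).1.ne_zero).1 h4.symm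
  have hone := main ⊤ htop
  rw [hcjt, hχt, mul_one] at hone
  have hall : ∀ e' : Ideal (OO n t), FB f e' → χ (cjI e') = χ e' := by
    intro e' he'
    have he'' : FB f (cjI e') := hcjf e' he'
    symm
    refine F2_root hP hj (hord e' he'.ne he'.prm) (hord _ he''.ne he''.prm) ?_
    have e : χ e' - χ (cjI e') = (χ e' - s * ι ^ k * (χ k0 * rO ⊤ k0) * χ (cjI e')) -
        (1 - s * ι ^ k * (χ k0 * rO ⊤ k0)) * χ (cjI e') := by ring
    rw [e]
    exact DI.MP.sub (main e' he') (DI.MP.mul_right hone (p1 _ he'').1.1)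
  obtain ⟨b, hb⟩ := hN
  apply hb
  by_cases h : b ≠ ⊥ ∧ PrI b (3 * f)
  · exact hall b ⟨h.1, h.2⟩
  · have h1 : b = ⊥ ∨ ¬ PrI b (3 * f) := by
      by_contra h2
      push Not at h2
      exact h h2
    have h2 : cjI b = ⊥ ∨ ¬ PrI (cjI b) (3 * f) := by
      rcases h1 with h1 | h1
      · left
        by_contra h3
        have h4 := cjI_ne h3
        rw [cjI_cjI] at h4
        exact h4 h1
      · right
        rwa [pri_cj]
    rw [hχ.zero _ h1, hχ.zero _ h2]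

end Pool.Agent.DM.DU.F
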