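import Pool.Agent.Lib.DM.IfaceE
import Pool.Agent.Lib.DN.F.Gt

/-!
# Theorem DU (`p = 3`), part F: the function `G`, `G(v)³ = y(3 v)`, author helper79

Lattice `O`, second framing; `T` a point of order three, `x = X - X(T)`, `W² = 4 x³ + (a x + b)²`, `b = W(T)`,
`y = (W - a x - b)/2` (the tangent at `T`; the divisor of `y` is `3 (T) - 3 (0)`). `Xt(v) = ∑ x(v + j T) + a²/3`,
`Vt(v) = ∑ W(v + j T)`, `q = 3 b - a³/9`: `Vt² = 4 Xt³ - 3 (a Xt + q)²`, `9 x(3 v) Xt² = Xt³ - a² Xt² - 3 a q Xt - 3 q²`,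
`27 W(3 v) Xt³ = Vt (Xt³ + 3 a q Xt + 6 q²)`, `G = (Vt - a Xt - 3 q)/(6 Xt)`. (Adapted from `DM/F/Gt3.lean`.)
-/

set_option autoImplicit false
set_option linter.unusedSectionVars false

open scoped Pointwise Topology MatrixGroups
open Filter

noncomputable section

namespace Pool.Agent.DM.DU.F.Gt3

open Pool.Agent.MuZ Pool.Agent.FW NumberField IsDedekindDomain Pool.Agent.DN Pool.Agent.DN.F

/-- A point of order three. -/
structure Thr (n t : ℕ) (T : ℂ) : Prop where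
  ne : T ∉ Lam (⊤ : Ideal (OO n t))
  ne2 : 2 * T ∉ Lam (⊤ : Ideal (OO n t))
  three : 3 * T ∈ Lam (⊤ : Ideal (OO n t))

/-- `x(v) = X(v) - X(T)`. -/
def xS (n t : ℕ) (T v : ℂ) : ℂ := XC (⊤ : Ideal (OO n t)) v - XC (⊤ : Ideal (OO n t)) T

/-- `b = W(T)`. -/
def bS (n t : ℕ) (T : ℂ) : ℂ := WC (⊤ : Ideal (OO n t)) T

/-- `a`, `a b = 6 X(T)² + (1 - 8 c) X(T) + 2 c²`. -/
def aS (n t : ℕ) (T : ℂ) : ℂ :=
  (6 * XC (⊤ : Ideal (OO n t)) T ^ 2 + (1 - 8 * cC (⊤ : Ideal (OO n t))) * XC (⊤ : Ideal (OO n t)) T +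
    2 * cC (⊤ : Ideal (OO n t)) ^ 2) / WC (⊤ : Ideal (OO n t)) T

/-- `Xt(v) = x(v) + x(v + T) + x(v + 2 T) + a²/3`. -/
def Xt (n t : ℕ) (T v : ℂ) : ℂ :=
  xS n t T v + xS n t T (v + T) + xS n t T (v + 2 * T) + aS n t T ^ 2 / 3

/-- `Vt(v) = W(v) + W(v + T) + W(v + 2 T)`. -/
def Vt (n t : ℕ) (T v : ℂ) : ℂ :=
  WC (⊤ : Ideal (OO n t)) v + WC (⊤ : Ideal (OO n t)) (v + T) + WC (⊤ : Ideal (OO n t)) (v + 2 * T)

/-- `q = 3 b - a³/9`. -/
def qt (n t : ℕ) (T : ℂ) : ℂ := 3 * bS n t T - aS n t T ^ 3 / 9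

/-- The function `G`. -/
def G3 (n t : ℕ) (T v : ℂ) : ℂ :=
  (Vt n t T v - aS n t T * Xt n t T v - 3 * qt n t T) / (6 * Xt n t T v)

/-- The properties of `G`. -/
structure IsG3 (n t : ℕ) (T : ℂ) (G : ℂ → ℂ) : Prop where
  mer : Meromorphic G
  cub : ∀ v : ℂ, 3 * v ∉ Lam (⊤ : Ideal (OO n t)) →
    G v ^ 3 = (WC (⊤ : Ideal (OO n t)) (3 * v) - aS n t T * xS n t T (3 * v) - bS n t T) / 2
  per : ∀ (v : ℂ) (α : OO n t), G (v + toC α) = G v
  third : ∀ v : ℂ, G (v + T) = G v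

/-! ## Algebra -/

/-- `3 x² Xt = ψ`. -/
private theorem alg_X {x p m a b X : ℂ} (h1 : (p + m) * x ^ 2 = a * b * x + b ^ 2)
    (hX : X = x + p + m + a ^ 2 / 3) :
    3 * x ^ 2 * X = 3 * x ^ 3 + a ^ 2 * x ^ 2 + 3 * a * b * x + 3 * b ^ 2 := by
  rw [hX]
  linear_combination 3 * h1

private theorem alg_V2 {x a b q X V W : ℂ} (hx : x ≠ 0)
    (hX : 3 * x ^ 2 * X = 3 * x ^ 3 + a ^ 2 * x ^ 2 + 3 * a * b * x + 3 * b ^ 2)
    (hV : x ^ 3 * V = (x ^ 3 - a * b * x - 2 * b ^ 2) * W) (hW : W ^ 2 = 4 * x ^ 3 + (a * x + b) ^ 2)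
    (hq : q = 3 * b - a ^ 3 / 9) : V ^ 2 = 4 * X ^ 3 - 3 * (a * X + q) ^ 2 := by
  have h1 : X = (3 * x ^ 3 + a ^ 2 * x ^ 2 + 3 * a * b * x + 3 * b ^ 2) / (3 * x ^ 2) := by
    rw [eq_div_iff (mul_ne_zero three_ne_zero (pow_ne_zero 2 hx))]
    linear_combination hX
  have h2 : x ^ 6 * V ^ 2 = (x ^ 3 - a * b * x - 2 * b ^ 2) ^ 2 * (4 * x ^ 3 + (a * x + b) ^ 2) := by
    rw [← hW]
    linear_combination (x ^ 3 * V + (x ^ 3 - a * b * x - 2 * b ^ 2) * W) * hV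
  apply mul_left_cancel₀ (pow_ne_zero 6 hx)
  rw [h2, h1, hq]
  field_simp
  ring

private theorem alg_D {x a b q X D N S : ℂ} (hx : x ≠ 0)
    (hX : 3 * x ^ 2 * X = 3 * x ^ 3 + a ^ 2 * x ^ 2 + 3 * a * b * x + 3 * b ^ 2)
    (hN : N = x ^ 4 - a * b * x ^ 2 - 2 * b ^ 2 * x) (hS : S = 4 * x ^ 3 + (a * x + b) ^ 2)
    (hq : q = 3 * b - a ^ 3 / 9)
    (hD : D * (N - x * S) ^ 2 = 2 * N * x * (N + x * S) + a ^ 2 * N * x * S +
      a * b * (N + x * S) * S + b ^ 2 * S ^ 2 - x * (N - x * S) ^ 2) :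
    9 * D * X ^ 2 = X ^ 3 - a ^ 2 * X ^ 2 - 3 * a * q * X - 3 * q ^ 2 := by
  have h1 : X = (3 * x ^ 3 + a ^ 2 * x ^ 2 + 3 * a * b * x + 3 * b ^ 2) / (3 * x ^ 2) := by
    rw [eq_div_iff (mul_ne_zero three_ne_zero (pow_ne_zero 2 hx))]
    linear_combination hX
  have h2 : N - x * S = -(3 * x ^ 3 * X) := by
    rw [hN, hS]
    linear_combination x * hX
  have h3 : 27 * (2 * N * x * (N + x * S) + a ^ 2 * N * x * S +
      a * b * (N + x * S) * S + b ^ 2 * S ^ 2 - x * (N - x * S) ^ 2) =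
      27 * x ^ 6 * X ^ 3 - 27 * a ^ 2 * x ^ 6 * X ^ 2 - 81 * a * q * x ^ 6 * X -
        81 * q ^ 2 * x ^ 6 := by
    rw [h1, hN, hS, hq]
    field_simp
    ring
  apply mul_left_cancel₀ (pow_ne_zero 6 hx)
  rw [h2] at hD
  have h4 : D * (-(3 * x ^ 3 * X)) ^ 2 = 9 * x ^ 6 * D * X ^ 2 := by ring
  rw [h4] at hD
  rw [← h2] at hD
  linear_combination hD + h3 / 27

private theorem alg_G {a b q X V D E : ℂ} (hX : X ≠ 0) (hq : q = 3 * b - a ^ 3 / 9)
    (hV : V ^ 2 = 4 * X ^ 3 - 3 * (a * X + q) ^ 2)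
    (hD : 9 * D * X ^ 2 = X ^ 3 - a ^ 2 * X ^ 2 - 3 * a * q * X - 3 * q ^ 2)
    (hE : 27 * E * X ^ 3 = V * (X ^ 3 + 3 * a * q * X + 6 * q ^ 2)) :
    ((V - a * X - 3 * q) / (6 * X)) ^ 3 = (E - a * D - b) / 2 := by
  rw [div_pow, div_eq_div_iff (pow_ne_zero 3 (mul_ne_zero (by norm_num) hX)) two_ne_zero]
  linear_combination (2 * (V - 3 * (a * X + 3 * q))) * hV - 8 * hE + 24 * a * X * hD -
    72 * X ^ 3 * hq

/-- The discriminant. -/
private theorem alg_ds {a b e g c : ℂ} (h1 : a ^ 2 = 12 * e + g) (h2 : a * b = 6 * e ^ 2 + g * e + 2 * c ^ 2)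
    (h3 : b ^ 2 = 4 * e ^ 3 + g * e ^ 2 + 4 * c ^ 2 * e) (hg : g = 1 - 8 * c) (hc : c ≠ 0)
    (hd : 16 * c ≠ 1) : 3 * b - a ^ 3 / 9 ≠ 0 := by
  intro h
  have hb : b = a ^ 3 / 27 := by linear_combination h / 3
  obtain ⟨X, hX⟩ : ∃ X, X = e - a ^ 2 / 9 := ⟨_, rfl⟩
  have he : e = X + a ^ 2 / 9 := by rw [hX]; ring
  have h4 : X * (4 * X ^ 2 + g * X + 4 * c ^ 2) = 0 := by
    rw [hb] at h2 h3
    rw [hX]
    linear_combination (a ^ 2 / 9) * (2 * h2) - h3 - (a ^ 2 / 9) ^ 2 * h1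
  have h5 : 12 * X ^ 2 + 2 * g * X + 4 * c ^ 2 = 0 := by
    rw [hb] at h2
    rw [hX]
    linear_combination (-2 : ℂ) * h2 + (2 * a ^ 2 / 9) * h1
  rcases mul_eq_zero.1 h4 with h6 | h6
  · rw [h6] at h5
    apply hc
    have h7 : c ^ 2 = 0 := by linear_combination h5 / 4
    exact pow_eq_zero_iff (two_ne_zero) |>.1 h7
  · have h7 : (X - c) * (X + c) = 0 := by linear_combination h5 / 4 - h6 / 2
    rcases mul_eq_zero.1 h7 with h8 | h8
    · have h9 : X = c := sub_eq_zero.1 h8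
      rw [h9, hg] at h6
      have h10 : c * 1 = 0 := by linear_combination h6
      rw [mul_one] at h10
      exact hc h10
    · have h9 : X = -c := eq_neg_of_add_eq_zero_left h8
      rw [h9, hg] at h6
      have h10 : c * (16 * c - 1) = 0 := by linear_combination h6
      rcases mul_eq_zero.1 h10 with h11 | h11
      · exact hc h11
      · exact hd (sub_eq_zero.1 h11)

/-! ## The model -/

section main

variable {n t : ℕ} [SqN n t] {T : ℂ}

theorem aBC (hBC : S_BC) (n t : ℕ) [SqN n t] : BC (⊤ : Ideal (OO n t)) :=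
  (hBC n t ⊤ Eb.ne_top (Eb.pri_top 2)).1

/-- The relations between `a`, `b`, `X(T)`. -/
theorem mdl (hBC : S_BC) (hT : Thr n t T) : bS n t T ≠ 0 ∧
    aS n t T ^ 2 = 12 * XC (⊤ : Ideal (OO n t)) T + (1 - 8 * cC (⊤ : Ideal (OO n t))) ∧
    aS n t T * bS n t T = 6 * XC (⊤ : Ideal (OO n t)) T ^ 2 +
      (1 - 8 * cC (⊤ : Ideal (OO n t))) * XC (⊤ : Ideal (OO n t)) T +
      2 * cC (⊤ : Ideal (OO n t)) ^ 2 ∧
    bS n t T ^ 2 = 4 * XC (⊤ : Ideal (OO n t)) T ^ 3 +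
      (1 - 8 * cC (⊤ : Ideal (OO n t))) * XC (⊤ : Ideal (OO n t)) T ^ 2 +
      4 * cC (⊤ : Ideal (OO n t)) ^ 2 * XC (⊤ : Ideal (OO n t)) T ∧
    3 * XC (⊤ : Ideal (OO n t)) T ^ 4 + (1 - 8 * cC (⊤ : Ideal (OO n t))) *
      XC (⊤ : Ideal (OO n t)) T ^ 3 + 6 * cC (⊤ : Ideal (OO n t)) ^ 2 *
      XC (⊤ : Ideal (OO n t)) T ^ 2 - cC (⊤ : Ideal (OO n t)) ^ 4 = 0 := by
  have hb := aBC hBC n t
  have h0 : WC (⊤ : Ideal (OO n t)) T ≠ 0 := fun h => hT.ne2 ((hb.two T hT.ne).1 h)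
  have h1 := hb.crv T hT.ne
  have h2 := hb.dup T hT.ne2
  have h3 : XC (⊤ : Ideal (OO n t)) (2 * T) = XC (⊤ : Ideal (OO n t)) T := by
    have h4 := (hb.per (-T) (3 * T) hT.three).1
    rw [(hb.neg T).1] at h4
    have e : -T + 3 * T = 2 * T := by ring
    rwa [e] at h4
  rw [h3, h1] at h2
  have hab : aS n t T * bS n t T = 6 * XC (⊤ : Ideal (OO n t)) T ^ 2 +
      (1 - 8 * cC (⊤ : Ideal (OO n t))) * XC (⊤ : Ideal (OO n t)) T +
      2 * cC (⊤ : Ideal (OO n t)) ^ 2 := by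
    unfold aS bS
    rw [div_mul_cancel₀ _ h0]
  have hψ : 3 * XC (⊤ : Ideal (OO n t)) T ^ 4 + (1 - 8 * cC (⊤ : Ideal (OO n t))) *
      XC (⊤ : Ideal (OO n t)) T ^ 3 + 6 * cC (⊤ : Ideal (OO n t)) ^ 2 *
      XC (⊤ : Ideal (OO n t)) T ^ 2 - cC (⊤ : Ideal (OO n t)) ^ 4 = 0 := by
    linear_combination h2
  refine ⟨h0, ?_, hab, h1, hψ⟩
  have h5 : bS n t T ^ 2 * aS n t T ^ 2 = bS n t T ^ 2 *
      (12 * XC (⊤ : Ideal (OO n t)) T + (1 - 8 * cC (⊤ : Ideal (OO n t)))) := by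
    have h6 : bS n t T ^ 2 = 4 * XC (⊤ : Ideal (OO n t)) T ^ 3 +
      (1 - 8 * cC (⊤ : Ideal (OO n t))) * XC (⊤ : Ideal (OO n t)) T ^ 2 +
      4 * cC (⊤ : Ideal (OO n t)) ^ 2 * XC (⊤ : Ideal (OO n t)) T := h1
    have h7 : bS n t T ^ 2 * aS n t T ^ 2 = (6 * XC (⊤ : Ideal (OO n t)) T ^ 2 +
      (1 - 8 * cC (⊤ : Ideal (OO n t))) * XC (⊤ : Ideal (OO n t)) T +
      2 * cC (⊤ : Ideal (OO n t)) ^ 2) ^ 2 := by
      rw [← hab]
      ring
    rw [h7, h6]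
    linear_combination (-4 : ℂ) * hψ
  exact mul_left_cancel₀ (pow_ne_zero 2 h0) h5

theorem qt_ne (hBC : S_BC) (hT : Thr n t T) : qt n t T ≠ 0 := by
  obtain ⟨-, h1, h2, h3, -⟩ := mdl hBC hT
  have hb := aBC hBC n t
  exact alg_ds h1 h2 h3 rfl hb.c0 hb.dsc

/-- The curve. -/
theorem crv (hBC : S_BC) (hT : Thr n t T) {z : ℂ} (hz : z ∉ Lam (⊤ : Ideal (OO n t))) :
    WC (⊤ : Ideal (OO n t)) z ^ 2 = 4 * xS n t T z ^ 3 + (aS n t T * xS n t T z + bS n t T) ^ 2 := by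
  obtain ⟨-, h1, h2, h3, -⟩ := mdl hBC hT
  have h4 := (aBC hBC n t).crv z hz
  have h5 : XC (⊤ : Ideal (OO n t)) z = xS n t T z + XC (⊤ : Ideal (OO n t)) T := by
    unfold xS
    ring
  rw [h4, h5]
  linear_combination (-(xS n t T z ^ 2)) * h1 - (2 * xS n t T z) * h2 - h3

/-- The Kummer line. -/
theorem kad (hBC : S_BC) (hT : Thr n t T) {z z' : ℂ} (hz : z ∉ Lam (⊤ : Ideal (OO n t)))
    (hz' : z' ∉ Lam (⊤ : Ideal (OO n t))) (hp : z + z' ∉ Lam (⊤ : Ideal (OO n t)))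
    (hm : z - z' ∉ Lam (⊤ : Ideal (OO n t))) :
    (xS n t T (z + z') + xS n t T (z - z')) * (xS n t T z - xS n t T z') ^ 2 =
      2 * xS n t T z * xS n t T z' * (xS n t T z + xS n t T z') +
        aS n t T ^ 2 * (xS n t T z * xS n t T z') +
        aS n t T * bS n t T * (xS n t T z + xS n t T z') + bS n t T ^ 2 := by
  obtain ⟨-, h1, h2, h3, -⟩ := mdl hBC hT
  have h4 := (aBC hBC n t).kad z z' hz hz' hp hm
  have h5 : ∀ v : ℂ, XC (⊤ : Ideal (OO n t)) v = xS n t T v + XC (⊤ : Ideal (OO n t)) T := by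
    intro v
    unfold xS
    ring
  rw [h5 (z + z'), h5 (z - z'), h5 z, h5 z'] at h4
  linear_combination h4 - (xS n t T z * xS n t T z') * h1 - (xS n t T z + xS n t T z') * h2 - h3

/-- Duplication. -/
theorem dup (hBC : S_BC) (hT : Thr n t T) {z : ℂ} (hz : 2 * z ∉ Lam (⊤ : Ideal (OO n t))) :
    xS n t T (2 * z) * WC (⊤ : Ideal (OO n t)) z ^ 2 =
      xS n t T z ^ 4 - aS n t T * bS n t T * xS n t T z ^ 2 - 2 * bS n t T ^ 2 * xS n t T z := by
  obtain ⟨-, h1, h2, h3, h6⟩ := mdl hBC hT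
  have hz1 : z ∉ Lam (⊤ : Ideal (OO n t)) := by
    intro h
    apply hz
    have e : 2 * z = z + z := by ring
    rw [e]
    exact lam_add h h
  have h4 := (aBC hBC n t).dup z hz
  have h7 := (aBC hBC n t).crv z hz1
  have h5 : ∀ v : ℂ, XC (⊤ : Ideal (OO n t)) v = xS n t T v + XC (⊤ : Ideal (OO n t)) T := by
    intro v
    unfold xS
    ring
  rw [h5 (2 * z), h5 z] at h4
  rw [h5 z] at h7
  linear_combination h4 - XC (⊤ : Ideal (OO n t)) T * h7 + (xS n t T z ^ 2) * h2 +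
    (2 * xS n t T z) * h3 - h6

theorem lam3 {v : ℂ} (h : v ∈ Lam (⊤ : Ideal (OO n t))) : 3 * v ∈ Lam (⊤ : Ideal (OO n t)) := by
  have e : 3 * v = v + v + v := by ring
  rw [e]
  exact lam_add (lam_add h h) h

/-- The points near `v`. -/
theorem ev3 {v : ℂ} (hv : 3 * v ∉ Lam (⊤ : Ideal (OO n t))) :
    ∀ᶠ y in 𝓝 v, 3 * y ∉ Lam (⊤ : Ideal (OO n t)) := by
  have hO := DN.F.Gt.open_compl (n := n) (t := t) (b := ⊤) Eb.ne_top
  have hc : Tendsto (fun y : ℂ => 3 * y) (𝓝 v) (𝓝 (3 * v)) :=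
    (continuous_const.mul continuous_id).tendsto v
  exact hc.eventually (hO.mem_nhds hv)

/-- The points `v`, `v ± T`. -/
theorem pts (hT : Thr n t T) {v : ℂ} (hv : 3 * v ∉ Lam (⊤ : Ideal (OO n t))) :
    v ∉ Lam (⊤ : Ideal (OO n t)) ∧ v + T ∉ Lam (⊤ : Ideal (OO n t)) ∧
    v - T ∉ Lam (⊤ : Ideal (OO n t)) ∧ v + 2 * T ∉ Lam (⊤ : Ideal (OO n t)) := by
  refine ⟨fun h => hv (lam3 h), fun h => hv ?_, fun h => hv ?_, fun h => hv ?_⟩
  · have h1 := lam_sub (lam3 h) hT.three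
    have e : 3 * (v + T) - 3 * T = 3 * v := by ring
    rwa [e] at h1
  · have h1 := lam_add (lam3 h) hT.three
    have e : 3 * (v - T) + 3 * T = 3 * v := by ring
    rwa [e] at h1
  · have h1 := lam_sub (lam_sub (lam3 h) hT.three) hT.three
    have e : 3 * (v + 2 * T) - 3 * T - 3 * T = 3 * v := by ring
    rwa [e] at h1

/-- The functions at `v + 2 T` and `v - T`. -/
theorem X23 (hBC : S_BC) (hT : Thr n t T) (v : ℂ) :
    xS n t T (v + 2 * T) = xS n t T (v - T) ∧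
    WC (⊤ : Ideal (OO n t)) (v + 2 * T) = WC (⊤ : Ideal (OO n t)) (v - T) := by
  have h := (aBC hBC n t).per (v - T) (3 * T) hT.three
  have e : v - T + 3 * T = v + 2 * T := by ring
  rw [e] at h
  unfold xS
  rw [h.1, h.2]
  exact ⟨rfl, rfl⟩

/-- The data at a point `v` with `3 v ∉ Lam`, and the relations which need no derivative. -/
theorem base (hBC : S_BC) (hT : Thr n t T) {v : ℂ} (hv : 3 * v ∉ Lam (⊤ : Ideal (OO n t))) :
    xS n t T v ≠ 0 ∧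
    3 * xS n t T v ^ 2 * Xt n t T v = 3 * xS n t T v ^ 3 + aS n t T ^ 2 * xS n t T v ^ 2 +
      3 * aS n t T * bS n t T * xS n t T v + 3 * bS n t T ^ 2 ∧
    9 * xS n t T (3 * v) * Xt n t T v ^ 2 = Xt n t T v ^ 3 - aS n t T ^ 2 * Xt n t T v ^ 2 -
      3 * aS n t T * qt n t T * Xt n t T v - 3 * qt n t T ^ 2 := by
  obtain ⟨p1, p2, p3, p4⟩ := pts hT hv
  have hb := aBC hBC n t
  have hX0 : xS n t T v ≠ 0 := by
    intro h
    have h1 : XC (⊤ : Ideal (OO n t)) v = XC (⊤ : Ideal (OO n t)) T := sub_eq_zero.1 h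
    rcases (hb.inj v T p1 hT.ne).1 h1 with h2 | h2
    · exact p3 h2
    · exact p2 h2
  have hxT : xS n t T T = 0 := sub_self _
  -- the sum
  have hsum := kad hBC hT p1 hT.ne p2 p3
  rw [hxT] at hsum
  have hX : Xt n t T v = xS n t T v + xS n t T (v + T) + xS n t T (v - T) + aS n t T ^ 2 / 3 := by
    unfold Xt
    rw [(X23 hBC hT v).1]
  have hXt := alg_X (x := xS n t T v) (p := xS n t T (v + T)) (m := xS n t T (v - T))
    (a := aS n t T) (b := bS n t T) (X := Xt n t T v) (by linear_combination hsum) hX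
  refine ⟨hX0, hXt, ?_⟩
  have hW2 := crv hBC hT p1
  refine alg_D hX0 hXt rfl rfl rfl ?_
  by_cases h2 : 2 * v ∈ Lam (⊤ : Ideal (OO n t))
  · -- `2 v` is a period
    have e3 : xS n t T (3 * v) = xS n t T v := by
      have h := hb.per v (2 * v) h2
      have e : v + 2 * v = 3 * v := by ring
      rw [e] at h
      unfold xS
      rw [h.1]
    have hw : WC (⊤ : Ideal (OO n t)) v = 0 := (hb.two v p1).2 h2
    rw [hw, zero_pow two_ne_zero] at hW2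
    rw [e3, ← hW2]
    ring
  · have hdup := dup hBC hT h2
    have hv3 : 2 * v + v ∉ Lam (⊤ : Ideal (OO n t)) := by
      have e : 2 * v + v = 3 * v := by ring
      rw [e]
      exact hv
    have hv1 : 2 * v - v ∉ Lam (⊤ : Ideal (OO n t)) := by
      have e : 2 * v - v = v := by ring
      rw [e]
      exact p1
    have hs := kad hBC hT h2 p1 hv3 hv1
    have e1 : 2 * v + v = 3 * v := by ring
    have e2 : 2 * v - v = v := by ring
    rw [e1, e2] at hs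
    rw [hW2] at hdup
    rw [← hdup]
    generalize xS n t T (3 * v) = D at hs ⊢
    generalize xS n t T (2 * v) = E at hs hdup ⊢
    generalize xS n t T v = x at hs hdup ⊢
    generalize aS n t T = a at hs hdup ⊢
    generalize bS n t T = b at hs hdup ⊢
    linear_combination (4 * x ^ 3 + (a * x + b) ^ 2) ^ 2 * hs

/-- The derivatives. -/
theorem ders (hBC : S_BC) (hT : Thr n t T) {v : ℂ} (hv : 3 * v ∉ Lam (⊤ : Ideal (OO n t))) :
    HasDerivAt (xS n t T) (fr (⊤ : Ideal (OO n t)) * WC (⊤ : Ideal (OO n t)) v) v ∧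
    HasDerivAt (Xt n t T) (fr (⊤ : Ideal (OO n t)) * Vt n t T v) v ∧
    HasDerivAt (fun y => xS n t T (3 * y))
      (3 * (fr (⊤ : Ideal (OO n t)) * WC (⊤ : Ideal (OO n t)) (3 * v))) v := by
  obtain ⟨p1, p2, p3, p4⟩ := pts hT hv
  have hb := aBC hBC n t
  have hx : ∀ z : ℂ, z ∉ Lam (⊤ : Ideal (OO n t)) →
      HasDerivAt (xS n t T) (fr (⊤ : Ideal (OO n t)) * WC (⊤ : Ideal (OO n t)) z) z :=
    fun z hz => (hb.drx z hz).sub_const _
  have d1 := hx v p1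
  have d2 := (hx (v + T) p2).comp_add_const v T
  have d3 := (hx (v + 2 * T) p4).comp_add_const v (2 * T)
  have d4 := hx (3 * v) hv
  refine ⟨d1, ?_, ?_⟩
  · have h := ((d1.add d2).add d3).add_const (aS n t T ^ 2 / 3)
    have e : fr (⊤ : Ideal (OO n t)) * Vt n t T v =
        fr (⊤ : Ideal (OO n t)) * WC (⊤ : Ideal (OO n t)) v +
        fr (⊤ : Ideal (OO n t)) * WC (⊤ : Ideal (OO n t)) (v + T) +
        fr (⊤ : Ideal (OO n t)) * WC (⊤ : Ideal (OO n t)) (v + 2 * T) := by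
      unfold Vt
      ring
    rw [e]
    exact h
  · have h3 : HasDerivAt (fun y : ℂ => 3 * y) 3 v := by
      have h := (hasDerivAt_id v).const_mul (3 : ℂ)
      rw [mul_one] at h
      exact h
    have h := HasDerivAt.comp v d4 h3
    rw [mul_comm (3 : ℂ)]
    exact h

/-- The cube. -/
theorem cube (hBC : S_BC) (hT : Thr n t T) {v : ℂ} (hv : 3 * v ∉ Lam (⊤ : Ideal (OO n t))) :
    G3 n t T v ^ 3 = (WC (⊤ : Ideal (OO n t)) (3 * v) - aS n t T * xS n t T (3 * v) -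
      bS n t T) / 2 := by
  obtain ⟨p1, p2, p3, p4⟩ := pts hT hv
  have f1 := (aBC hBC n t).fr0
  obtain ⟨hx, hX, hD⟩ := base hBC hT hv
  obtain ⟨d1, d2, d3⟩ := ders hBC hT hv
  have hW2 := crv hBC hT p1
  have hX0 : Xt n t T v ≠ 0 := by
    intro h
    rw [h] at hD
    have h1 : qt n t T ^ 2 = 0 := by linear_combination (1 / 3 : ℂ) * hD
    exact qt_ne hBC hT (pow_eq_zero_iff (two_ne_zero) |>.1 h1)
  -- the derivative of the first relation
  have e1 : ∀ᶠ y in 𝓝 v, 3 * xS n t T y ^ 2 * Xt n t T y = 3 * xS n t T y ^ 3 +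
      aS n t T ^ 2 * xS n t T y ^ 2 + 3 * aS n t T * bS n t T * xS n t T y + 3 * bS n t T ^ 2 := by
    filter_upwards [ev3 hv] with y hy
    exact (base hBC hT hy).2.1
  have l1 := ((d1.pow 2).const_mul (3 : ℂ)).mul d2
  have r1 := ((((d1.pow 3).const_mul (3 : ℂ)).add ((d1.pow 2).const_mul
    (aS n t T ^ 2))).add (d1.const_mul (3 * aS n t T * bS n t T))).add_const (3 * bS n t T ^ 2)
  have q1 := l1.unique (r1.congr_of_eventuallyEq e1)
  have hV3 : xS n t T v ^ 3 * Vt n t T v = (xS n t T v ^ 3 - aS n t T * bS n t T * xS n t T v -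
      2 * bS n t T ^ 2) * WC (⊤ : Ideal (OO n t)) v := by
    apply mul_left_cancel₀ f1
    simp only [Pi.pow_apply] at q1
    generalize xS n t T v = x at q1 hX ⊢
    generalize WC (⊤ : Ideal (OO n t)) v = w at q1 ⊢
    generalize fr (⊤ : Ideal (OO n t)) = p at q1 ⊢
    norm_num at q1
    linear_combination (x / 3) * q1 - (2 / 3 * p * w) * hX
  have hV2 := alg_V2 hx hX hV3 hW2 rfl
  -- the derivative of the second relation
  have e2 : ∀ᶠ y in 𝓝 v, 9 * xS n t T (3 * y) * Xt n t T y ^ 2 = Xt n t T y ^ 3 -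
      aS n t T ^ 2 * Xt n t T y ^ 2 - 3 * aS n t T * qt n t T * Xt n t T y - 3 * qt n t T ^ 2 := by
    filter_upwards [ev3 hv] with y hy
    exact (base hBC hT hy).2.2
  have l2 := (d3.const_mul (9 : ℂ)).mul (d2.pow 2)
  have r2 := (((d2.pow 3).sub ((d2.pow 2).const_mul (aS n t T ^ 2))).sub
    (d2.const_mul (3 * aS n t T * qt n t T))).sub_const (3 * qt n t T ^ 2)
  have q2 := l2.unique (r2.congr_of_eventuallyEq e2)
  have hE : 27 * WC (⊤ : Ideal (OO n t)) (3 * v) * Xt n t T v ^ 3 = Vt n t T v * (Xt n t T v ^ 3 +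
      3 * aS n t T * qt n t T * Xt n t T v + 6 * qt n t T ^ 2) := by
    apply mul_left_cancel₀ f1
    simp only [Pi.pow_apply] at q2
    generalize Xt n t T v = X at q2 hD ⊢
    generalize Vt n t T v = V at q2 ⊢
    generalize fr (⊤ : Ideal (OO n t)) = p at q2 ⊢
    norm_num at q2
    linear_combination X * q2 - (2 * p * V) * hD
  exact alg_G hX0 rfl hV2 hD hE

end main

/-- **The function `G`.** -/
theorem isG3 (hBC : S_BC) {n t : ℕ} [SqN n t] {T : ℂ} (hT : Thr n t T) :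
    IsG3 n t T (G3 n t T) := by
  have hb := aBC hBC n t
  have h1 : Meromorphic (wpC (⊤ : Ideal (OO n t))) := (LP ⊤).meromorphic_weierstrassP
  have h2 : Meromorphic (wdC (⊤ : Ideal (OO n t))) := (LP ⊤).meromorphic_derivWeierstrassP
  have mX : Meromorphic (xS n t T) := fun z =>
    (((h1 z).sub (MeromorphicAt.const _ z)).div (MeromorphicAt.const _ z)).sub
      (MeromorphicAt.const _ z)
  have mW : Meromorphic (WC (⊤ : Ideal (OO n t))) := fun z =>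
    (h2 z).div (MeromorphicAt.const _ z)
  have sh : ∀ (F : ℂ → ℂ) (c z : ℂ), Meromorphic F → MeromorphicAt (fun y => F (y + c)) z := by
    intro F c z hF
    have h3 : AnalyticAt ℂ (fun y : ℂ => y + c) z := analyticAt_id.add analyticAt_const
    have h4 : MeromorphicAt (F ∘ fun y : ℂ => y + c) z :=
      MeromorphicAt.comp_analyticAt (hF (z + c)) h3
    exact h4
  have mXt : Meromorphic (Xt n t T) := fun z =>
    (((mX z).add (sh _ _ z mX)).add (sh _ _ z mX)).add (MeromorphicAt.const _ z)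
  have mVt : Meromorphic (Vt n t T) := fun z =>
    ((mW z).add (sh _ _ z mW)).add (sh _ _ z mW)
  have pX : ∀ (v l : ℂ), l ∈ Lam (⊤ : Ideal (OO n t)) →
      xS n t T (v + l) = xS n t T v ∧
      WC (⊤ : Ideal (OO n t)) (v + l) = WC (⊤ : Ideal (OO n t)) v := by
    intro v l hl
    have h := hb.per v l hl
    unfold xS
    rw [h.1, h.2]
    exact ⟨rfl, rfl⟩
  have per : ∀ (v l : ℂ), l ∈ Lam (⊤ : Ideal (OO n t)) →
      Xt n t T (v + l) = Xt n t T v ∧ Vt n t T (v + l) = Vt n t T v := by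
    intro v l hl
    have e1 : v + l + T = v + T + l := by ring
    have e2 : v + l + 2 * T = v + 2 * T + l := by ring
    unfold Xt Vt
    rw [e1, e2, (pX v l hl).1, (pX v l hl).2, (pX _ l hl).1, (pX _ l hl).2, (pX _ l hl).1,
      (pX _ l hl).2]
    exact ⟨rfl, rfl⟩
  have thi : ∀ v : ℂ, Xt n t T (v + T) = Xt n t T v ∧ Vt n t T (v + T) = Vt n t T v := by
    intro v
    have e1 : v + T + T = v + 2 * T := by ring
    have e2 : v + T + 2 * T = v + 3 * T := by ring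
    unfold Xt Vt
    rw [e1, e2, (pX v _ hT.three).1, (pX v _ hT.three).2]
    exact ⟨by ring, by ring⟩
  refine ⟨fun z => ?_, fun v hv => cube hBC hT hv, fun v α => ?_, fun v => ?_⟩
  · exact ((((mVt z).sub ((MeromorphicAt.const _ z).mul (mXt z)))).sub
      (MeromorphicAt.const _ z)).div ((MeromorphicAt.const _ z).mul (mXt z))
  · have h := per v (toC α) (lam_top.2 ⟨α, rfl⟩)
    unfold G3
    rw [h.1, h.2]
  · unfold G3
    rw [(thi v).1, (thi v).2]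

end Pool.Agent.DM.DU.F.Gt3
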