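import Pool.Agent.Lib.DU.F.Base
import Pool.Agent.Lib.DU.F.Gt3
import Pool.Agent.Lib.DM.F.Tan

/-!
# Theorem DU, part F, module `Tan`: the numbers `xtT`, `ytT`, `lamT`, `nuT`
-/

set_option autoImplicit false
set_option linter.unusedSectionVars false

open scoped Pointwise Topology
open Filter

noncomputable section

namespace Pool.Agent.DM.DU.F

open Pool.Agent.MuZ Pool.Agent.FW NumberField IsDedekindDomain Pool.Agent.DN Pool.Agent.DN.F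
open Pool.Agent.DI (io ofC io_inj exists_io io_ofC ofC_io VP MP UP TP ex)

theorem tor_T3 (n t : ℕ) : Tor n t (T3 n t) := ⟨sD n t, 3, by norm_num, by unfold T3; norm_num⟩

/-- `T3` is a point of order three. -/
theorem thr_T3 (hL6 : S_L6) (n t : ℕ) [Ram3 n t] : Gt3.Thr n t (T3 n t) := by
  obtain ⟨-, h1, h2, -⟩ := hL6 n t ⊤ Eb.ne_top (Eb.pri_top 3)
  refine ⟨h1, h2, lam_top.2 ⟨sD n t, ?_⟩⟩
  unfold T3
  ring

/-- The relations in `Om`: `g = (1 - 8 c)/4`, `a = c²`, `X = x(T3)`. -/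
theorem tanT (hL6 : S_L6) (hX : S_XOm) (n t : ℕ) [Ram3 n t] :
    vO (⊤ : Ideal (OO n t)) (T3 n t) ≠ 0 ∧
    lamT n t ^ 2 = (1 - 8 * cO (⊤ : Ideal (OO n t))) / 4 + 3 * xO (⊤ : Ideal (OO n t)) (T3 n t) ∧
    2 * lamT n t * (nuT n t + lamT n t * ((1 - 8 * cO (⊤ : Ideal (OO n t))) / 4 / 3)) =
      cO (⊤ : Ideal (OO n t)) ^ 2 - 3 * xO (⊤ : Ideal (OO n t)) (T3 n t) ^ 2 ∧
    (nuT n t + lamT n t * ((1 - 8 * cO (⊤ : Ideal (OO n t))) / 4 / 3)) ^ 2 =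
      xO (⊤ : Ideal (OO n t)) (T3 n t) ^ 3 := by
  have hb := hX n t (⊤ : Ideal (OO n t)) g30_top
  have hT := thr_T3 hL6 n t
  have ht := tor_T3 n t
  have h0 : vO (⊤ : Ideal (OO n t)) (T3 n t) ≠ 0 := fun h => hT.ne2 ((hb.two _ ht hT.ne).1 h)
  have h1 := hb.crv _ ht hT.ne
  have h2 := hb.dup _ ht hT.ne2
  have h3 : xO (⊤ : Ideal (OO n t)) (2 * T3 n t) = xO (⊤ : Ideal (OO n t)) (T3 n t) := by
    refine hb.cng' _ _ (Or.inr ?_)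
    have e : 2 * T3 n t + T3 n t = 3 * T3 n t := by ring
    rw [e]
    exact hT.three
  rw [h3] at h2
  obtain ⟨X, hXe⟩ : ∃ X, X = xO (⊤ : Ideal (OO n t)) (T3 n t) := ⟨_, rfl⟩
  obtain ⟨W, hWe⟩ : ∃ W, W = vO (⊤ : Ideal (OO n t)) (T3 n t) := ⟨_, rfl⟩
  obtain ⟨c, hce⟩ : ∃ c, c = cO (⊤ : Ideal (OO n t)) := ⟨_, rfl⟩
  have hl : lamT n t * W = 3 * X ^ 2 + (1 - 8 * c) / 2 * X + c ^ 2 := by
    unfold lamT xtT ytT a4O
    rw [← hXe, ← hWe, ← hce]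
    rw [← hWe] at h0
    field_simp
    ring
  have hn : nuT n t + lamT n t * ((1 - 8 * c) / 4 / 3) = W / 2 - lamT n t * X := by
    unfold nuT xtT ytT
    rw [← hXe, ← hWe, ← hce]
    ring
  rw [← hXe, ← hWe, ← hce] at h1 h2
  rw [← hWe] at h0 ⊢
  rw [← hXe, ← hce, hn]
  have hl2 : lamT n t ^ 2 = (1 - 8 * c) / 4 + 3 * X := by
    apply mul_right_cancel₀ (pow_ne_zero 2 h0)
    have e : lamT n t ^ 2 * W ^ 2 = (3 * X ^ 2 + (1 - 8 * c) / 2 * X + c ^ 2) ^ 2 := by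
      rw [← hl]
      ring
    rw [e]
    rw [h1] at h2
    rw [h1]
    linear_combination (-1 : Om) * h2
  refine ⟨h0, hl2, ?_, ?_⟩
  · linear_combination hl - 2 * X * hl2
  · linear_combination h1 / 4 - X * hl + X ^ 2 * hl2

/-- The numbers in `ℂ`. -/
theorem tanT_io (hL6 : S_L6) (hR1 : S_R1) (hBC : S_BC) (n t : ℕ) [Ram3 n t] :
    io (lamT n t) = Gt3.aS n t (T3 n t) / 2 ∧
    io (nuT n t) = Gt3.bS n t (T3 n t) / 2 - Gt3.aS n t (T3 n t) / 2 *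
      (XC (⊤ : Ideal (OO n t)) (T3 n t) + (1 - 8 * cC (⊤ : Ideal (OO n t))) / 12) := by
  have hT := thr_T3 hL6 n t
  obtain ⟨r1, -, r3, -⟩ := (hR1 n t).1 ⊤ g30_top
  obtain ⟨rx, rv⟩ := r3 (T3 n t) (tor_T3 n t)
  obtain ⟨m1, -, m3, -⟩ := Gt3.mdl hBC hT
  have hl : io (lamT n t) = Gt3.aS n t (T3 n t) / 2 := by
    have h1 : Gt3.aS n t (T3 n t) = (6 * XC (⊤ : Ideal (OO n t)) (T3 n t) ^ 2 +
        (1 - 8 * cC (⊤ : Ideal (OO n t))) * XC (⊤ : Ideal (OO n t)) (T3 n t) +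
        2 * cC (⊤ : Ideal (OO n t)) ^ 2) / WC (⊤ : Ideal (OO n t)) (T3 n t) := rfl
    have h2 : WC (⊤ : Ideal (OO n t)) (T3 n t) ≠ 0 := m1
    unfold lamT xtT ytT a4O
    simp only [map_div₀, map_add, map_sub, map_mul, map_pow, map_ofNat, map_one, r1, rx, rv]
    rw [h1]
    field_simp
    ring
  refine ⟨hl, ?_⟩
  unfold nuT
  rw [map_sub, map_mul, hl]
  unfold xtT ytT Gt3.bS
  simp only [map_div₀, map_add, map_sub, map_mul, map_ofNat, map_one, r1, rx, rv]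

end Pool.Agent.DM.DU.F
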