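import Pool.Agent.Lib.DU.F.Base
import Pool.Agent.Lib.DU.F.Tan

/-!
# Theorem DU, part F: the function `Ψ = G(C/3)`, `G(v)³ = y(3 v)` (statements), author helper79

Modules: `Cus` (`tCus : S_Cus`), `PsG` (`tPsG : S_PsG`), `PsE` (`tPsE : .. → S_PsE`), written by helper79. The function
`G` is in `DU/F/Gt3.lean` (complete). At the end: **`S_Psi`** from `S_PsG`, `S_PsE` (complete).
-/

set_option autoImplicit false
set_option linter.unusedSectionVars false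

open scoped Pointwise Topology MatrixGroups
open Filter

noncomputable section

namespace Pool.Agent.DM.DU.F

open Pool.Agent.MuZ Pool.Agent.FW NumberField IsDedekindDomain Pool.Agent.DN Pool.Agent.DN.F
open Pool.Agent.DI (io ofC io_inj exists_io io_ofC ofC_io VP MP UP TP ex)

/-- The function `Ψ = G(C(z)/3)`. -/
def PsF {n t : ℕ} (G : ℂ → ℂ) (f : ℕ) (s : ℤ) (m : Ideal (OO n t)) (R : Finset (Ideal (OO n t)))
    (σ : Ideal (OO n t) → Gal(Om/ℚ)) (N0 : ℕ) (β : Om) (z : ℂ) : ℂ :=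
  G (CF f s m R σ N0 β z / 3)

/-- MODULE `Cus` (from `S_C3`). The cusps: `A(γ z)` is an analytic function of `ex (z/(9 M))`. -/
def S_Cus : Prop := ∀ (n t : ℕ) [Ram3 n t] (f M : ℕ) (m : Ideal (OO n t)) (R : Finset (Ideal (OO n t))),
  FM f m → FR f R → IsLv f m R M → ∀ (σ : Ideal (OO n t) → Gal(Om/ℚ)) (N0 : ℕ) (β : Om) (a b c d : ℤ),
  a * d - b * c = 1 → ∃ al : ℂ → ℂ, AnalyticAt ℂ al 0 ∧ ∀ z : ℂ, 0 < z.im →
    AF f m R σ N0 β ((a * z + b) / (c * z + d)) = al (ex (z / (27 * M : ℕ)))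

/-- MODULE `PsG` (from `S_C7`, `S_Cus`). The first three items of `S_Psi` for `Ψ = PsF G ..`. -/
def S_PsG : Prop := ∀ (n t : ℕ) [Ram3 n t] (f M : ℕ) (m : Ideal (OO n t)) (R : Finset (Ideal (OO n t))),
  FM f m → FR f R → IsLv f m R M → ∀ (σ : Ideal (OO n t) → Gal(Om/ℚ)) (s : ℤ), (s = 1 ∨ s = -1) →
  ∀ (N0 : ℕ) (β : Om), ∀ G : ℂ → ℂ, Gt3.IsG3 n t (T3 n t) G →
    (∀ z : ℂ, 0 < z.im → MeromorphicAt (PsF G f s m R σ N0 β) z) ∧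
    (∀ z z' : ℂ, 0 < z.im → 0 < z'.im → ∀ α α' : OO n t, α - s * α' ∈ pp n t →
      AF f m R σ N0 β z' = AF f m R σ N0 β z + toC α →
      AF f m R σ N0 β (-(starRingEnd ℂ) z') = AF f m R σ N0 β (-(starRingEnd ℂ) z) + toC α' →
      PsF G f s m R σ N0 β z' = PsF G f s m R σ N0 β z) ∧
    ∀ γ : SL(2, ℤ), ∃ (F : ℂ → ℂ) (Y : ℝ), MeromorphicAt F 0 ∧
      ∀ z : UpperHalfPlane, Y < z.im → PsF G f s m R σ N0 β ((γ • z : UpperHalfPlane) : ℂ) =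
        F (Complex.exp (2 * Real.pi * Complex.I * (z : ℂ) / ((27 * M : ℕ) : ℂ)))

/-- MODULE `PsE`. THE EXPANSION OF `Ψ`. -/
def S_PsE : Prop := ∀ (n t : ℕ) [Ram3 n t] (f : ℕ) (m : Ideal (OO n t)) (R : Finset (Ideal (OO n t))),
  FM f m → FR f R → IsRC (3 * f) R → ∀ σ : Ideal (OO n t) → Gal(Om/ℚ), IsSig n t f σ →
  ∀ c : Gal(Om/ℚ), IsCj c → ∀ (s : ℤ) (N0 : ℕ) (β : Om), β ∈ Kf n t f (3 * f) →
  cF f s m R σ c N0 β 1 ≠ 0 →
  ∀ G : ℂ → ℂ, Gt3.IsG3 n t (T3 n t) G →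
  ∃ (T W ψ : PowerSeries Om) (Y : ℝ) (j : ℕ) (L : IntermediateField ℚ Om),
    FiniteDimensional ℚ L ∧ (∀ i, PowerSeries.coeff i ψ ∈ L) ∧
    _root_.DM.F4.TWr (a4O n t) (a6O n t) (uF f s m R σ c N0 β) T W ∧
    ψ ^ 3 * W = -(PowerSeries.X ^ 3 *
      (1 + PowerSeries.C (lamT n t) * T + PowerSeries.C (nuT n t) * W)) ∧
    ∀ z : ℂ, Y < z.im → HasSum (fun i : ℕ => io (PowerSeries.coeff i ψ) * ex z ^ i)
      (ex z ^ j * PsF G f s m R σ N0 β z)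

/-- **`S_Psi`** (complete). -/
theorem sPsi (hL6 : S_L6) (hBC : S_BC) (hP : S_PsG) (hE : S_PsE) : S_Psi := by
  intro n t _ f M m R hm hR hRC hlv σ hσ c hc s hs N0 β hβ h1
  have hGo := Gt3.isG3 hBC (thr_T3 hL6 n t)
  obtain ⟨a1, a2, a3⟩ := hP n t f M m R hm hR hlv σ s hs N0 β (Gt3.G3 n t (T3 n t)) hGo
  exact ⟨PsF (Gt3.G3 n t (T3 n t)) f s m R σ N0 β, a1, a2, a3,
    hE n t f m R hm hR hRC σ hσ c hc s N0 β hβ h1 (Gt3.G3 n t (T3 n t)) hGo⟩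

end Pool.Agent.DM.DU.F
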