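import Pool.Agent.Lib.DU.F.Base
import Pool.Agent.Lib.DU.CV.Bas
import Pool.Agent.Lib.DN.F.Lin
import Pool.Agent.Lib.DR.F.Lin
import Pool.Agent.Lib.DI.F.VPB

/-!
# Theorem DU (`p = 3` ramified), part F: `S_F2` (statements of the modules), author helper79

Adaptations of the modules `DM/F/<Name>.lean`, `DR/F/<Name>.lean` (helper12). The module `DU/F/<Name>.lean` proves
`t<Name> : S_<Name>`; all are written by helper79.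
-/

set_option autoImplicit false
set_option linter.unusedSectionVars false

open scoped Pointwise Topology MatrixGroups
open Filter

noncomputable section

namespace Pool.Agent.DM.DU.F

open Pool.Agent.MuZ Pool.Agent.FW NumberField IsDedekindDomain Pool.Agent.DN Pool.Agent.DN.F
open Pool.Agent.DI (io ofC io_inj exists_io io_ofC ofC_io VP MP UP TP ex)

/-- MODULE `KP` (from `S_O4`). THE FIELD `K` AT THE PRIMES ABOVE `3`. -/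
def S_KP : Prop := ∀ (n t : ℕ) [Ram3 n t] (P : Ideal ZZ), Ab3 P →
  (∀ x ∈ KQ n t, VP P x → ∃ v : OO n t, MP P (x - toO v)) ∧
  (∀ v : OO n t, MP P (toO v) ↔ v ∈ pp n t) ∧
  (∀ x ∈ KQ n t, VP P x → ∃ N : ℕ, ¬ 3 ∣ N ∧ ∃ v : OO n t, (N : Om) * x = toO v) ∧
  (∀ v : OO n t, Cop v 3 → UP P (toO v)) ∧ ∀ v : OO n t, MP P (toO v - zs v)

/-- MODULE `Od` (from `S_O4`). CLASSES MODULO `f` OF IDEALS PRIME TO `3 f`. -/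
def S_Od : Prop := ∀ (n t : ℕ) [Ram3 n t] (f : ℕ), Fok f → ∀ b b' : Ideal (OO n t), FB f b →
  FB f b' → Ray f b b' → ∃ α α' : OO n t, α ≠ 0 ∧ α' ≠ 0 ∧ Cop α 3 ∧ Cop α' 3 ∧
    (f : OO n t) ∣ α - 1 ∧ (f : OO n t) ∣ α' - 1 ∧ sp α * b = sp α' * b'

/-- MODULE `TmF` (from `S_Od`). THE CLASSES MODULO `3 f` IN A CLASS MODULO `f`. -/
def S_TmF : Prop := ∀ (n t : ℕ) [Ram3 n t] (f : ℕ), Fok f →
  (∀ α ∈ tm n t f, α ≠ 0 ∧ (f : OO n t) ∣ α - 1 ∧ Cop α 3 ∧ Cop α (3 * f)) ∧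
  (∀ (A : Type) [AddCommMonoid A] (F : Ideal (OO n t) → A),
    (∀ b b', FB f b → FB f b' → Ray (3 * f) b b' → F b = F b') →
    (∀ R R2 : Finset (Ideal (OO n t)), IsRC f R → FR f R → IsRC (3 * f) R2 →
      ∑ b ∈ R2, F b = ∑ b ∈ R, ∑ α ∈ tm n t f, F (sp α * b)) ∧
    ∀ b b' : Ideal (OO n t), FB f b → FB f b' → Ray f b b' →
      ∑ α ∈ tm n t f, F (sp α * b) = ∑ α ∈ tm n t f, F (sp α * b')) ∧
  ∀ b : Ideal (OO n t), Ray f b ⊤ → FB f b → ∃ α ∈ tm n t f, Ray (3 * f) b (sp α)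

/-- MODULE `Gc`. GALOIS ACTION ON `κ`, `fr`. -/
def S_Gc : Prop := ∀ (n t : ℕ) [Ram3 n t] (f : ℕ), Fok f →
  (∀ τ ∈ GK n t, ∀ a : Ideal (OO n t), Psi τ (3 * f) a → ∀ b : Ideal (OO n t), FB f b →
    τ (kp b) = kp (a * b) ∧ ∀ b' : Ideal (OO n t), FB f b' → τ (rO b b') = rO (a * b) (a * b')) ∧
  (∀ b b' : Ideal (OO n t), FB f b → FB f b' → Ray (3 * f) b b' → kp b = kp b') ∧
  kp (⊤ : Ideal (OO n t)) ∈ Kf n t f (3 * f) ∧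
  (∀ b : Ideal (OO n t), FB f b → rO ⊤ b ∈ Kf n t f f ∧ rO b b = 1 ∧
    (∀ a : Ideal (OO n t), FB f a → ∀ Q : Ideal ZZ, Ab3 Q → UP Q (rO a (b * a))) ∧
    (∀ b' b'' : Ideal (OO n t), FB f b' → FB f b'' → rO b b' * rO b' b'' = rO b b'') ∧
    ∀ α : OO n t, α ≠ 0 → (f : OO n t) ∣ α - 1 → rO b (sp α * b) = toO α) ∧
  ∀ σ : Ideal (OO n t) → Gal(Om/ℚ), IsSig n t f σ → ∀ N : ℕ, (N = f ∨ N = 3 * f) →
    ∀ x ∈ Kf n t f N, (∀ b b' : Ideal (OO n t), FB f b → FB f b' → Ray N b b' → σ b x = σ b' x) ∧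
      ∀ τ ∈ GK n t, ∀ a : Ideal (OO n t), Psi τ (3 * f) a → ∀ b : Ideal (OO n t), FB f b →
        τ (σ b x) = σ (a * b) x ∧ σ b (τ x) = σ (a * b) x

/-- MODULE `YE` (from `S_C6`, `S_C8`, `S_C10`, `S_TmF`, `S_Gc`). THE NUMBERS `yE`. -/
def S_YE : Prop := ∀ (n t : ℕ) [Ram3 n t] (f M k : ℕ) (m : Ideal (OO n t)) (R : Finset (Ideal (OO n t))),
  FM f m → FR f R → IsLv f m R M → (k = 1 ∨ k = 2) → ∀ r : ℚ, r.den.Coprime M →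
    yE f k m ⊤ r ∈ Kf n t f f ∧
    (∀ Q : Ideal ZZ, Ab3 Q → ∀ τ ∈ GK n t, VP Q (τ (yE f k m ⊤ r))) ∧
    (∀ τ ∈ GK n t, ∀ a : Ideal (OO n t), Psi τ (3 * f) a → τ (yE f k m ⊤ r) = yE f k m a r) ∧
    ∀ b ∈ R, yE f k m b r = kp b ^ k / 3 * etE f k m b r

/-- The numbers `w_g`. -/
def wg {n t : ℕ} (f k : ℕ) (s : ℤ) (m : Ideal (OO n t)) (b d : ℤ) : Om :=
  (yE f k m ⊤ (3 * b / d) - yE f k m ⊤ 0) - s * (yE f k m ⊤ (-(3 * b / d)) - yE f k m ⊤ 0)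

/-- `κ_b = χ(b) (fr(b)/fr(1)) (κ(b)/w4)^(-k)`. -/
def kpp {n t : ℕ} (k : ℕ) (χ : Ideal (OO n t) → Om) (b : Ideal (OO n t)) : Om :=
  χ b * rO ⊤ b * ((kp b / w4) ^ k)⁻¹

/-- MODULE `Kap` (from `S_Kp`, `S_KP`, `S_Od`, `S_Gc`). THE NUMBERS `kpp`. -/
def S_Kap : Prop := ∀ (n t : ℕ) [Ram3 n t] (f k : ℕ), Fok f → ∀ χ : Ideal (OO n t) → Om,
  IsChi (3 * f) χ → ∀ P : Ideal ZZ, Ab3 P → (k = 1 ∨ k = 2) → Ty P f χ (k - 1) →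
  (∀ b : Ideal (OO n t), FB f b → UP P (χ b) ∧ UP P (rO ⊤ b) ∧ UP P (kp b / w4) ∧
    UP P (kpp k χ b)) ∧
  ∀ b b' : Ideal (OO n t), FB f b → FB f b' → Ray f b b' → MP P (kpp k χ b - kpp k χ b')

/-- MODULE `Sm` (from `S_YE`, `S_Gc`, `S_Kp`). THE SUMS WITH `χ`. -/
def S_Sm : Prop := ∀ (n t : ℕ) [Ram3 n t] (f M k e : ℕ) (m : Ideal (OO n t)) (R : Finset (Ideal (OO n t))),
  FM f m → FR f R → IsRC f R → IsLv f m R M → ∀ χ : Ideal (OO n t) → Om, IsChi (3 * f) χ →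
  (k = 1 ∨ k = 2) →
  ∀ σ : Ideal (OO n t) → Gal(Om/ℚ), IsSig n t f σ → ∀ s : ℤ, s = -(-1) ^ e →
    ∀ a b c d : ℤ, G0 (27 * M) a b c d → (27 * M : ℤ) ∣ d - 1 →
    ∑ b' ∈ R, kpp k χ b' * σ b' (wg f k s m b d) =
      xs f k e m R χ (3 * b / d) - xs f k e m R χ 0

/-- MODULE `Bet`. THE ELEMENT `β` (two terms). -/
def S_Bet : Prop := ∀ (n t : ℕ) [Ram3 n t] (f : ℕ) (R : Finset (Ideal (OO n t))), Fok f →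
  FR f R → IsRC f R → ∀ P : Ideal ZZ, Ab3 P → ∀ σ : Ideal (OO n t) → Gal(Om/ℚ), IsSig n t f σ →
  ∀ (κ : Ideal (OO n t) → Om) (S : Set Om), (∀ b ∈ R, VP P (κ b)) →
  (∀ w ∈ S, w ∈ Kf n t f f ∧ ∀ Q : Ideal ZZ, Ab3 Q → ∀ τ ∈ GK n t, VP Q (τ w)) →
  (∀ w ∈ S, MP P (∑ b ∈ R, κ b * σ b w)) →
  ∀ b1 ∈ R, ∀ b2 ∈ R, ∀ l1 l2 : Om, VP P l1 → VP P l2 → ¬ MP P (l1 * κ b1 + l2 * κ b2) →
  ∃ β ∈ Kf n t f f, ¬ MP P (l1 * σ b1 β + l2 * σ b2 β) ∧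
    (∀ Q : Ideal ZZ, Ab3 Q → ∀ τ ∈ GK n t, VP Q (τ β)) ∧ ∀ w ∈ S, MP P (∑ b ∈ R, σ b (β * w))

/-- `β = κ(1)^k β₀/3`. -/
def bet (n t k : ℕ) (β₀ : Om) : Om := kp (⊤ : Ideal (OO n t)) ^ k * β₀ / 3

/-- The period. -/
def perA {n t : ℕ} (f k : ℕ) (m : Ideal (OO n t)) (R : Finset (Ideal (OO n t)))
    (σ : Ideal (OO n t) → Gal(Om/ℚ)) (β₀ : Om) (b d : ℤ) : Om :=
  ∑ b' ∈ R, σ b' (β₀ * (yE f k m ⊤ (3 * b / d) - yE f k m ⊤ 0))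

/-- MODULE `Pa`. THE PERIODS OF `A`. -/
def S_Pa : Prop := ∀ (n t : ℕ) [Ram3 n t] (f M k : ℕ) (m : Ideal (OO n t)) (R R2 : Finset (Ideal (OO n t))),
  FM f m → FR f R → IsRC f R → IsLv f m R M → FR f R2 → IsRC (3 * f) R2 → IsLv f m R2 M →
  (k = 1 ∨ k = 2) → ∀ σ : Ideal (OO n t) → Gal(Om/ℚ), IsSig n t f σ → ∀ β₀ ∈ Kf n t f f,
  (∀ Q : Ideal ZZ, Ab3 Q → ∀ τ ∈ GK n t, VP Q (τ β₀)) →
  ∀ a b c' d : ℤ, G0 (27 * M) a b c' d → (27 * M : ℤ) ∣ d - 1 →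
    (∀ z : ℂ, 0 < z.im → AF f m R2 σ 1 (bet n t k β₀) ((a * z + b) / (c' * z + d)) =
      AF f m R2 σ 1 (bet n t k β₀) z + io (perA f k m R σ β₀ b d)) ∧
    perA f k m R σ β₀ b d ∈ KQ n t ∧ ∀ Q : Ideal ZZ, Ab3 Q → VP Q (perA f k m R σ β₀ b d)

/-- MODULE `Pb`. FINITELY MANY GENERATORS. -/
def S_Pb : Prop := ∀ (n t : ℕ) [Ram3 n t] (f M k : ℕ) (m : Ideal (OO n t)) (R R2 : Finset (Ideal (OO n t))),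
  FM f m → FR f R → IsRC f R → IsLv f m R M → FR f R2 → IsRC (3 * f) R2 → IsLv f m R2 M →
  (k = 1 ∨ k = 2) → ∀ P : Ideal ZZ, Ab3 P → ∀ σ : Ideal (OO n t) → Gal(Om/ℚ), IsSig n t f σ →
  ∀ β₀ ∈ Kf n t f f, (∀ Q : Ideal ZZ, Ab3 Q → ∀ τ ∈ GK n t, VP Q (τ β₀)) →
  ∃ N0 : ℕ, ¬ 3 ∣ N0 ∧ ∀ a b c' d : ℤ, G0 (27 * M) a b c' d → (27 * M : ℤ) ∣ d - 1 → ∃ α : OO n t,
    (N0 : Om) * perA f k m R σ β₀ b d = toO α ∧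
    ∀ z : ℂ, 0 < z.im → AF f m R2 σ N0 (bet n t k β₀) ((a * z + b) / (c' * z + d)) =
      AF f m R2 σ N0 (bet n t k β₀) z + toC α

end Pool.Agent.DM.DU.F
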