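import Pool.Agent.Lib.DU.F.SpecA

/-!
# Theorem DU, part F, module TmF: the classes modulo `3 f` in a class modulo `f`
-/

set_option autoImplicit false

open scoped Pointwise

noncomputable section

namespace Pool.Agent.DM.DU.F

open Pool.Agent.MuZ Pool.Agent.FW NumberField IsDedekindDomain Pool.Agent.DN Pool.Agent.DN.F

private theorem Tm_ne {n t N : ℕ} (hN : 1 < N) {α : OO n t} (h : Cop α N) : α ≠ 0 := by
  rintro rfl
  unfold Cop at h
  rw [Nm_zero] at h
  have h1 := isCoprime_zero_left.1 h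
  rw [Int.isUnit_iff] at h1
  omega

private theorem Tm_f {n t f : ℕ} (hG : IsG f 1 (tm n t f)) {α : OO n t} (h : α ∈ tm n t f) :
    (f : OO n t) ∣ α - 1 := (hG.mem α h).1

private theorem Tm_two {n t f : ℕ} (hG : IsG f 1 (tm n t f)) {α : OO n t} (h : α ∈ tm n t f) :
    Cop α 3 := (hG.mem α h).2

private theorem Tm_cast (f : ℕ) : f * 3 ^ 1 = 3 * f := by ring

/-- Every `v`, `1` modulo `f` and prime to `3`, is congruent modulo `3 f` to an element of `tm`. -/
private theorem Tm_key {n t f : ℕ} (hG : IsG f 1 (tm n t f)) {v : OO n t} (h : (f : OO n t) ∣ v - 1)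
    (h2 : Cop v 3) : ∃ α ∈ tm n t f, ((3 * f : ℕ) : OO n t) ∣ v - α := by
  obtain ⟨α, h3, h4⟩ := hG.ex v h h2
  rw [Tm_cast] at h4
  exact ⟨α, h3, h4⟩

/-- The elements of `tm` are different modulo `3 f`. -/
private theorem Tm_uni {n t f : ℕ} (hG : IsG f 1 (tm n t f)) {α α' : OO n t} (h : α ∈ tm n t f)
    (h' : α' ∈ tm n t f) (h2 : ((3 * f : ℕ) : OO n t) ∣ α - α') : α = α' := by
  refine hG.uni α h α' h' ?_
  rw [Tm_cast]
  exact h2

/-- The classes modulo `3 f` in the class of `b'` modulo `f`. -/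
private theorem Tm_ray (hOd : S_Od) {n t f : ℕ} [Ram3 n t] (hf : Fok f) (hG : IsG f 1 (tm n t f))
    {b b' : Ideal (OO n t)} (hb : FB f b) (hb' : FB f b') (h : Ray f b b') :
    ∃ α ∈ tm n t f, Ray (3 * f) b (sp α * b') := by
  have hf1 : 1 < 3 * f := by
    have := f20 hf
    omega
  obtain ⟨α, α', h1, h2, h3, h4, h5, h6, h7⟩ := hOd n t f hf b b' hb hb' h
  have c1 : Cop α (3 * f) := cop_of h5 h3
  obtain ⟨γ, c2, h8⟩ := cop_inv c1
  have h8f : (f : OO n t) ∣ α * γ - 1 := by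
    refine dvd_trans ⟨3, ?_⟩ h8
    push_cast
    ring
  have c2' : Cop γ 3 := cop_dvd c2 (Dvd.intro _ rfl)
  have h9 : (f : OO n t) ∣ γ * α' - 1 := by
    have e : γ * α' - 1 = (α * γ - 1) - γ * ((α - 1) - (α' - 1)) := by ring
    rw [e]
    exact dvd_sub h8f (dvd_mul_of_dvd_right (dvd_sub h5 h6) _)
  have c3 : Cop (γ * α') 3 := cop_mul c2' h4
  obtain ⟨β, hβ, h10⟩ := Tm_key hG h9 c3
  have c4 : Cop β (3 * f) := cop_of (Tm_f hG hβ) (Tm_two hG hβ)
  have c5 : Cop (γ * α') (3 * f) := cop_of h9 c3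
  have c6 : Cop (β * (γ * α)) (3 * f) := cop_mul c4 (cop_mul c2 c1)
  refine ⟨β, hβ, β * (γ * α), γ * α', Tm_ne hf1 c6, Tm_ne hf1 c5, c6, c5, ?_, ?_⟩
  · have e : β * (γ * α) - γ * α' = β * (α * γ - 1) - (γ * α' - β) := by ring
    rw [e]
    exact dvd_sub (dvd_mul_of_dvd_right h8 _) h10
  · rw [sp_mul β, sp_mul γ α, sp_mul γ α', mul_assoc, mul_assoc, h7]
    ring

private theorem Tm_spray {n t N : ℕ} (hN : 1 < N) {v u : OO n t} (hv : Cop v N) (hu : Cop u N)
    (h : (N : OO n t) ∣ v - u) : Ray N (sp v) (sp u) := by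
  refine ⟨u, v, Tm_ne hN hu, Tm_ne hN hv, hu, hv, ?_, mul_comm _ _⟩
  have e : u - v = -(v - u) := by ring
  rw [e]
  exact (dvd_neg).2 h

theorem tTmF (hOd : S_Od) : S_TmF := by
  classical
  intro n t _ f hf
  have hG : IsG f 1 (tm n t f) := tm_isG hf.cop
  have hf1 : 1 < 3 * f := by
    have := f20 hf
    omega
  have hf3 : 3 ≤ f := by
    have := f20 hf
    omega
  have hN : 0 < 3 * f := three_f hf
  have hf0 : 0 < f := f_pos hf
  have hcop : ∀ α ∈ tm n t f, Cop α (3 * f) := fun α hα => cop_of (Tm_f hG hα) (Tm_two hG hα)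
  have hfb : ∀ α ∈ tm n t f, ∀ b : Ideal (OO n t), FB f b → FB f (sp α * b) := fun α hα b hb =>
    fb_mul (fb_sp hf (hcop α hα)) hb
  refine ⟨fun α hα => ⟨Tm_ne hf1 (hcop α hα), Tm_f hG hα, Tm_two hG hα, hcop α hα⟩, ?_, ?_⟩
  · intro A _ F hF
    refine ⟨?_, ?_⟩
    · intro R R2 hR hFR hR2
      have hrep : ∀ x : Ideal (OO n t), FB f x → ∃ y, y ∈ R2 ∧ Ray (3 * f) x y := fun x hx => by
        obtain ⟨y, h1, h2⟩ := hR2.ex x hx.ne hx.prm
        exact ⟨y, h1, h2⟩
      choose! rep hr1 hr2 using hrep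
      have hFB2 : ∀ b ∈ R2, FB f b := fun b hb => ⟨(hR2.mem b hb).1, (hR2.mem b hb).2⟩
      have hrayα : ∀ α ∈ tm n t f, ∀ b : Ideal (OO n t), Ray f (sp α * b) b := by
        intro α hα b
        have h1 : Ray f (sp α) ⊤ := by
          have hne : α ≠ 0 := Tm_ne hf1 (hcop α hα)
          refine ray_of (α := 1) (α' := α) one_ne_zero hne ?_ (Tm_f hG hα) ?_
          · rw [sub_self]
            exact dvd_zero _
          · rw [sp_one, Ideal.top_mul, Ideal.mul_top]
        have h2 := ray_mul hf0 h1 (ray_refl hf0 b)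
        rwa [Ideal.top_mul] at h2
      symm
      rw [← Finset.sum_product']
      refine Finset.sum_bij (fun x _ => rep (sp x.2 * x.1)) ?_ ?_ ?_ ?_
      · rintro ⟨b, α⟩ hx
        obtain ⟨hb, hα⟩ := Finset.mem_product.1 hx
        exact hr1 _ (hfb α hα b (hFR b hb))
      · rintro ⟨b, α⟩ hx ⟨b', α'⟩ hx' h
        obtain ⟨hb, hα⟩ := Finset.mem_product.1 hx
        obtain ⟨hb', hα'⟩ := Finset.mem_product.1 hx'
        change rep (sp α * b) = rep (sp α' * b') at h
        have h1 := hr2 _ (hfb α hα b (hFR b hb))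
        have h2 := hr2 _ (hfb α' hα' b' (hFR b' hb'))
        rw [h] at h1
        have h3 : Ray (3 * f) (sp α * b) (sp α' * b') := ray_trans hN h1 (ray_symm hN h2)
        have h4 : Ray f b b' := ray_trans hf0 (ray_symm hf0 (hrayα α hα b))
          (ray_trans hf0 (ray_f hf h3) (hrayα α' hα' b'))
        have h5 : b = b' := hR.uni b hb b' hb' h4
        subst h5
        have h6 := ray_cancel hN (fb_pn (hFR b hb)) h3
        have h7 := (aO10 n t).2.2.1 (3 * f) f α α' hN (Dvd.intro_left 3 rfl) hf3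
          (Tm_ne hf1 (hcop α hα)) (Tm_ne hf1 (hcop α' hα')) (hcop α hα) (hcop α' hα')
          (Tm_f hG hα) (Tm_f hG hα') h6
        exact Prod.ext rfl (Tm_uni hG hα hα' h7)
      · intro b hb
        obtain ⟨b', hb', h1⟩ := hR.ex b (hFB2 b hb).ne (fb_f (hFB2 b hb)).cop
        obtain ⟨α, hα, h2⟩ := Tm_ray hOd hf hG (hFB2 b hb) (hFR b' hb') h1
        refine ⟨(b', α), Finset.mem_product.2 ⟨hb', hα⟩, ?_⟩
        have h3 := hfb α hα b' (hFR b' hb')
        exact (hR2.uni b hb _ (hr1 _ h3) (ray_trans hN h2 (hr2 _ h3))).symm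
      · rintro ⟨b, α⟩ hx
        obtain ⟨hb, hα⟩ := Finset.mem_product.1 hx
        have h3 := hfb α hα b (hFR b hb)
        exact hF _ _ h3 (hFB2 _ (hr1 _ h3)) (hr2 _ h3)
    · intro b b' hb hb' h
      obtain ⟨β, hβ, h1⟩ := Tm_ray hOd hf hG hb hb' h
      have hm : ∀ α, α ∈ tm n t f → ∃ α', α' ∈ tm n t f ∧
          ((3 * f : ℕ) : OO n t) ∣ α * β - α' := by
        intro α hα
        have h2 : (f : OO n t) ∣ α * β - 1 := by
          have e : α * β - 1 = α * (β - 1) + (α - 1) := by ring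
          rw [e]
          exact dvd_add (dvd_mul_of_dvd_right (Tm_f hG hβ) _) (Tm_f hG hα)
        obtain ⟨α', h3, h4⟩ := Tm_key hG h2 (cop_mul (Tm_two hG hα) (Tm_two hG hβ))
        exact ⟨α', h3, h4⟩
      choose! μ hm1 hm2 using hm
      have hinj : Set.InjOn μ (tm n t f : Set (OO n t)) := by
        intro α hα α' hα' h2
        have hα := Finset.mem_coe.1 hα
        have hα' := Finset.mem_coe.1 hα'
        have h3 : ((3 * f : ℕ) : OO n t) ∣ (α - α') * β := by
          have e : (α - α') * β = (α * β - μ α) - (α' * β - μ α') := by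
            rw [h2]
            ring
          rw [e]
          exact dvd_sub (hm2 α hα) (hm2 α' hα')
        obtain ⟨γ, -, h4⟩ := cop_inv (hcop β hβ)
        refine Tm_uni hG hα hα' ?_
        have e : α - α' = (α - α') * β * γ - (α - α') * (β * γ - 1) := by ring
        rw [e]
        exact dvd_sub (h3.mul_right _) (dvd_mul_of_dvd_right h4 _)
      have hsurj : Set.SurjOn μ (tm n t f : Set (OO n t)) (tm n t f : Set (OO n t)) :=
        Finset.surjOn_of_injOn_of_card_le μ (fun α hα => hm1 α (Finset.mem_coe.1 hα)) hinj le_rfl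
      refine Finset.sum_nbij μ hm1 hinj hsurj fun α hα => ?_
      refine hF _ _ (hfb α hα b hb) (hfb _ (hm1 α hα) b' hb') ?_
      have h5 : Ray (3 * f) (sp α * b) (sp α * (sp β * b')) := ray_mul hN (ray_refl hN _) h1
      have h6 : sp α * (sp β * b') = sp (α * β) * b' := by
        rw [sp_mul, mul_assoc]
      rw [h6] at h5
      exact ray_trans hN h5 (ray_mul hN (Tm_spray hf1 (cop_mul (hcop α hα) (hcop β hβ))
        (hcop _ (hm1 α hα)) (hm2 α hα)) (ray_refl hN _))
  · intro b h hb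
    obtain ⟨α, hα, h1⟩ := Tm_ray hOd hf hG hb (fb_top f) h
    rw [Ideal.mul_top] at h1
    exact ⟨α, hα, h1⟩

end Pool.Agent.DM.DU.F
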